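import Pool.Agent.TH6.LF.DistF
import Pool.Agent.TH6.LF.Blk
import Pool.Agent.TH57.Thr.Dist2

set_option autoImplicit false
set_option linter.style.haveILetI false
set_option linter.unusedSectionVars false

/-! Quadratic forms over `ℤΓ` at distance less than `√2` from the hyperbolic form are hyperbolic. -/

namespace Y477.Crit

open Matrix TH57.Thr TH6.LF

variable {G : Type} [Group G] {κ : Type} [Fintype κ] [DecidableEq κ]

/-- The symmetrised hyperbolic form. -/
noncomputable def Hf (G : Type) [Group G] (κ : Type) [Fintype κ] [DecidableEq κ] (ε : ℤ) :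
    Matrix (κ ⊕ κ) (κ ⊕ κ) (MonoidAlgebra ℤ G) :=
  hyp (MonoidAlgebra ℤ G) κ + ε • adj (hyp (MonoidAlgebra ℤ G) κ)

/-- the sign of a row -/
def sg (ε : ℤ) : κ ⊕ κ → ℤ := Sum.elim (fun _ => 1) (fun _ => ε)

theorem sg_mul (ε : ℤ) (i : κ ⊕ κ) : sg ε i.swap * sg ε i = ε := by
  rcases i with i | i <;> simp [sg]

theorem sg_sq (ε : ℤ) (hε : ε = 1 ∨ ε = -1) (i : κ ⊕ κ) : sg ε i * sg ε i = 1 := by
  rcases i with i | i <;> rcases hε with rfl | rfl <;> simp [sg]

theorem Hf_apply (ε : ℤ) (i j : κ ⊕ κ) :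
    Hf G κ ε i j = if j = i.swap then ((sg ε i : ℤ) : MonoidAlgebra ℤ G) else 0 := by
  rw [Hf, Matrix.add_apply, Matrix.smul_apply, adj_apply, hyp]
  rcases i with i | i <;> rcases j with j | j
  · simp
  · by_cases h : j = i
    · subst h; simp [sg]
    · have h' : i ≠ j := fun e => h e.symm
      simp [h, h']
  · by_cases h : j = i
    · subst h; simp [sg]
    · simp [h]
  · simp

theorem adj_single (u w : κ) (c : MonoidAlgebra ℤ G) :
    adj (Matrix.single u w c) = Matrix.single w u (bar c) := by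
  ext1 i j
  rw [adj_apply, Matrix.single_apply, Matrix.single_apply]
  by_cases h : u = j ∧ w = i
  · rw [if_pos h, if_pos h.symm]
  · rw [if_neg h, if_neg (fun h' => h h'.symm), bar_zero]

theorem adj_Hf (ε : ℤ) (hε : ε = 1 ∨ ε = -1) : adj (Hf G κ ε) = ε • Hf G κ ε := by
  rw [Hf, adj_add, adj_zsmul, adj_adj, smul_add, smul_smul]
  have : ε * ε = 1 := by rcases hε with rfl | rfl <;> norm_num
  rw [this, one_smul, add_comm]

/-- There is a row `w` of `x` which vanishes while the partner row does not. -/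
theorem exists_pair (ε : ℤ) (hε : ε = 1 ∨ ε = -1)
    (x : Matrix (κ ⊕ κ) (κ ⊕ κ) (MonoidAlgebra ℤ G)) (hx : adj x = ε • x) (hr : RowOne x)
    (hu : IsUnit (Hf G κ ε + x)) (h0 : x ≠ 0) :
    ∃ w, (∀ j, x w j = 0) ∧ ∃ j, x w.swap j ≠ 0 := by
  classical
  by_contra hcon
  push Not at hcon
  let au : MonoidAlgebra ℤ G →+* ZMod 2 :=
    (Int.castRingHom (ZMod 2)).comp (MonoidAlgebra.lift ℤ ℤ G 1).toRingHom
  have hau : ∀ g : G, ∀ z : ℤ, au (MonoidAlgebra.single g z) = (z : ZMod 2) := by
    intro g z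
    simp [au]
  have hsym : ∀ i j, x i j ≠ 0 → x j i ≠ 0 := by
    intro i j h h'
    have h1 := congrFun (congrFun hx i) j
    rw [adj_apply, h', bar_zero, Matrix.smul_apply] at h1
    rcases hε with rfl | rfl
    · rw [one_smul] at h1; exact h h1.symm
    · rw [neg_smul, one_smul] at h1; exact h (neg_eq_zero.1 h1.symm)
  let S : Set (κ ⊕ κ) := {i | ∃ j, x i j ≠ 0}
  have hS : ∀ i, i ∈ S ↔ i.swap ∈ S := by
    intro i
    constructor
    · intro hi
      by_contra hi'
      obtain ⟨j, hj⟩ := hi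
      have h1 : ∀ j, x i.swap j = 0 := by
        intro j
        by_contra h
        exact hi' ⟨j, h⟩
      have h2 := hcon i.swap h1 j
      rw [Sum.swap_swap] at h2
      exact hj h2
    · intro hi
      by_contra hi'
      obtain ⟨j, hj⟩ := hi
      have h1 : ∀ j, x i j = 0 := by
        intro j
        by_contra h
        exact hi' ⟨j, h⟩
      exact hj (hcon i h1 j)
  obtain ⟨M', hM'⟩ := hu
  set M : (Matrix (κ ⊕ κ) (κ ⊕ κ) (ZMod 2))ˣ := Units.map (mpm au) M' with hM
  let v : κ ⊕ κ → ZMod 2 := fun i => if i ∈ S then 1 else 0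
  have hodd : ∀ ε' : ℤ, (ε' = 1 ∨ ε' = -1) → (ε' : ZMod 2) = 1 := by
    rintro ε' (rfl | rfl) <;> decide
  have h1 : (M : Matrix (κ ⊕ κ) (κ ⊕ κ) (ZMod 2)) *ᵥ v = 0 := by
    funext i
    have h2 : ∀ j, (M : Matrix (κ ⊕ κ) (κ ⊕ κ) (ZMod 2)) i j
        = (if j = i.swap then 1 else 0) + au (x i j) := by
      intro j
      have e1 : (M : Matrix (κ ⊕ κ) (κ ⊕ κ) (ZMod 2)) i j
        = au ((M' : Matrix (κ ⊕ κ) (κ ⊕ κ) (MonoidAlgebra ℤ G)) i j) := rfl
      rw [e1, hM', Matrix.add_apply, map_add, Hf_apply]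
      congr 1
      by_cases h : j = i.swap
      · rw [if_pos h, if_pos h, map_intCast]
        rcases i with i | i
        · simp [sg]
        · exact hodd _ hε
      · rw [if_neg h, if_neg h, map_zero]
    simp only [Matrix.mulVec, dotProduct, Pi.zero_apply]
    rw [Finset.sum_congr rfl fun j _ => by rw [h2 j, add_mul], Finset.sum_add_distrib]
    have h3 : ∑ j, (if j = i.swap then (1 : ZMod 2) else 0) * v j = v i.swap := by
      rw [Finset.sum_eq_single i.swap (fun k _ hk => by rw [if_neg hk, zero_mul])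
        (fun h => absurd (Finset.mem_univ _) h), if_pos rfl, one_mul]
    rw [h3]
    rcases hr i with h4 | ⟨j, g, ε', hε', hj, hk⟩
    · have hi : i ∉ S := fun ⟨j, hj⟩ => hj (h4 j)
      have hi' : i.swap ∉ S := fun h => hi ((hS i).2 h)
      have : v i.swap = 0 := if_neg hi'
      rw [this, zero_add]
      exact Finset.sum_eq_zero fun j _ => by rw [h4 j, map_zero, zero_mul]
    · have hne : x i j ≠ 0 := by
        rw [hj]
        intro h
        rw [MonoidAlgebra.single_eq_zero] at h
        rcases hε' with rfl | rfl <;> norm_num at h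
      have hi : i ∈ S := ⟨j, hne⟩
      have hi' : i.swap ∈ S := (hS i).1 hi
      have hj' : j ∈ S := ⟨i, hsym i j hne⟩
      have e1 : v i.swap = 1 := if_pos hi'
      have e2 : v j = 1 := if_pos hj'
      rw [e1, Finset.sum_eq_single j (fun k _ hkj => by rw [hk k hkj, map_zero, zero_mul])
        (fun h => absurd (Finset.mem_univ _) h), hj, hau, e2, hodd _ hε']
      decide
  have h2 : (↑M⁻¹ : Matrix (κ ⊕ κ) (κ ⊕ κ) (ZMod 2)) *ᵥ
      ((M : Matrix (κ ⊕ κ) (κ ⊕ κ) (ZMod 2)) *ᵥ v) = v := by
    rw [Matrix.mulVec_mulVec, Units.inv_mul, Matrix.one_mulVec]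
  rw [h1, Matrix.mulVec_zero] at h2
  apply h0
  ext1 i j
  by_contra h
  have h3 := congrFun h2 i
  have h4 : v i = 1 := if_pos ⟨j, h⟩
  rw [h4] at h3
  simp at h3

/-- Removing the matching edges one by one. -/
theorem crit_aux (ε : ℤ) (hε : ε = 1 ∨ ε = -1) : ∀ (N : ℕ)
    (x : Matrix (κ ⊕ κ) (κ ⊕ κ) (MonoidAlgebra ℤ G)), adj x = ε • x → RowOne x →
    (∀ i, x i i = 0) → IsUnit (Hf G κ ε + x) →
    (∃ F : Finset (κ ⊕ κ), F.card ≤ N ∧ ∀ i ∉ F, ∀ j, x i j = 0) →
    ∃ E ∈ El (R := MonoidAlgebra ℤ G) (κ ⊕ κ), E * (Hf G κ ε + x) * adj E = Hf G κ ε := by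
  classical
  intro N
  induction N with
  | zero =>
    rintro x - - - - ⟨F, hF, h0⟩
    refine ⟨1, one_mem _, ?_⟩
    have : x = 0 := by
      ext1 i j
      rw [Finset.card_eq_zero.1 (Nat.le_zero.1 hF)] at h0
      exact h0 i (Finset.notMem_empty _) j
    rw [this, adj_one, one_mul, mul_one, add_zero]
  | succ N ih =>
    rintro x hx hr hd hu ⟨F, hF, hF0⟩
    by_cases h0 : x = 0
    · refine ⟨1, one_mem _, ?_⟩
      rw [h0, adj_one, one_mul, mul_one, add_zero]
    obtain ⟨w, hw, u, hu'⟩ := exists_pair ε hε x hx hr hu h0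
    have hxs : ∀ i j, bar (x j i) = ε • x i j := by
      intro i j
      have h1 := congrFun (congrFun hx i) j
      rw [adj_apply, Matrix.smul_apply] at h1
      exact h1
    have hεε : ε * ε = 1 := by rcases hε with rfl | rfl <;> norm_num
    have hz : ∀ i j, x i j = 0 → x j i = 0 := by
      intro i j h
      have h1 := hxs j i
      rw [h, bar_zero] at h1
      calc x j i = (ε * ε) • x j i := by rw [hεε, one_smul]
        _ = ε • (ε • x j i) := by rw [smul_smul]
        _ = 0 := by rw [← h1, smul_zero]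
    have huw' : u ≠ w.swap := by
      rintro rfl
      exact hu' (hd _)
    have huw : u ≠ w := by
      rintro rfl
      exact hu' (hz _ _ (hw _))
    have hww' : w ≠ w.swap := by
      rcases w with w | w <;> simp
    set a := x u w.swap with ha
    have ha0 : a ≠ 0 := fun h => hu' (hz _ _ h)
    set c := -(sg ε w • a) with hc
    set E : Matrix (κ ⊕ κ) (κ ⊕ κ) (MonoidAlgebra ℤ G) := 1 + Matrix.single u w c with hE
    have hEl : E ∈ El (R := MonoidAlgebra ℤ G) (κ ⊕ κ) := el_transv u w huw c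
    -- the new matrix
    let x' : Matrix (κ ⊕ κ) (κ ⊕ κ) (MonoidAlgebra ℤ G) := fun i j =>
      if i = u ∨ i = w.swap then 0 else x i j
    have hrow : ∀ i j k, x i j ≠ 0 → k ≠ j → x i k = 0 := by
      intro i j k h hk
      rcases hr i with h4 | ⟨j', g, ε', hε', hj, hk'⟩
      · exact absurd (h4 j) h
      · have : j = j' := by
          by_contra h5
          exact h (hk' j h5)
        subst this
        exact hk' k hk
    have hx'1 : x = x' + Matrix.single u w.swap a + Matrix.single w.swap u (ε • bar a) := by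
      ext1 i j
      rw [Matrix.add_apply, Matrix.add_apply, Matrix.single_apply, Matrix.single_apply]
      by_cases h1 : i = u
      · rw [h1]
        have e1 : x' u j = 0 := if_pos (Or.inl rfl)
        rw [e1, if_neg (show ¬ (w.swap = u ∧ u = j) from fun h => huw' h.1.symm), add_zero,
          zero_add]
        by_cases h2 : j = w.swap
        · subst h2; rw [if_pos ⟨rfl, rfl⟩]
        · rw [if_neg (fun h => h2 h.2.symm), hrow u w.swap j ha0 h2]
      · by_cases h3 : i = w.swap
        · rw [h3]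
          have e1 : x' w.swap j = 0 := if_pos (Or.inr rfl)
          rw [e1, if_neg (show ¬ (u = w.swap ∧ w.swap = j) from fun h => huw' h.1), zero_add,
            zero_add]
          by_cases h2 : j = u
          · rw [h2, if_pos ⟨rfl, rfl⟩, ha, hxs, smul_smul, hεε, one_smul]
          · rw [if_neg (fun h => h2 h.2.symm), hrow w.swap u j hu' h2]
        · have e1 : x' i j = x i j := if_neg (by rintro (h | h); exact h1 h; exact h3 h)
          rw [e1, if_neg (fun h => h1 h.1.symm), if_neg (fun h => h3 h.1.symm), add_zero, add_zero]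
    -- products
    have hsc : c * ((sg ε w : ℤ) : MonoidAlgebra ℤ G) = -a := by
      rw [hc, neg_mul, zsmul_eq_mul, (Int.cast_commute (sg ε w) a).eq, mul_assoc,
        ← Int.cast_mul, sg_sq ε hε, Int.cast_one, mul_one]
    have hP1 : Matrix.single u w c * (Hf G κ ε + x) = Matrix.single u w.swap (-a) := by
      ext1 i j
      rw [Matrix.single_apply]
      by_cases h : u = i
      · subst h
        rw [Matrix.single_mul_apply_same, Matrix.add_apply, hw, add_zero, Hf_apply]
        by_cases h2 : j = w.swap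
        · subst h2
          rw [if_pos rfl, if_pos ⟨rfl, rfl⟩, hsc]
        · rw [if_neg h2, if_neg (fun h => h2 h.2.symm), mul_zero]
      · rw [Matrix.single_mul_apply_of_ne _ _ _ _ _ (Ne.symm h), if_neg (fun h' => h h'.1)]
    have hP2 : (Hf G κ ε + x) * Matrix.single w u (bar c)
        = Matrix.single w.swap u (-(ε • bar a)) := by
      have h1 : adj (Matrix.single u w c * (Hf G κ ε + x)) = adj (Matrix.single u w.swap (-a)) := by
        rw [hP1]
      rw [adj_mul, adj_single, adj_single, adj_add, adj_Hf ε hε, hx, ← smul_add,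
        Matrix.smul_mul, bar_neg a] at h1
      have h2 : ε • (ε • ((Hf G κ ε + x) * Matrix.single w u (bar c)))
          = ε • Matrix.single w.swap u (-bar a) := by rw [h1]
      rw [smul_smul, hεε, one_smul] at h2
      rw [h2, Matrix.smul_single, smul_neg]
    have hP3 : Matrix.single u w c * (Hf G κ ε + x) * Matrix.single w u (bar c) = 0 := by
      rw [hP1]
      exact Matrix.single_mul_single_of_ne _ _ _ _ hww'.symm _
    have hprod : E * (Hf G κ ε + x) * adj E = Hf G κ ε + x' := by
      rw [hE, adj_add, adj_one, adj_single, add_mul, one_mul, mul_add, mul_one, add_mul, hP3,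
        hP1, hP2, add_zero]
      conv_lhs => rw [hx'1]
      have e1 : Matrix.single u w.swap (-a) = - Matrix.single u w.swap a := by
        ext1 i j
        rw [Matrix.neg_apply, Matrix.single_apply, Matrix.single_apply]
        split_ifs <;> simp
      have e2 : Matrix.single w.swap u (-(ε • bar a)) = - Matrix.single w.swap u (ε • bar a) := by
        ext1 i j
        rw [Matrix.neg_apply, Matrix.single_apply, Matrix.single_apply]
        split_ifs <;> simp
      rw [e1, e2]
      abel
    -- properties of x'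
    have hcol : ∀ i j, (j = u ∨ j = w.swap) → x' i j = 0 := by
      intro i j hj
      by_cases hi : i = u ∨ i = w.swap
      · exact if_pos hi
      · have e1 : x' i j = x i j := if_neg hi
        rw [e1]
        rcases hj with rfl | rfl
        · exact hz _ _ (hrow _ w.swap _ ha0 (fun h => hi (Or.inr h)))
        · exact hz _ _ (hrow _ u _ hu' (fun h => hi (Or.inl h)))
    have hx'a : adj x' = ε • x' := by
      ext1 i j
      rw [adj_apply, Matrix.smul_apply]
      by_cases hi : i = u ∨ i = w.swap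
      · rw [hcol j i hi]
        have e1 : x' i j = 0 := if_pos hi
        rw [e1, bar_zero, smul_zero]
      · by_cases hj : j = u ∨ j = w.swap
        · rw [hcol i j hj]
          have e1 : x' j i = 0 := if_pos hj
          rw [e1, bar_zero, smul_zero]
        · have e1 : x' i j = x i j := if_neg hi
          have e2 : x' j i = x j i := if_neg hj
          rw [e1, e2, hxs]
    have hr' : RowOne x' := by
      intro i
      by_cases hi : i = u ∨ i = w.swap
      · exact Or.inl fun j => if_pos hi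
      · have e1 : ∀ j, x' i j = x i j := fun j => if_neg hi
        rcases hr i with h4 | ⟨j, g, ε', hε', hj, hk⟩
        · exact Or.inl fun j => by rw [e1, h4]
        · exact Or.inr ⟨j, g, ε', hε', by rw [e1, hj], fun k hk' => by rw [e1, hk k hk']⟩
    have hd' : ∀ i, x' i i = 0 := by
      intro i
      by_cases hi : i = u ∨ i = w.swap
      · exact if_pos hi
      · have e1 : x' i i = x i i := if_neg hi
        rw [e1, hd]
    have hinv : ∃ E', E' * E = 1 ∧ E * E' = 1 := by
      refine ⟨1 - Matrix.single u w c, ?_, ?_⟩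
      · rw [hE, sub_mul, one_mul, mul_add, mul_one,
          Matrix.single_mul_single_of_ne _ _ _ _ huw.symm]
        abel
      · rw [hE, mul_sub, mul_one, add_mul, one_mul,
          Matrix.single_mul_single_of_ne _ _ _ _ huw.symm]
        abel
    have hu2 : IsUnit (Hf G κ ε + x') := by
      obtain ⟨E', hE1, hE2⟩ := hinv
      have hEu : IsUnit E := ⟨⟨E, E', hE2, hE1⟩, rfl⟩
      have hEu' : IsUnit (adj E) := by
        refine ⟨⟨adj E, adj E', ?_, ?_⟩, rfl⟩
        · rw [← adj_mul, hE1, adj_one]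
        · rw [← adj_mul, hE2, adj_one]
      rw [← hprod]
      exact (hEu.mul hu).mul hEu'
    have huF : u ∈ F := by
      by_contra h
      exact ha0 (hF0 u h _)
    obtain ⟨E', hE', hEE'⟩ := ih x' hx'a hr' hd' hu2
      ⟨F.erase u, by rw [Finset.card_erase_of_mem huF]; omega, by
        intro i hi j
        by_cases h : i = u
        · exact if_pos (Or.inl h)
        · have hiF : i ∉ F := fun h' => hi (Finset.mem_erase.2 ⟨h, h'⟩)
          by_cases hi : i = u ∨ i = w.swap
          · exact if_pos hi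
          · have e1 : x' i j = x i j := if_neg hi
            rw [e1, hF0 i hiF]⟩
    refine ⟨E' * E, mul_mem hE' hEl, ?_⟩
    rw [adj_mul]
    calc E' * E * (Hf G κ ε + x) * (adj E * adj E')
        = E' * (E * (Hf G κ ε + x) * adj E) * adj E' := by simp only [mul_assoc]
      _ = Hf G κ ε := by rw [hprod, hEE']

/-- a variant of `exists_alt` without a condition on the group -/
theorem exists_alt' {ι : Type} (ε : ℤ)
    (δ : Matrix ι ι (MonoidAlgebra ℤ G))
    (h1 : ∀ i j g, (δ i j).coeff g + ε * (δ j i).coeff g⁻¹ = 0)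
    (h2 : ∀ i g, g = g⁻¹ → (δ i i).coeff g = 0) :
    ∃ χ : Matrix ι ι (MonoidAlgebra ℤ G), δ = χ - ε • adj χ := by
  classical
  let W : (ι × ι × G) → (ι × ι × G) → Prop := WellOrderingRel
  let χ : Matrix ι ι (MonoidAlgebra ℤ G) := fun i j =>
    .ofCoeff ((δ i j).coeff.filter (fun g => W (i, j, g) (j, i, g⁻¹)))
  have hχ : ∀ i j g, (χ i j).coeff g = if W (i, j, g) (j, i, g⁻¹) then (δ i j).coeff g else 0 := by
    intro i j g
    simp only [χ, Finsupp.filter_apply]
  refine ⟨χ, ?_⟩
  ext i j g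
  rw [Matrix.sub_apply, coeff_sub', Matrix.smul_apply, coeff_zsmul', coeff_adj, hχ, hχ, inv_inv]
  have h3 := h1 i j g
  rcases trichotomous_of WellOrderingRel (i, j, g) (j, i, g⁻¹) with h | h | h
  · have h' : ¬ W (j, i, g⁻¹) (i, j, g) := fun h'' => asymm_of WellOrderingRel h h''
    rw [if_pos h, if_neg h']
    ring
  · simp only [Prod.mk.injEq] at h
    obtain ⟨rfl, _, h4⟩ := h
    have h5 := h2 i g h4
    have h6 : (δ i i).coeff g⁻¹ = 0 := by rw [← h4]; exact h5
    rw [h5, h6]
    simp
  · have h' : ¬ W (i, j, g) (j, i, g⁻¹) := fun h'' => asymm_of WellOrderingRel h h''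
    rw [if_neg h', if_pos h]
    linarith

/-- Quadratic forms at distance less than `√2` from the hyperbolic form. -/
theorem near_hyp (ε : ℤ) (hε : ε = 1 ∨ ε = -1)
    (ψ : Matrix (κ ⊕ κ) (κ ⊕ κ) (MonoidAlgebra ℤ G)) (c : ℝ) (hc : c ^ 2 < 2)
    (hu : IsUnit (ψ + ε • adj ψ))
    (hN : NormLE ((ψ - hyp (MonoidAlgebra ℤ G) κ) + ε • adj (ψ - hyp (MonoidAlgebra ℤ G) κ)) c) :
    ∃ E ∈ El (R := MonoidAlgebra ℤ G) (κ ⊕ κ),
      E * (ψ + ε • adj ψ) * adj E = Hf G κ ε := by
  classical
  have hεε : ε * ε = 1 := by rcases hε with rfl | rfl <;> norm_num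
  set y := ψ - hyp (MonoidAlgebra ℤ G) κ with hy
  set x := y + ε • adj y with hx
  have hr := rowOne_of_norm x c hc hN
  have hxa : adj x = ε • x := by
    rw [hx, adj_add, adj_zsmul, adj_adj, smul_add, smul_smul, hεε, one_smul, add_comm]
  have hH : ψ + ε • adj ψ = Hf G κ ε + x := by
    rw [Hf, hx, hy, adj_sub, smul_sub]
    abel
  have hd : ∀ i, x i i = 0 := by
    intro i
    rcases hr i with h | ⟨j, g, ε', hε', hj, hk⟩
    · exact h i
    · by_cases hij : j = i
      · subst hij
        exfalso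
        have h0 : ∀ h, (x j j).coeff h = (y j j).coeff h + ε * (y j j).coeff h⁻¹ := by
          intro h
          rw [hx, Matrix.add_apply, coeff_add', Matrix.smul_apply, coeff_zsmul', coeff_adj]
        have h1 : (x j j).coeff g = ε' := by rw [hj]; simp
        have h2 : (x j j).coeff g⁻¹ = ε * ε' := by
          have h3 : (adj x j j).coeff g⁻¹ = ((ε • x) j j).coeff g⁻¹ := by rw [hxa]
          rw [coeff_adj, inv_inv, h1, Matrix.smul_apply, coeff_zsmul'] at h3
          calc (x j j).coeff g⁻¹ = (ε * ε) * (x j j).coeff g⁻¹ := by rw [hεε, one_mul]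
            _ = ε * (ε * (x j j).coeff g⁻¹) := by ring
            _ = ε * ε' := by rw [← h3]
        have h4 : g⁻¹ = g := by
          by_contra h
          have h5 : (x j j).coeff g⁻¹ = 0 := by
            rw [hj]
            simp only [MonoidAlgebra.coeff_single]
            rw [Finsupp.single_apply, if_neg (fun h' => h h'.symm)]
          rw [h5] at h2
          rcases hε with rfl | rfl <;> rcases hε' with rfl | rfl <;> norm_num at h2
        have h6 := h0 g
        rw [h4, h1] at h6
        rw [h4, h1] at h2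
        rcases hε with rfl | rfl <;> rcases hε' with rfl | rfl <;> omega
      · exact hk i (fun h => hij h.symm)
  rw [hH] at hu ⊢
  exact crit_aux ε hε _ x hxa hr hd hu ⟨Finset.univ, le_rfl, fun i hi => absurd
    (Finset.mem_univ i) hi⟩

/-- For `ε = 1` the quadratic refinement is determined. -/
theorem ref_one (ψ E : Matrix (κ ⊕ κ) (κ ⊕ κ) (MonoidAlgebra ℤ G))
    (h : E * (ψ + (1 : ℤ) • adj ψ) * adj E = Hf G κ 1) :
    ∃ χ : Matrix (κ ⊕ κ) (κ ⊕ κ) (MonoidAlgebra ℤ G),
      E * ψ * adj E = hyp (MonoidAlgebra ℤ G) κ + (χ - adj χ) := by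
  rw [one_smul] at h
  set δ := E * ψ * adj E - hyp (MonoidAlgebra ℤ G) κ with hδ
  have h1 : δ + adj δ = 0 := by
    have h2 : adj (E * ψ * adj E) = E * adj ψ * adj E := by
      rw [adj_mul, adj_mul, adj_adj, mul_assoc]
    rw [hδ, adj_sub, h2]
    rw [mul_add, add_mul, Hf, one_smul] at h
    calc _ = E * ψ * adj E + E * adj ψ * adj E - (hyp (MonoidAlgebra ℤ G) κ
          + adj (hyp (MonoidAlgebra ℤ G) κ)) := by abel
      _ = 0 := by rw [h, sub_self]
  have h3 : ∀ i j g, (δ i j).coeff g + 1 * (δ j i).coeff g⁻¹ = 0 := by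
    intro i j g
    have h4 : ((δ + adj δ) i j).coeff g = ((0 : Matrix (κ ⊕ κ) (κ ⊕ κ) (MonoidAlgebra ℤ G))
      i j).coeff g := by rw [h1]
    rw [Matrix.add_apply, coeff_add', coeff_adj] at h4
    rw [one_mul, h4]
    simp
  obtain ⟨χ, hχ⟩ := exists_alt' 1 δ h3 (by
    intro i g hg
    have h5 := h3 i i g
    rw [← hg] at h5
    omega)
  refine ⟨χ, ?_⟩
  rw [one_smul] at hχ
  rw [← hχ, hδ]
  abel

/-- For a group without `2`-torsion the form is integral. -/
theorem ref_int (hno : ∀ g : G, g = g⁻¹ → g = 1) (ε : ℤ)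
    (ψ E : Matrix (κ ⊕ κ) (κ ⊕ κ) (MonoidAlgebra ℤ G))
    (h : E * (ψ + ε • adj ψ) * adj E = Hf G κ ε) :
    ∃ Ψ : Matrix (κ ⊕ κ) (κ ⊕ κ) ℤ, ∃ χ : Matrix (κ ⊕ κ) (κ ⊕ κ) (MonoidAlgebra ℤ G),
      Ψ + ε • Ψᵀ = hyp ℤ κ + ε • (hyp ℤ κ)ᵀ ∧
      E * ψ * adj E = Ψ.map (Int.castRingHom (MonoidAlgebra ℤ G)) + (χ - ε • adj χ) := by
  classical
  set ψ' := E * ψ * adj E with hψ'
  have h1 : ψ' + ε • adj ψ' = Hf G κ ε := by
    have h2 : adj (E * ψ * adj E) = E * adj ψ * adj E := by
      rw [adj_mul, adj_mul, adj_adj, mul_assoc]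
    rw [hψ', h2, ← h, mul_add, add_mul, Matrix.mul_smul, Matrix.smul_mul]
  have h2 : ∀ i j g, (ψ' i j).coeff g + ε * (ψ' j i).coeff g⁻¹
      = if g = 1 then (hyp ℤ κ + ε • (hyp ℤ κ)ᵀ) i j else 0 := by
    intro i j g
    have h3 : ((ψ' + ε • adj ψ') i j).coeff g = (Hf G κ ε i j).coeff g := by rw [h1]
    rw [Matrix.add_apply, coeff_add', Matrix.smul_apply, coeff_zsmul', coeff_adj, Hf_apply] at h3
    rw [h3]
    have h4 : (hyp ℤ κ + ε • (hyp ℤ κ)ᵀ) i j = if j = i.swap then sg ε i else 0 := by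
      rw [Matrix.add_apply, Matrix.smul_apply, Matrix.transpose_apply, hyp]
      rcases i with i | i <;> rcases j with j | j
      · simp
      · by_cases h : j = i
        · subst h; simp [sg]
        · have h' : i ≠ j := fun e => h e.symm
          simp [h, h']
      · by_cases h : j = i
        · subst h; simp [sg]
        · simp [h]
      · simp
    rw [h4]
    by_cases h5 : j = i.swap
    · rw [if_pos h5, if_pos h5, MonoidAlgebra.intCast_def]
      by_cases h6 : g = 1
      · subst h6; simp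
      · rw [if_neg h6]
        simp only [MonoidAlgebra.coeff_single]
        rw [Finsupp.single_apply, if_neg (fun h => h6 h.symm)]
    · rw [if_neg h5, if_neg h5]; simp
  let Ψ : Matrix (κ ⊕ κ) (κ ⊕ κ) ℤ := fun i j => (ψ' i j).coeff 1
  have h5 : ∀ i j g, ((Ψ.map (Int.castRingHom (MonoidAlgebra ℤ G))) i j).coeff g
      = if g = 1 then (ψ' i j).coeff 1 else 0 := by
    intro i j g
    rw [Matrix.map_apply, eq_intCast, MonoidAlgebra.intCast_def]
    by_cases h6 : g = 1
    · subst h6; simp [Ψ]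
    · rw [if_neg h6]
      simp only [MonoidAlgebra.coeff_single]
      rw [Finsupp.single_apply, if_neg (fun h => h6 h.symm)]
  obtain ⟨χ, hχ⟩ := exists_alt hno ε (ψ' - Ψ.map (Int.castRingHom (MonoidAlgebra ℤ G))) (by
    intro i j g
    rw [Matrix.sub_apply, Matrix.sub_apply, coeff_sub', coeff_sub', h5, h5]
    have h6 := h2 i j g
    by_cases h7 : g = 1
    · subst h7
      simp
    · have h8 : g⁻¹ ≠ 1 := fun h => h7 (inv_eq_one.1 h)
      rw [if_neg h7, if_neg h8]
      rw [if_neg h7] at h6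
      linarith) (by
    intro i
    rw [Matrix.sub_apply, coeff_sub', h5, if_pos rfl, sub_self])
  refine ⟨Ψ, χ, ?_, ?_⟩
  · ext1 i j
    have h6 := h2 i j 1
    rw [inv_one, if_pos rfl] at h6
    rw [← h6, Matrix.add_apply, Matrix.smul_apply, Matrix.transpose_apply, smul_eq_mul]
  · rw [← hχ]
    abel

end Y477.Crit
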