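import Pool.Agent.Y477.Crit
import Pool.Agent.TH6.PF.SBar

set_option autoImplicit false
set_option linter.style.haveILetI false
set_option linter.unusedSectionVars false

/-! Automorphisms of the hyperbolic form over `ℤΓ` at distance less than `√2` from the identity. -/

namespace Y477.Crit

open Matrix TH57.Thr TH6.LF

variable {G : Type} [Group G] {κ : Type} [Fintype κ] [DecidableEq κ]

/-- the augmentation modulo two -/
noncomputable def au2 (G : Type) [Group G] : MonoidAlgebra ℤ G →+* ZMod 2 :=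
  (Int.castRingHom (ZMod 2)).comp (MonoidAlgebra.lift ℤ ℤ G 1).toRingHom

theorem au2_single (g : G) (z : ℤ) : au2 G (MonoidAlgebra.single g z) = (z : ZMod 2) := by
  simp [au2]

theorem au2_sbar (w : G →* ℤˣ) (x : MonoidAlgebra ℤ G) :
    au2 G (TH6.PF.sbar w x) = au2 G x := by
  induction x using MonoidAlgebra.induction_on with
  | of g =>
    have : MonoidAlgebra.of ℤ G g = MonoidAlgebra.single g 1 := rfl
    rw [this, TH6.PF.sbar_single, au2_single, au2_single, star_one]
    rcases Int.units_eq_one_or (w g) with h | h <;> rw [h] <;> decide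
  | add a b ha hb => rw [TH6.PF.sbar_add, map_add, map_add, ha, hb]
  | smul r a ha => rw [TH6.PF.sbar_zsmul, map_zsmul, map_zsmul, ha]

theorem xor_zmod (p q r : Prop) [Decidable p] [Decidable q] [Decidable r]
    (h : (if p then (1 : ZMod 2) else 0) + (if q then 1 else 0) + (if r then 1 else 0) = 0) :
    ((p ∧ ¬ q) ∨ (¬ p ∧ q)) ↔ r := by
  by_cases hp : p <;> by_cases hq : q <;> by_cases hr : r <;> simp only [hp, hq, hr, if_true,
    if_false] at h ⊢ <;> first | exact absurd h (by decide) | simp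

/-- The combinatorial part. -/
theorem comb {V : Type} [Fintype V] (sw : V → V) (hsw : ∀ i, sw (sw i) = i) (L : V → Prop)
    (hL : ∀ i, L (sw i) ↔ ¬ L i) (R : V → V → Prop) (hRf : ∀ i m m', R i m → R i m' → m = m')
    (hE : ∀ i j, ((R i j ∧ ¬ R j i) ∨ (¬ R i j ∧ R j i)) ↔ ∃ l, R i l ∧ R j (sw l)) :
    ∃ T : Finset V, (∀ i, i ∈ T ↔ sw i ∉ T) ∧ ∀ i j, R i j → i ∉ T ∧ sw j ∈ T := by
  classical
  have hran : ∀ i j, R j i → ∃ m, R i m := by
    intro i j h
    by_contra hcon
    push Not at hcon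
    obtain ⟨l, hl, -⟩ := (hE i j).1 (Or.inr ⟨hcon j, h⟩)
    exact hcon l hl
  have hsym : ∀ i j, R i j → R j i := by
    intro i j h
    by_contra h1
    obtain ⟨l, hl, hl'⟩ := (hE i j).1 (Or.inl ⟨h, h1⟩)
    have e1 : l = j := hRf i l j hl h
    subst e1
    by_cases h3 : R (sw l) l
    · rcases (hE l (sw l)).2 ⟨sw l, hl', by rw [hsw]; exact h3⟩ with h4 | h4
      · exact h4.2 h3
      · exact h4.1 hl'
    · obtain ⟨m, hm, hm'⟩ := (hE l (sw l)).1 (Or.inl ⟨hl', h3⟩)
      have e2 : m = sw l := hRf l m (sw l) hm hl'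
      subst e2
      rw [hsw] at hm'
      exact h3 hm'
  have hno : ∀ i j l, R i l → R j (sw l) → False := by
    intro i j l h h'
    rcases (hE i j).2 ⟨l, h, h'⟩ with h4 | h4
    · exact h4.2 (hsym _ _ h4.1)
    · exact h4.1 (hsym _ _ h4.2)
  let S : V → Prop := fun i => ∃ j, R i j
  have hSS : ∀ i, S i → ¬ S (sw i) := by
    rintro i ⟨j, hj⟩ ⟨m, hm⟩
    exact hno j m i (hsym _ _ hj) (hsym _ _ hm)
  refine ⟨Finset.univ.filter fun i => S (sw i) ∨ (¬ S i ∧ L i), ?_, ?_⟩
  · intro i
    simp only [Finset.mem_filter, Finset.mem_univ, true_and, hsw]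
    have h1 := hSS i
    have h3 := hL i
    by_cases a1 : S i <;> by_cases a2 : S (sw i) <;> by_cases a3 : L i <;>
      simp only [a1, a2, a3, h3, not_true_eq_false, not_false_eq_true, true_and, false_and,
        and_true, and_false, or_true, true_or, or_false, false_or, or_self, and_self]
    · exact absurd a2 (h1 a1)
    · exact absurd a2 (h1 a1)
  · intro i j h
    have hSi : S i := ⟨_, h⟩
    have hSj : S j := ⟨_, hsym _ _ h⟩
    simp only [Finset.mem_filter, Finset.mem_univ, true_and, hsw]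
    refine ⟨?_, Or.inl hSj⟩
    rintro (h' | h')
    · exact hSS i hSi h'
    · exact h'.1 hSi

/-- The symmetrised hyperbolic form for the twisted involution. -/
theorem Hf_eq (w : G →* ℤˣ) (ε : ℤ) : hyp (MonoidAlgebra ℤ G) κ
    + ε • TH6.PF.sadj w (hyp (MonoidAlgebra ℤ G) κ) = Hf G κ ε := by
  ext1 i j
  rw [Hf, Matrix.add_apply, Matrix.add_apply, Matrix.smul_apply, Matrix.smul_apply,
    TH6.PF.sadj_apply, adj_apply]
  rcases i with i | i <;> rcases j with j | j <;>
    simp only [hyp, Matrix.fromBlocks_apply₁₁, Matrix.fromBlocks_apply₁₂,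
      Matrix.fromBlocks_apply₂₁, Matrix.fromBlocks_apply₂₂, Matrix.zero_apply, bar_zero,
      TH6.PF.sbar_zero]
  by_cases h : j = i
  · subst h
    rw [Matrix.one_apply_eq, bar_one, TH6.PF.sbar_one]
  · rw [Matrix.one_apply_ne h, bar_zero, TH6.PF.sbar_zero]

/-- Automorphisms of the hyperbolic form close to the identity are elementary. -/
theorem near_aut (w : G →* ℤˣ) (ε : ℤ) (hε : ε = 1 ∨ ε = -1)
    (α : Matrix (κ ⊕ κ) (κ ⊕ κ) (MonoidAlgebra ℤ G)) (c : ℝ) (hc : c ^ 2 < 2)
    (hα : α * Hf G κ ε * TH6.PF.sadj w α = Hf G κ ε) (hN : NormLE (α - 1) c) :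
    ∃ T : Finset (κ ⊕ κ), (∀ i, i ∈ T ↔ i.swap ∉ T) ∧
      ∀ i j, (α - 1) i j ≠ 0 → i ∉ T ∧ j ∈ T := by
  classical
  have hr := rowOne_of_norm (α - 1) c hc hN
  set N := α - 1 with hNd
  have hodd : ∀ ε' : ℤ, (ε' = 1 ∨ ε' = -1) → (ε' : ZMod 2) = 1 := by
    rintro ε' (rfl | rfl) <;> decide
  have hrow : ∀ i j k, N i j ≠ 0 → N i k ≠ 0 → j = k := by
    intro i j k h h'
    rcases hr i with h4 | ⟨j', g, ε', hε', hj, hk'⟩
    · exact absurd (h4 j) h
    · have e1 : j = j' := by
        by_contra h5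
        exact h (hk' j h5)
      have e2 : k = j' := by
        by_contra h5
        exact h' (hk' k h5)
      rw [e1, e2]
  have hau : ∀ i j, au2 G (N i j) = if N i j = 0 then 0 else 1 := by
    intro i j
    by_cases h : N i j = 0
    · rw [if_pos h, h, map_zero]
    · rw [if_neg h]
      rcases hr i with h4 | ⟨j', g, ε', hε', hj, hk'⟩
      · exact absurd (h4 j) h
      · have e1 : j = j' := by
          by_contra h5
          exact h (hk' j h5)
        rw [e1, hj, au2_single, hodd _ hε']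
  -- the relation
  have hrel : N * Hf G κ ε + Hf G κ ε * TH6.PF.sadj w N + N * Hf G κ ε * TH6.PF.sadj w N = 0 := by
    have h1 : α = 1 + N := by rw [hNd]; abel
    rw [h1, TH6.PF.sadj_add, TH6.PF.sadj_one] at hα
    have h2 : (1 + N) * Hf G κ ε * (1 + TH6.PF.sadj w N) = Hf G κ ε + (N * Hf G κ ε
        + Hf G κ ε * TH6.PF.sadj w N + N * Hf G κ ε * TH6.PF.sadj w N) := by
      simp only [add_mul, mul_add, one_mul, mul_one]
      abel
    rw [h2] at hα
    exact add_eq_left.1 hα
  have hHs : ∀ i j : κ ⊕ κ, au2 G (Hf G κ ε i j) = if j = i.swap then 1 else 0 := by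
    intro i j
    rw [Hf_apply]
    by_cases h : j = i.swap
    · rw [if_pos h, if_pos h, map_intCast]
      rcases i with i | i
      · simp [sg]
      · exact hodd _ hε
    · rw [if_neg h, if_neg h, map_zero]
  have hswap : ∀ i j : κ ⊕ κ, j = i.swap ↔ i = j.swap := by
    intro i j
    constructor
    · rintro rfl; rw [Sum.swap_swap]
    · rintro rfl; rw [Sum.swap_swap]
  have hNH : ∀ i j, au2 G ((N * Hf G κ ε) i j) = au2 G (N i j.swap) := by
    intro i j
    rw [Matrix.mul_apply, map_sum, Finset.sum_eq_single j.swap]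
    · rw [map_mul, hHs, if_pos (by rw [Sum.swap_swap]), mul_one]
    · intro b _ hb
      rw [map_mul, hHs, if_neg (fun h => hb ((hswap _ _).1 h)), mul_zero]
    · intro h; exact absurd (Finset.mem_univ _) h
  have hent : ∀ i j, au2 G (N i j.swap) + au2 G (N j i.swap)
      + ∑ l, au2 G (N i l.swap) * au2 G (N j l) = 0 := by
    intro i j
    have h1 := congrArg (fun m => au2 G (m i j)) hrel
    simp only [Matrix.add_apply, Matrix.zero_apply, map_add, map_zero] at h1
    rw [hNH] at h1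
    have h2 : au2 G ((Hf G κ ε * TH6.PF.sadj w N) i j) = au2 G (N j i.swap) := by
      rw [Matrix.mul_apply, map_sum, Finset.sum_eq_single i.swap]
      · rw [map_mul, hHs, if_pos rfl, one_mul, TH6.PF.sadj_apply, au2_sbar]
      · intro b _ hb
        rw [map_mul, hHs, if_neg hb, zero_mul]
      · intro h; exact absurd (Finset.mem_univ _) h
    have h3 : au2 G ((N * Hf G κ ε * TH6.PF.sadj w N) i j)
        = ∑ l, au2 G (N i l.swap) * au2 G (N j l) := by
      rw [Matrix.mul_apply, map_sum]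
      refine Finset.sum_congr rfl fun l _ => ?_
      rw [map_mul, hNH, TH6.PF.sadj_apply, au2_sbar]
    rw [h2, h3] at h1
    exact h1
  let R : κ ⊕ κ → κ ⊕ κ → Prop := fun i m => N i m.swap ≠ 0
  have hRf : ∀ i m m', R i m → R i m' → m = m' := by
    intro i m m' h h'
    have := hrow i _ _ h h'
    rw [← Sum.swap_swap m, this, Sum.swap_swap]
  have hE : ∀ i j, ((R i j ∧ ¬ R j i) ∨ (¬ R i j ∧ R j i)) ↔ ∃ l, R i l ∧ R j l.swap := by
    intro i j
    have h1 := hent i j
    have h2 : ∑ l, au2 G (N i l.swap) * au2 G (N j l)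
        = if ∃ l, R i l ∧ R j l.swap then 1 else 0 := by
      by_cases h : ∃ l, R i l ∧ R j l.swap
      · obtain ⟨l, hl1, hl2⟩ := h
        rw [if_pos ⟨l, hl1, hl2⟩, Finset.sum_eq_single l]
        · have e1 : N j l ≠ 0 := by
            have := hl2
            simp only [R, Sum.swap_swap] at this
            exact this
          rw [hau, hau, if_neg hl1, if_neg e1, one_mul]
        · intro b _ hb
          have : N i b.swap = 0 := by
            by_contra h'
            exact hb (hRf i b l h' hl1)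
          rw [this, map_zero, zero_mul]
        · intro h; exact absurd (Finset.mem_univ _) h
      · rw [if_neg h]
        refine Finset.sum_eq_zero fun l _ => ?_
        by_cases h3 : N i l.swap = 0
        · rw [h3, map_zero, zero_mul]
        · by_cases h4 : N j l = 0
          · rw [h4, map_zero, mul_zero]
          · exact absurd ⟨l, h3, by simp only [R, Sum.swap_swap]; exact h4⟩ h
    rw [h2, hau, hau, ← ite_not, ← ite_not (N j i.swap = 0)] at h1
    exact xor_zmod _ _ _ h1
  obtain ⟨T, hT1, hT2⟩ := comb (Sum.swap : κ ⊕ κ → κ ⊕ κ) Sum.swap_swap (fun i => i.isLeft = true)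
    (by rintro (i | i) <;> simp) R hRf hE
  refine ⟨T, hT1, fun i j h => ?_⟩
  have hR : R i j.swap := by
    simp only [R, Sum.swap_swap]; exact h
  have h1 := hT2 i j.swap hR
  rw [Sum.swap_swap] at h1
  exact h1

theorem NormLE_mul {ι ι' ι'' : Type} [Fintype ι] [Fintype ι'] [Fintype ι'']
    (A : Matrix ι ι' (MonoidAlgebra ℤ G)) (B : Matrix ι' ι'' (MonoidAlgebra ℤ G)) (c : ℝ)
    (hA : NormLE A c) (hB : NormLE B 1) : NormLE (A * B) c := by
  intro x
  rw [toReal_mul, ← Matrix.vecMul_vecMul]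
  have h1 := hB (x ᵥ* toReal A)
  have h2 := hA x
  rw [one_pow, one_mul] at h1
  exact h1.trans h2

/-- Automorphisms close to an isometric automorphism. -/
theorem near_iso (w : G →* ℤˣ) (ε : ℤ) (hε : ε = 1 ∨ ε = -1)
    (α β β' : Matrix (κ ⊕ κ) (κ ⊕ κ) (MonoidAlgebra ℤ G)) (c : ℝ) (hc : c ^ 2 < 2)
    (hα : α * Hf G κ ε * TH6.PF.sadj w α = Hf G κ ε)
    (hβ : β * Hf G κ ε * TH6.PF.sadj w β = Hf G κ ε) (h1 : β * β' = 1) (h2 : β' * β = 1)
    (h3 : NormLE β' 1) (hN : NormLE (α - β) c) :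
    ∃ T : Finset (κ ⊕ κ), (∀ i, i ∈ T ↔ i.swap ∉ T) ∧
      ∀ i j, (α * β' - 1) i j ≠ 0 → i ∉ T ∧ j ∈ T := by
  refine near_aut w ε hε (α * β') c hc ?_ ?_
  · rw [TH6.PF.sadj_mul]
    have h4 : β' * Hf G κ ε * TH6.PF.sadj w β' = Hf G κ ε := by
      have h5 : TH6.PF.sadj w β * TH6.PF.sadj w β' = 1 := by
        rw [← TH6.PF.sadj_mul, h2, TH6.PF.sadj_one]
      calc β' * Hf G κ ε * TH6.PF.sadj w β'
          = β' * (β * Hf G κ ε * TH6.PF.sadj w β) * TH6.PF.sadj w β' := by rw [hβ]
        _ = (β' * β) * Hf G κ ε * (TH6.PF.sadj w β * TH6.PF.sadj w β') := by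
          simp only [mul_assoc]
        _ = Hf G κ ε := by rw [h2, h5, one_mul, mul_one]
    calc α * β' * Hf G κ ε * (TH6.PF.sadj w β' * TH6.PF.sadj w α)
        = α * (β' * Hf G κ ε * TH6.PF.sadj w β') * TH6.PF.sadj w α := by
          simp only [mul_assoc]
      _ = Hf G κ ε := by rw [h4, hα]
  · have h4 : α * β' - 1 = (α - β) * β' := by rw [sub_mul, h1]
    rw [h4]
    exact NormLE_mul _ _ c hN h3

end Y477.Crit
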