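import Pool.Agent.Y477.Main

set_option autoImplicit false
set_option linter.unusedSectionVars false
set_option linter.style.haveILetI false

/-! The theorem on forms dominated by a positive definite form generated by short vectors. -/

namespace Pool.Agent.Y477

open Matrix TH6.LF

variable {G : Type} [Group G] {ι : Type} [Fintype ι] [DecidableEq ι]

theorem ipz_zsmul_left (n : ℤ) (x y : ι → MonoidAlgebra ℤ G) : ipz (n • x) y = n * ipz x y := by
  let f : (ι → MonoidAlgebra ℤ G) →+ ℤ := AddMonoidHom.mk' (fun x => ipz x y)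
    (fun x z => ipz_add_left _ _ _)
  have h : ipz (n • x) y = n • ipz x y := map_zsmul f n x
  rw [h, smul_eq_mul]

theorem fm_inv (A : Matrix ι ι (MonoidAlgebra ℤ G)) (g : G) (x y : ι → MonoidAlgebra ℤ G) :
    fm A (tr g x) (tr g y) = fm A x y := by
  rw [fm_apply, fm_apply, tr_vecMul, ipz_tr_tr]

theorem fm_sym (A : Matrix ι ι (MonoidAlgebra ℤ G)) (hA : adj A = A)
    (x y : ι → MonoidAlgebra ℤ G) : fm A x y = fm A y x := by
  rw [fm_apply, fm_apply, ipz_vecMul, hA, ipz_comm]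

/-- the coefficients of the matrix in a new basis -/
theorem coeff_conj (U A : Matrix ι ι (MonoidAlgebra ℤ G)) (i j : ι) (g : G) :
    ((U * A * adj U) i j).coeff g = fm A (U i) (tr g (U j)) := by
  rw [fm_apply, ipz_tr_right, ← Matrix.mul_apply_eq_vecMul]
  rfl

theorem unit_int (Λ : Matrix ι ι ℤ)
    (h : IsUnit (Λ.map (Int.cast : ℤ → MonoidAlgebra ℤ G))) : IsUnit Λ := by
  have h1 : (Λ.map (Int.cast : ℤ → MonoidAlgebra ℤ G)).map (augm G) = Λ := by
    ext i j
    simp
  have h2 := h.map (augm G).mapMatrix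
  rw [← h1]
  exact h2

theorem dominated (htf : ∀ g : G, ∀ n : ℕ, 0 < n → g ^ n = 1 → g = 1)
    (A : Matrix ι ι (MonoidAlgebra ℤ G)) (hA : adj A = A) (hAu : IsUnit A)
    (hpos : ∀ x, x ≠ 0 → 0 < fm A x x)
    (hgen : Submodule.span (MonoidAlgebra ℤ G) {x | fm A x x ≤ 2} = ⊤)
    (ε : ℤ) (hε : ε = 1 ∨ ε = -1) (ψ : Matrix ι ι (MonoidAlgebra ℤ G))
    (hψ : IsUnit (ψ + ε • adj ψ))
    (hbd : ∀ x y, x ≠ 0 → y ≠ 0 → fm (ψ + ε • adj ψ) x y ^ 2 < 2 * (fm A x x * fm A y y)) :
    ∃ (U : (Matrix ι ι (MonoidAlgebra ℤ G))ˣ) (Λ Ψ : Matrix ι ι ℤ)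
      (χ : Matrix ι ι (MonoidAlgebra ℤ G)),
      U.val * A * adj U.val = Λ.map Int.cast ∧
      U.val * ψ * adj U.val = Ψ.map Int.cast + (χ - ε • adj χ) ∧
      IsUnit Λ ∧ IsUnit (Ψ + ε • Ψᵀ) := by
  classical
  have hεε : ε * ε = 1 := by rcases hε with rfl | rfl <;> norm_num
  have hε0 : ε ≠ 0 := by rcases hε with rfl | rfl <;> norm_num
  obtain ⟨uA, huA⟩ := hAu
  set Ai : Matrix ι ι (MonoidAlgebra ℤ G) := (uA⁻¹ : (Matrix ι ι (MonoidAlgebra ℤ G))ˣ).val with hAi
  have h1 : A * Ai = 1 := by rw [← huA, hAi, Units.mul_inv]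
  have h2 : Ai * A = 1 := by rw [← huA, hAi, Units.inv_mul]
  have hAia : adj Ai = Ai := by
    have h3 : adj Ai * A = 1 := by
      calc adj Ai * A = adj Ai * adj A := by rw [hA]
        _ = adj (A * Ai) := (adj_mul _ _).symm
        _ = 1 := by rw [h1, adj_one]
    calc adj Ai = adj Ai * (A * Ai) := by rw [h1, Matrix.mul_one]
      _ = Ai := by rw [← Matrix.mul_assoc, h3, Matrix.one_mul]
  set L := ψ + ε • adj ψ with hL
  have hadjL : adj L = ε • L := by
    rw [hL, adj_add, adj_zsmul, adj_adj, smul_add, smul_smul, hεε, one_smul, add_comm]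
  have hsym := fm_sym A hA
  have hinv := fm_inv A
  -- the operator
  let T : (ι → MonoidAlgebra ℤ G) →+ (ι → MonoidAlgebra ℤ G) :=
    AddMonoidHom.mk' (fun x => x ᵥ* (L * Ai)) (fun x y => Matrix.add_vecMul _ _ _)
  have hT : ∀ x, T x = x ᵥ* (L * Ai) := fun x => rfl
  have hTB : ∀ x y, fm A (T x) y = fm L x y := by
    intro x y
    rw [fm_apply, fm_apply, hT, Matrix.vecMul_vecMul, Matrix.mul_assoc, h2, Matrix.mul_one]
  have hTadj : ∀ x y, fm A (T x) y = ε * fm A x (T y) := by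
    intro x y
    have h3 : fm A x (T y) = ε * fm L x y := by
      rw [fm_apply, hT, ipz_comm, ipz_vecMul, ipz_comm, adj_mul, hAia, hadjL,
        Matrix.vecMul_vecMul, Matrix.mul_smul, Matrix.mul_smul, ← Matrix.mul_assoc, h1,
        Matrix.one_mul, fm_apply]
      have h4 : x ᵥ* (ε • L) = ε • (x ᵥ* L) := Matrix.vecMul_smul _ _ _
      rw [h4, ipz_zsmul_left]
    rw [hTB, h3, ← mul_assoc, hεε, one_mul]
  have hLu : IsUnit (L * Ai) := hψ.mul (by rw [hAi]; exact (uA⁻¹).isUnit)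
  have hTinj : ∀ x, x ≠ 0 → T x ≠ 0 := by
    intro x hx h0
    apply hx
    obtain ⟨v, hv⟩ := hLu
    rw [hT, ← hv] at h0
    have h3 := congrArg (fun z => z ᵥ* (v⁻¹ : (Matrix ι ι (MonoidAlgebra ℤ G))ˣ).val) h0
    simp only [Matrix.vecMul_vecMul, Units.mul_inv, Matrix.vecMul_one, Matrix.zero_vecMul] at h3
    exact h3
  have hTbd : ∀ x, x ≠ 0 → fm A (T x) (T x) < 2 * fm A x x := by
    intro x hx
    have h3 := hbd x (T x) hx (hTinj x hx)
    rw [← hTB] at h3
    have h4 := hpos _ (hTinj x hx)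
    nlinarith
  have hcom : ∀ g x, T (trHom ι G g x) = trHom ι G g (T x) := by
    intro g x
    rw [trHom_apply, trHom_apply, hT, hT, tr_vecMul]
  have hspan := span_sh (fm A) hsym hpos hinv hgen
  let D : Dat G (ι → MonoidAlgebra ℤ G) :=
    { B := fm A
      sym := hsym
      pos := hpos
      ρ := trHom ι G
      inv := hinv
      free := fun g x hx h => tr_free htf g x hx h
      tf := htf
      T := T
      ε := ε
      adj := hTadj
      inj := hTinj
      bd := hTbd
      com := hcom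
      lf := fun r => (fm_loc_finite A Ai hA h1 hpos 2 r).subset
        fun x hx => ⟨hx.1.1, hx.1.2, hx.2⟩
      gen := hspan }
  obtain ⟨M, hfg, hTM, horth, hsp⟩ := D.fundamental hε0
    (Set.range fun i : ι => bs ι G (i, 1)) (Set.finite_range _) (by
      rw [eq_top_iff, ← (bs ι G).span_eq, Submodule.span_le]
      rintro _ ⟨⟨i, g⟩, rfl⟩
      apply Submodule.subset_span
      refine ⟨g, bs ι G (i, 1), ⟨i, rfl⟩, ?_⟩
      change bs ι G (i, g) = tr g (bs ι G (i, 1))
      rw [bs_tr, mul_one])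
  obtain ⟨w, V, hwM, hUV, hVU⟩ := basis_of_fundamental (fm A) hpos hinv M hfg
    (fun x hx y hy g hg => horth x hx y hy g hg) hsp
  let U : (Matrix ι ι (MonoidAlgebra ℤ G))ˣ := ⟨of w, V, hUV, hVU⟩
  have hU : ∀ i, U.val i = w i := fun i => rfl
  have hcA : ∀ i j g, g ≠ 1 → ((U.val * A * adj U.val) i j).coeff g = 0 := by
    intro i j g hg
    rw [coeff_conj, hU, hU]
    exact horth _ (hwM i) _ (hwM j) g hg
  have hcL : ∀ i j g, g ≠ 1 → ((U.val * L * adj U.val) i j).coeff g = 0 := by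
    intro i j g hg
    rw [coeff_conj, hU, hU, ← hTB]
    exact horth _ (hTM _ (hwM i)) _ (hwM j) g hg
  -- matrices with coefficients only at the identity
  have hint : ∀ X : Matrix ι ι (MonoidAlgebra ℤ G), (∀ i j g, g ≠ 1 → (X i j).coeff g = 0) →
      X = (Matrix.of fun i j => (X i j).coeff 1).map (Int.cast : ℤ → MonoidAlgebra ℤ G) := by
    intro X hX
    ext i j g
    rw [Matrix.map_apply, Matrix.of_apply]
    have h3 : ((((X i j).coeff 1 : ℤ) : MonoidAlgebra ℤ G)).coeff g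
        = if g = 1 then (X i j).coeff 1 else 0 := by
      have h4 : (((X i j).coeff 1 : ℤ) : MonoidAlgebra ℤ G)
          = MonoidAlgebra.single 1 ((X i j).coeff 1) := by
        rw [MonoidAlgebra.intCast_def, Int.cast_id]
      rw [h4, MonoidAlgebra.coeff_single, Finsupp.single_apply]
      simp only [eq_comm]
    rw [h3]
    split_ifs with h
    · rw [h]
    · exact hX i j g h
  have hadjU : adj (adj U.val) = U.val := adj_adj _
  have hadjUu : IsUnit (adj U.val) := by
    refine ⟨⟨adj U.val, adj V, ?_, ?_⟩, rfl⟩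
    · rw [← adj_mul]
      change adj (V * of w) = 1
      rw [hVU, adj_one]
    · rw [← adj_mul]
      change adj (of w * V) = 1
      rw [hUV, adj_one]
  have hAU : IsUnit (U.val * A * adj U.val) :=
    (U.isUnit.mul ⟨uA, huA⟩).mul hadjUu
  have hLU : IsUnit (U.val * L * adj U.val) := (U.isUnit.mul hψ).mul hadjUu
  -- the quadratic refinement
  set φ := U.val * ψ * adj U.val with hφ
  have hφL : φ + ε • adj φ = U.val * L * adj U.val := by
    rw [hφ, adj_mul, adj_mul, hadjU, hL, Matrix.mul_add, Matrix.add_mul, Matrix.mul_smul,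
      Matrix.smul_mul, ← Matrix.mul_assoc]
  let Ψ : Matrix ι ι ℤ := Matrix.of fun i j => (φ i j).coeff 1
  have hΨc : ∀ i j g, ((Ψ.map (Int.cast : ℤ → MonoidAlgebra ℤ G)) i j).coeff g
      = if g = 1 then (φ i j).coeff 1 else 0 := by
    intro i j g
    rw [Matrix.map_apply]
    change ((((φ i j).coeff 1 : ℤ) : MonoidAlgebra ℤ G)).coeff g = _
    rw [MonoidAlgebra.intCast_def, Int.cast_id, MonoidAlgebra.coeff_single, Finsupp.single_apply]
    simp only [eq_comm]
  have hcφ : ∀ i j g, g ≠ 1 → (φ i j).coeff g + ε * (φ j i).coeff g⁻¹ = 0 := by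
    intro i j g hg
    have h3 := hcL i j g hg
    rw [← hφL, Matrix.add_apply, coeff_add', Matrix.smul_apply, coeff_zsmul', coeff_adj] at h3
    exact h3
  obtain ⟨χ, hχ⟩ := exists_alt (fun g hg => htf g 2 two_pos (by
      rw [_root_.sq]; nth_rewrite 2 [hg]; exact mul_inv_cancel g)) ε
    (φ - Ψ.map (Int.cast : ℤ → MonoidAlgebra ℤ G))
    (fun i j g => by
      rw [Matrix.sub_apply, Matrix.sub_apply, coeff_sub', coeff_sub', hΨc, hΨc]
      by_cases hg : g = 1
      · subst hg; simp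
      · rw [if_neg hg, if_neg (inv_ne_one.2 hg), sub_zero, sub_zero]
        exact hcφ i j g hg)
    (fun i => by
      rw [Matrix.sub_apply, coeff_sub', hΨc, if_pos rfl, sub_self])
  have hΛ := hint _ hcA
  have hΛL := hint _ hcL
  refine ⟨U, Matrix.of fun i j => ((U.val * A * adj U.val) i j).coeff 1, Ψ, χ, hΛ, ?_, ?_, ?_⟩
  · rw [← hχ]; abel
  · apply unit_int (G := G)
    rw [← hΛ]; exact hAU
  · have h3 : Ψ + ε • Ψᵀ = Matrix.of fun i j => ((U.val * L * adj U.val) i j).coeff 1 := by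
      ext i j
      rw [Matrix.of_apply, ← hφL, Matrix.add_apply, Matrix.add_apply, coeff_add',
        Matrix.smul_apply, Matrix.smul_apply, coeff_zsmul', coeff_adj, inv_one]
      rfl
    rw [h3]
    apply unit_int (G := G)
    rw [← hΛL]; exact hLU

end Pool.Agent.Y477
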