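import Pool.Agent.Y477.Lat

set_option autoImplicit false
set_option linter.unusedSectionVars false

/-! Local finiteness: in a nonsingular positive definite lattice with a basis of finite interaction
only finitely many irreducible vectors of bounded norm are not orthogonal to a given vector. -/

namespace Pool.Agent.Y477

section coer

variable {P : Type*} [AddCommGroup P] (B : P →+ P →+ ℤ)
  (hsym : ∀ x y, B x y = B y x) (hpos : ∀ x, x ≠ 0 → 0 < B x x)
  {K : Type*} (b : Module.Basis K ℤ P)

theorem B_sum_left {ι : Type*} (s : Finset ι) (f : ι → P) (z : P) :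
    B (∑ k ∈ s, f k) z = ∑ k ∈ s, B (f k) z := by
  rw [map_sum B, AddMonoidHom.finsetSum_apply]

theorem B_expand (x y : P) : B x y = ∑ k ∈ (b.repr x).support, ∑ l ∈ (b.repr y).support,
    b.repr x k * b.repr y l * B (b k) (b l) := by
  have hx : x = ∑ k ∈ (b.repr x).support, b.repr x k • b k := by
    conv_lhs => rw [← b.linearCombination_repr x]
    rfl
  have hy : y = ∑ l ∈ (b.repr y).support, b.repr y l • b l := by
    conv_lhs => rw [← b.linearCombination_repr y]
    rfl
  calc B x y = B (∑ k ∈ (b.repr x).support, b.repr x k • b k)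
        (∑ l ∈ (b.repr y).support, b.repr y l • b l) := by rw [← hx, ← hy]
    _ = _ := by
      rw [B_sum_left]
      refine Finset.sum_congr rfl fun k _ => ?_
      rw [map_sum]
      refine Finset.sum_congr rfl fun l _ => ?_
      rw [B_zsmul_left, B_zsmul_right]
      ring

theorem B_ne {x y : P} (h : B x y ≠ 0) : ∃ k ∈ (b.repr x).support, ∃ l ∈ (b.repr y).support,
    B (b k) (b l) ≠ 0 := by
  by_contra hcon
  push Not at hcon
  apply h
  rw [B_expand B b]
  refine Finset.sum_eq_zero fun k hk => Finset.sum_eq_zero fun l hl => ?_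
  rw [hcon k hk l hl, mul_zero]

/-- the sum of the squares of the coordinates -/
noncomputable def sq (x : P) : ℤ := ∑ k ∈ (b.repr x).support, b.repr x k ^ 2

include hsym hpos in
theorem coercive (d : K → P) (hd : ∀ x k, B x (d k) = b.repr x k) (C : ℤ)
    (hC : ∀ k (T : Finset K), ∑ l ∈ T, |B (d k) (d l)| ≤ C) (x : P) : sq b x ≤ C * B x x := by
  classical
  set S := (b.repr x).support with hS
  set y := ∑ k ∈ S, b.repr x k • d k with hy
  have h1 : B x y = sq b x := by
    rw [hy, map_sum]
    unfold sq
    refine Finset.sum_congr rfl fun k _ => ?_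
    rw [map_zsmul, hd, smul_eq_mul, _root_.sq]
  have h2 : B y y = ∑ k ∈ S, ∑ l ∈ S, b.repr x k * b.repr x l * B (d k) (d l) := by
    rw [hy, B_sum_left]
    refine Finset.sum_congr rfl fun k _ => ?_
    rw [map_sum]
    refine Finset.sum_congr rfl fun l _ => ?_
    rw [B_zsmul_left, B_zsmul_right]
    ring
  have h3 : 2 * B y y ≤ 2 * (C * sq b x) := by
    have h4 : ∀ k l, 2 * (b.repr x k * b.repr x l * B (d k) (d l))
        ≤ b.repr x k ^ 2 * |B (d k) (d l)| + b.repr x l ^ 2 * |B (d k) (d l)| := by
      intro k l
      have h5 : 0 ≤ |B (d k) (d l)| := abs_nonneg _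
      have h6 : b.repr x k * b.repr x l * B (d k) (d l)
          ≤ |b.repr x k * b.repr x l| * |B (d k) (d l)| := by
        rw [← abs_mul]; exact le_abs_self _
      have h7 : 2 * |b.repr x k * b.repr x l| ≤ b.repr x k ^ 2 + b.repr x l ^ 2 := by
        rw [abs_mul]
        nlinarith [sq_nonneg (|b.repr x k| - |b.repr x l|), sq_abs (b.repr x k),
          sq_abs (b.repr x l)]
      nlinarith
    have h8 : 2 * B y y ≤ ∑ k ∈ S, ∑ l ∈ S,
        (b.repr x k ^ 2 * |B (d k) (d l)| + b.repr x l ^ 2 * |B (d k) (d l)|) := by
      rw [h2, Finset.mul_sum]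
      refine Finset.sum_le_sum fun k _ => ?_
      rw [Finset.mul_sum]
      exact Finset.sum_le_sum fun l _ => h4 k l
    have h9 : ∑ k ∈ S, ∑ l ∈ S,
        (b.repr x k ^ 2 * |B (d k) (d l)| + b.repr x l ^ 2 * |B (d k) (d l)|)
        = 2 * ∑ k ∈ S, b.repr x k ^ 2 * ∑ l ∈ S, |B (d k) (d l)| := by
      simp only [Finset.sum_add_distrib]
      have h10 : ∑ k ∈ S, ∑ l ∈ S, b.repr x l ^ 2 * |B (d k) (d l)|
          = ∑ k ∈ S, ∑ l ∈ S, b.repr x k ^ 2 * |B (d k) (d l)| := by
        rw [Finset.sum_comm]
        refine Finset.sum_congr rfl fun k _ => Finset.sum_congr rfl fun l _ => ?_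
        rw [hsym]
      rw [h10, ← two_mul]
      congr 1
      exact Finset.sum_congr rfl fun k _ => by rw [Finset.mul_sum]
    rw [h9] at h8
    refine h8.trans ?_
    have h11 : ∑ k ∈ S, b.repr x k ^ 2 * ∑ l ∈ S, |B (d k) (d l)| ≤ C * sq b x := by
      unfold sq
      rw [Finset.mul_sum]
      refine Finset.sum_le_sum fun k _ => ?_
      rw [mul_comm]
      exact mul_le_mul_of_nonneg_right (hC k S) (sq_nonneg _)
    linarith
  have hcs := cs B hsym hpos x y
  rw [h1] at hcs
  have hs : 0 ≤ sq b x := Finset.sum_nonneg fun k _ => sq_nonneg _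
  rcases hs.eq_or_lt with h0 | h0
  · rw [← h0]
    by_cases hx : x = 0
    · subst hx; simp
    · have hne : (b.repr x).support.Nonempty := by
        rw [Finsupp.support_nonempty_iff]
        intro h; exact hx (b.repr.map_eq_zero_iff.1 h)
      obtain ⟨k, hk⟩ := hne
      exfalso
      have h5 : 0 < b.repr x k ^ 2 := by
        have := Finsupp.mem_support_iff.1 hk
        positivity
      have h6 : b.repr x k ^ 2 ≤ sq b x :=
        Finset.single_le_sum (f := fun k => b.repr x k ^ 2) (fun k _ => sq_nonneg _) hk
      omega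
  · have hxx := B_nonneg B hpos x
    have h5 : sq b x ^ 2 ≤ B x x * (C * sq b x) := by
      refine hcs.trans ?_
      exact mul_le_mul_of_nonneg_left (by linarith) hxx
    have h6 : sq b x * sq b x ≤ (C * B x x) * sq b x := by nlinarith
    exact le_of_mul_le_mul_right h6 h0

/-- restriction of the coordinates to a set -/
noncomputable def res (F : Finset K) [DecidableEq K] (x : P) : P :=
  b.repr.symm ((b.repr x).filter (· ∈ F))

/-- restriction of the coordinates to the complement -/
noncomputable def cores (F : Finset K) [DecidableEq K] (x : P) : P :=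
  b.repr.symm ((b.repr x).filter (fun k => ¬ k ∈ F))

theorem res_add_cores (F : Finset K) [DecidableEq K] (x : P) : x = res b F x + cores b F x := by
  unfold res cores
  rw [← map_add, Finsupp.filter_add_filter_not, b.repr.symm_apply_apply]

include hpos in
theorem connected {x : P} (hx : Irr B x) (F : Finset K)
    (h1 : ∃ k ∈ (b.repr x).support, k ∈ F) (h2 : ¬ (b.repr x).support ⊆ F) :
    ∃ k ∈ (b.repr x).support, k ∈ F ∧ ∃ l ∈ (b.repr x).support, l ∉ F ∧ B (b k) (b l) ≠ 0 := by
  classical
  by_contra hcon
  push Not at hcon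
  have h0 : B (res b F x) (cores b F x) = 0 := by
    by_contra hne
    obtain ⟨k, hk, l, hl, hkl⟩ := B_ne B b hne
    unfold res at hk
    unfold cores at hl
    rw [b.repr.apply_symm_apply, Finsupp.support_filter, Finset.mem_filter] at hk hl
    exact hkl (hcon k hk.1 hk.2 l hl.1 hl.2)
  rcases hx.2 _ _ (res_add_cores b F x) h0 with h | h
  · obtain ⟨k, hk, hkF⟩ := h1
    have h3 := congrArg (fun z => b.repr z k) h
    simp only [res, b.repr.apply_symm_apply, map_zero, Finsupp.coe_zero, Pi.zero_apply] at h3
    rw [Finsupp.filter_apply_pos _ _ hkF] at h3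
    exact Finsupp.mem_support_iff.1 hk h3
  · rw [Finset.not_subset] at h2
    obtain ⟨k, hk, hkF⟩ := h2
    have h3 := congrArg (fun z => b.repr z k) h
    simp only [cores, b.repr.apply_symm_apply, map_zero, Finsupp.coe_zero, Pi.zero_apply] at h3
    rw [Finsupp.filter_apply_pos (fun k => k ∉ F) _ hkF] at h3
    exact Finsupp.mem_support_iff.1 hk h3

include hsym hpos in
theorem loc_finite (hfin : ∀ k, {l | B (b k) (b l) ≠ 0}.Finite) (d : K → P)
    (hd : ∀ x k, B x (d k) = b.repr x k) (C : ℤ)
    (hC : ∀ k (T : Finset K), ∑ l ∈ T, |B (d k) (d l)| ≤ C) (N : ℤ) (r : P) :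
    {x | Irr B x ∧ B x x ≤ N ∧ B r x ≠ 0}.Finite := by
  classical
  let nb : Finset K → Finset K := fun F => F ∪ F.biUnion fun k => (hfin k).toFinset
  let F0 : Finset K := (b.repr r).support.biUnion fun k => (hfin k).toFinset
  let Fs : ℕ → Finset K := fun m => nb^[m] F0
  have hFs0 : Fs 0 = F0 := rfl
  have hFs : ∀ m, Fs (m + 1) = nb (Fs m) := fun m => Function.iterate_succ_apply' nb m F0
  by_cases hempty : {x | Irr B x ∧ B x x ≤ N ∧ B r x ≠ 0} = ∅
  · rw [hempty]; exact Set.finite_empty
  obtain ⟨x0, hx0, hx0N, -⟩ := Set.nonempty_iff_ne_empty.2 hempty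
  have hC0 : 0 ≤ C := by
    by_cases hK : Nonempty K
    · obtain ⟨k⟩ := hK
      have := hC k ∅
      simpa using this
    · exfalso
      rw [not_nonempty_iff] at hK
      apply hx0.1
      apply b.repr.map_eq_zero_iff.1
      exact Subsingleton.elim _ _
  have hN0 : 0 ≤ N := (B_nonneg B hpos x0).trans hx0N
  set M : ℕ := (C * N).toNat with hM
  have hMC : (M : ℤ) = C * N := Int.toNat_of_nonneg (mul_nonneg hC0 hN0)
  -- the support is small
  have hcard : ∀ x, B x x ≤ N → ((b.repr x).support.card : ℤ) ≤ M ∧
      ∀ k, b.repr x k ^ 2 ≤ M := by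
    intro x hx
    have h1 := coercive B hsym hpos b d hd C hC x
    have h2 : sq b x ≤ M := by
      rw [hMC]
      exact h1.trans (mul_le_mul_of_nonneg_left hx hC0)
    constructor
    · refine le_trans ?_ h2
      unfold sq
      rw [Finset.card_eq_sum_ones, Nat.cast_sum]
      refine Finset.sum_le_sum fun k hk => ?_
      have h3 := Finsupp.mem_support_iff.1 hk
      have h4 : 0 < b.repr x k ^ 2 := by positivity
      push_cast
      omega
    · intro k
      by_cases hk : k ∈ (b.repr x).support
      · exact (Finset.single_le_sum (f := fun k => b.repr x k ^ 2)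
          (fun k _ => sq_nonneg _) hk).trans h2
      · rw [Finsupp.notMem_support_iff.1 hk]
        simp
  -- the support lies in a fixed finite set
  have hsup : ∀ x, Irr B x → B x x ≤ N → B r x ≠ 0 → (b.repr x).support ⊆ Fs M := by
    intro x hx hxN hrx
    have key : ∀ m, (b.repr x).support ⊆ Fs m ∨
        m + 1 ≤ ((b.repr x).support ∩ Fs m).card := by
      intro m
      induction m with
      | zero =>
        right
        obtain ⟨k, hk, l, hl, hkl⟩ := B_ne B b hrx
        have : l ∈ (b.repr x).support ∩ Fs 0 := by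
          rw [Finset.mem_inter, hFs0]
          refine ⟨hl, ?_⟩
          rw [Finset.mem_biUnion]
          exact ⟨k, hk, (hfin k).mem_toFinset.2 hkl⟩
        exact Finset.card_pos.2 ⟨l, this⟩
      | succ m ih =>
        rcases ih with ih | ih
        · left
          rw [hFs]
          exact ih.trans Finset.subset_union_left
        · by_cases hsub : (b.repr x).support ⊆ Fs m
          · left
            rw [hFs]
            exact hsub.trans Finset.subset_union_left
          · right
            have hne : ∃ k ∈ (b.repr x).support, k ∈ Fs m := by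
              have : 0 < ((b.repr x).support ∩ Fs m).card := by omega
              obtain ⟨k, hk⟩ := Finset.card_pos.1 this
              rw [Finset.mem_inter] at hk
              exact ⟨k, hk.1, hk.2⟩
            obtain ⟨k, hk, hkF, l, hl, hlF, hkl⟩ := connected B hpos b hx (Fs m) hne hsub
            have h1 : insert l ((b.repr x).support ∩ Fs m) ⊆ (b.repr x).support ∩ Fs (m + 1) := by
              intro z hz
              rw [Finset.mem_insert] at hz
              rcases hz with rfl | hz
              · rw [Finset.mem_inter, hFs]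
                refine ⟨hl, Finset.mem_union_right _ ?_⟩
                rw [Finset.mem_biUnion]
                exact ⟨k, hkF, (hfin k).mem_toFinset.2 hkl⟩
              · rw [Finset.mem_inter] at hz ⊢
                refine ⟨hz.1, ?_⟩
                rw [hFs]
                exact Finset.mem_union_left _ hz.2
            have h2 := Finset.card_le_card h1
            rw [Finset.card_insert_of_notMem (by
              rw [Finset.mem_inter]; exact fun h => hlF h.2)] at h2
            omega
    rcases key M with h | h
    · exact h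
    · exfalso
      have h1 := (hcard x hxN).1
      have h2 := Finset.card_le_card (Finset.inter_subset_left (s₁ := (b.repr x).support)
        (s₂ := Fs M))
      have h3 : (b.repr x).support.card ≤ M := by exact_mod_cast h1
      omega
  have hfinal : {x | Irr B x ∧ B x x ≤ N ∧ B r x ≠ 0} ⊆
      b.repr ⁻¹' ((Fs M).finsupp fun _ => Finset.Icc (-(M : ℤ)) M : Finset (K →₀ ℤ)) := by
    rintro x ⟨hx, hxN, hrx⟩
    rw [Set.mem_preimage, Finset.mem_coe, Finset.mem_finsupp_iff]
    refine ⟨hsup x hx hxN hrx, fun k _ => ?_⟩
    have h1 := (hcard x hxN).2 k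
    rw [Finset.mem_Icc]
    constructor
    · nlinarith
    · nlinarith
  exact ((Finset.finite_toSet _).preimage b.repr.injective.injOn).subset hfinal

end coer

end Pool.Agent.Y477
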