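import Pool.Agent.Y477.Orb
import Pool.Agent.Y477.LF
import Pool.Agent.TH6.LF.Blk

set_option autoImplicit false
set_option linter.unusedSectionVars false
set_option linter.style.haveILetI false

/-! Free modules over the integral group ring as lattices. -/

namespace Pool.Agent.Y477

open Matrix TH6.LF

variable {G : Type} [Group G] {ι κ : Type} [Fintype ι] [DecidableEq ι]

/-- the integral inner product of row vectors over `ℤG` -/
noncomputable def ipz (x y : ι → MonoidAlgebra ℤ G) : ℤ := (∑ i, x i * bar (y i)).coeff 1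

theorem ipz_add_left (x y z : ι → MonoidAlgebra ℤ G) : ipz (x + y) z = ipz x z + ipz y z := by
  unfold ipz
  rw [← Finsupp.add_apply, ← MonoidAlgebra.coeff_add, ← Finset.sum_add_distrib]
  congr 2
  exact Finset.sum_congr rfl fun i _ => by rw [Pi.add_apply, add_mul]

theorem ipz_comm (x y : ι → MonoidAlgebra ℤ G) : ipz x y = ipz y x := by
  unfold ipz
  have h : (∑ i, y i * bar (x i)) = bar (∑ i, x i * bar (y i)) := by
    rw [bar_sum]
    exact Finset.sum_congr rfl fun i _ => by rw [bar_mul, bar_bar]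
  rw [h, coeff_bar, inv_one]

theorem ipz_add_right (x y z : ι → MonoidAlgebra ℤ G) : ipz x (y + z) = ipz x y + ipz x z := by
  rw [ipz_comm, ipz_add_left, ipz_comm y, ipz_comm z]

theorem ipz_vecMul [Fintype κ] (x : ι → MonoidAlgebra ℤ G) (M : Matrix ι κ (MonoidAlgebra ℤ G))
    (y : κ → MonoidAlgebra ℤ G) : ipz (x ᵥ* M) y = ipz x (y ᵥ* adj M) := by
  unfold ipz
  congr 1
  congr 1
  simp only [Matrix.vecMul, dotProduct, bar_sum, Finset.sum_mul, Finset.mul_sum, bar_mul]
  rw [Finset.sum_comm]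
  refine Finset.sum_congr rfl fun i _ => Finset.sum_congr rfl fun j _ => ?_
  rw [adj_apply, bar_bar, mul_assoc]

/-- translation of a row vector -/
noncomputable def tr (g : G) (x : ι → MonoidAlgebra ℤ G) : ι → MonoidAlgebra ℤ G :=
  fun i => MonoidAlgebra.single g 1 * x i

theorem coeff_tr (g h : G) (x : ι → MonoidAlgebra ℤ G) (i : ι) :
    (tr g x i).coeff h = (x i).coeff (g⁻¹ * h) := by
  unfold tr
  rw [MonoidAlgebra.coeff_single_mul_apply, one_mul]

theorem ipz_tr_right (x y : ι → MonoidAlgebra ℤ G) (g : G) :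
    ipz x (tr g y) = (∑ i, x i * bar (y i)).coeff g := by
  unfold ipz tr
  have h : ∑ i, x i * bar (MonoidAlgebra.single g 1 * y i)
      = (∑ i, x i * bar (y i)) * MonoidAlgebra.single g⁻¹ 1 := by
    rw [Finset.sum_mul]
    refine Finset.sum_congr rfl fun i _ => ?_
    rw [bar_mul, bar_single, mul_assoc]
  rw [h, MonoidAlgebra.coeff_mul_single_apply, mul_one, inv_inv, one_mul]

theorem ipz_tr_left (x y : ι → MonoidAlgebra ℤ G) (g : G) :
    ipz (tr g x) y = (∑ i, x i * bar (y i)).coeff g⁻¹ := by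
  rw [ipz_comm, ipz_tr_right]
  have h : (∑ i, y i * bar (x i)) = bar (∑ i, x i * bar (y i)) := by
    rw [bar_sum]
    exact Finset.sum_congr rfl fun i _ => by rw [bar_mul, bar_bar]
  rw [h, coeff_bar]

theorem tr_add (g : G) (x y : ι → MonoidAlgebra ℤ G) : tr g (x + y) = tr g x + tr g y := by
  funext i
  exact mul_add _ _ _

theorem tr_mul (g h : G) (x : ι → MonoidAlgebra ℤ G) : tr (g * h) x = tr g (tr h x) := by
  funext i
  unfold tr
  rw [← mul_assoc, MonoidAlgebra.single_mul_single, one_mul]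

theorem tr_one (x : ι → MonoidAlgebra ℤ G) : tr 1 x = x := by
  funext i
  unfold tr
  rw [← MonoidAlgebra.one_def, one_mul]

theorem ipz_tr_tr (x y : ι → MonoidAlgebra ℤ G) (g : G) : ipz (tr g x) (tr g y) = ipz x y := by
  unfold ipz tr
  have h : ∑ i, MonoidAlgebra.single g 1 * x i * bar (MonoidAlgebra.single g 1 * y i)
      = MonoidAlgebra.single g 1 * (∑ i, x i * bar (y i)) * MonoidAlgebra.single g⁻¹ 1 := by
    rw [Finset.mul_sum, Finset.sum_mul]
    refine Finset.sum_congr rfl fun i _ => ?_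
    rw [bar_mul, bar_single]
    simp only [mul_assoc]
  rw [h, MonoidAlgebra.coeff_mul_single_apply, MonoidAlgebra.coeff_single_mul_apply]
  simp

theorem tr_vecMul (g : G) (x : ι → MonoidAlgebra ℤ G) (M : Matrix ι κ (MonoidAlgebra ℤ G)) :
    tr g x ᵥ* M = tr g (x ᵥ* M) := by
  funext j
  simp only [tr, Matrix.vecMul, dotProduct, Finset.mul_sum, mul_assoc]

/-- translations as a homomorphism to the endomorphisms -/
noncomputable def trHom (ι : Type) [Fintype ι] [DecidableEq ι] (G : Type) [Group G] :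
    G →* AddMonoid.End (ι → MonoidAlgebra ℤ G) where
  toFun g := AddMonoidHom.mk' (tr g) (tr_add g)
  map_one' := by ext1 x; exact tr_one x
  map_mul' g h := by ext1 x; exact tr_mul g h x

theorem trHom_apply (g : G) (x : ι → MonoidAlgebra ℤ G) : trHom ι G g x = tr g x := rfl

/-- the integral form given by a matrix -/
noncomputable def fm (A : Matrix ι ι (MonoidAlgebra ℤ G)) :
    (ι → MonoidAlgebra ℤ G) →+ (ι → MonoidAlgebra ℤ G) →+ ℤ :=
  AddMonoidHom.mk' (fun x => AddMonoidHom.mk' (fun y => ipz (x ᵥ* A) y)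
    (fun y z => ipz_add_right _ _ _)) (by
      intro x y
      refine AddMonoidHom.ext fun z => ?_
      change ipz ((x + y) ᵥ* A) z = ipz (x ᵥ* A) z + ipz (y ᵥ* A) z
      rw [Matrix.add_vecMul, ipz_add_left])

theorem fm_apply (A : Matrix ι ι (MonoidAlgebra ℤ G)) (x y : ι → MonoidAlgebra ℤ G) :
    fm A x y = ipz (x ᵥ* A) y := rfl

/-- the integral basis -/
noncomputable def bs (ι : Type) [Fintype ι] [DecidableEq ι] (G : Type) [Group G] :
    Module.Basis (ι × G) ℤ (ι → MonoidAlgebra ℤ G) :=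
  Module.Basis.ofRepr (((LinearEquiv.piCongrRight fun _ => MonoidAlgebra.coeffLinearEquiv ℤ).trans
    (Finsupp.linearEquivFunOnFinite ℤ (G →₀ ℤ) ι).symm).trans (Finsupp.curryLinearEquiv ℤ).symm)

theorem bs_repr (x : ι → MonoidAlgebra ℤ G) (k : ι × G) :
    (bs ι G).repr x k = (x k.1).coeff k.2 := rfl

theorem bs_apply (k : ι × G) : bs ι G k = Pi.single k.1 (MonoidAlgebra.single k.2 1) := by
  classical
  apply (bs ι G).repr.injective
  ext l
  rw [(bs ι G).repr_self, bs_repr, Finsupp.single_apply]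
  by_cases h1 : k.1 = l.1
  · rw [← h1, Pi.single_eq_same, MonoidAlgebra.coeff_single, Finsupp.single_apply]
    by_cases h2 : k.2 = l.2
    · rw [if_pos h2, if_pos (Prod.ext h1 h2)]
    · rw [if_neg h2, if_neg (fun h => h2 (congrArg Prod.snd h))]
  · rw [Pi.single_eq_of_ne (Ne.symm h1), if_neg (fun h => h1 (congrArg Prod.fst h))]
    rfl

theorem ipz_bs (x : ι → MonoidAlgebra ℤ G) (k : ι × G) :
    ipz x (bs ι G k) = (bs ι G).repr x k := by
  classical
  rw [bs_repr, bs_apply]
  unfold ipz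
  rw [Finset.sum_eq_single k.1]
  · rw [Pi.single_eq_same, bar_single, MonoidAlgebra.coeff_mul_single_apply, mul_one, inv_inv,
      one_mul]
  · intro j _ hj
    rw [Pi.single_eq_of_ne hj, bar_zero, mul_zero]
  · intro h; exact absurd (Finset.mem_univ _) h

theorem bs_tr (i : ι) (g h : G) : tr g (bs ι G (i, h)) = bs ι G (i, g * h) := by
  classical
  rw [bs_apply, bs_apply]
  funext j
  unfold tr
  by_cases hj : j = i
  · subst hj
    simp only [Pi.single_eq_same, MonoidAlgebra.single_mul_single, one_mul]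
  · simp only [Pi.single_eq_of_ne hj, mul_zero]

theorem tr_free (htf : ∀ g : G, ∀ n : ℕ, 0 < n → g ^ n = 1 → g = 1) (g : G)
    (x : ι → MonoidAlgebra ℤ G) (hx : x ≠ 0) (h : tr g x = x) : g = 1 := by
  classical
  obtain ⟨i, hi⟩ := Function.ne_iff.1 hx
  have h1 : ∃ a, (x i).coeff a ≠ 0 := by
    by_contra hcon
    push Not at hcon
    apply hi
    ext a
    rw [hcon a]; rfl
  obtain ⟨a, ha⟩ := h1
  have h2 : ∀ k : ℕ, (x i).coeff (g⁻¹ ^ k * a) = (x i).coeff a := by
    intro k
    induction k with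
    | zero => rw [pow_zero, one_mul]
    | succ k ih =>
      rw [← ih, pow_succ', mul_assoc, ← coeff_tr g, h]
  have hni : ¬ Function.Injective (fun k : ℕ => g⁻¹ ^ k * a) := by
    intro hinj
    refine Set.infinite_of_injective_forall_mem hinj (s := ((x i).coeff.support : Set G)) ?_
      (Finset.finite_toSet _)
    intro k
    rw [Finset.mem_coe, Finsupp.mem_support_iff]
    change (x i).coeff (g⁻¹ ^ k * a) ≠ 0
    rw [h2]; exact ha
  rw [Function.Injective] at hni
  push Not at hni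
  obtain ⟨k, l, hkl, hne⟩ := hni
  wlog hlt : k < l generalizing k l
  · exact this l k hkl.symm hne.symm (lt_of_le_of_ne (not_lt.1 hlt) hne.symm)
  have h3 : g⁻¹ ^ k = g⁻¹ ^ l := mul_right_cancel hkl
  have h4 : g⁻¹ ^ (l - k) = 1 := by
    have h5 : g⁻¹ ^ l = g⁻¹ ^ k * g⁻¹ ^ (l - k) := by rw [← pow_add]; congr 1; omega
    rw [h5] at h3
    exact left_eq_mul.1 h3
  have h5 := htf g⁻¹ (l - k) (by omega) h4
  exact inv_eq_one.1 h5

/-- Local finiteness for nonsingular forms. -/
theorem fm_loc_finite (A Ai : Matrix ι ι (MonoidAlgebra ℤ G)) (hA : adj A = A) (h1 : A * Ai = 1)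
    (hpos : ∀ x, x ≠ 0 → 0 < fm A x x) (N : ℤ) (r : ι → MonoidAlgebra ℤ G) :
    {x | Irr (fm A) x ∧ fm A x x ≤ N ∧ fm A r x ≠ 0}.Finite := by
  classical
  have hsym : ∀ x y, fm A x y = fm A y x := by
    intro x y
    rw [fm_apply, fm_apply, ipz_vecMul, hA, ipz_comm]
  have hAi : adj Ai = Ai := by
    have h3 : adj Ai * A = 1 := by
      calc adj Ai * A = adj Ai * adj A := by rw [hA]
        _ = adj (A * Ai) := (adj_mul _ _).symm
        _ = 1 := by rw [h1, adj_one]
    calc adj Ai = adj Ai * (A * Ai) := by rw [h1, Matrix.mul_one]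
      _ = Ai := by rw [← Matrix.mul_assoc, h3, Matrix.one_mul]
  let d : ι × G → (ι → MonoidAlgebra ℤ G) := fun k => bs ι G k ᵥ* Ai
  have hd : ∀ x k, fm A x (d k) = (bs ι G).repr x k := by
    intro x k
    rw [fm_apply, ← ipz_bs]
    simp only [d]
    rw [ipz_comm, ipz_vecMul, hAi, Matrix.vecMul_vecMul, h1, Matrix.vecMul_one, ipz_comm]
  have hdk : ∀ k, d k = tr k.2 (d (k.1, 1)) := by
    rintro ⟨i, g⟩
    simp only [d]
    rw [← tr_vecMul, bs_tr, mul_one]
  -- the `ℓ¹` norm
  let nm : (ι → MonoidAlgebra ℤ G) → ℤ := fun x => ∑ k ∈ ((bs ι G).repr x).support,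
    |(bs ι G).repr x k|
  have hnm : ∀ x (T : Finset (ι × G)), ∑ k ∈ T, |(bs ι G).repr x k| ≤ nm x := by
    intro x T
    calc ∑ k ∈ T, |(bs ι G).repr x k| ≤ ∑ k ∈ T ∪ ((bs ι G).repr x).support,
          |(bs ι G).repr x k| :=
        Finset.sum_le_sum_of_subset_of_nonneg Finset.subset_union_left fun _ _ _ => abs_nonneg _
      _ = nm x := by
        symm
        apply Finset.sum_subset Finset.subset_union_right
        intro k _ hk
        rw [Finsupp.notMem_support_iff.1 hk, abs_zero]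
  have hnmt : ∀ g x (T : Finset (ι × G)), ∑ k ∈ T, |(bs ι G).repr (tr g x) k| ≤ nm x := by
    intro g x T
    have h3 : ∑ k ∈ T, |(bs ι G).repr (tr g x) k|
        = ∑ k ∈ T.image (fun k => (k.1, g⁻¹ * k.2)), |(bs ι G).repr x k| := by
      rw [Finset.sum_image]
      · refine Finset.sum_congr rfl fun k _ => ?_
        rw [bs_repr, bs_repr, coeff_tr]
      · rintro ⟨i, a⟩ _ ⟨j, b⟩ _ hab
        simp only [Prod.mk.injEq, mul_right_inj] at hab
        exact Prod.ext hab.1 hab.2
    rw [h3]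
    exact hnm x _
  have hnn : ∀ x, 0 ≤ nm x := fun x => Finset.sum_nonneg fun _ _ => abs_nonneg _
  refine loc_finite (fm A) hsym hpos (bs ι G) ?_ d hd (∑ i, nm (d (i, 1))) ?_ N r
  · intro k
    have h3 : {l | fm A (bs ι G k) (bs ι G l) ≠ 0} =
        (((bs ι G).repr (bs ι G k ᵥ* A)).support : Set (ι × G)) := by
      ext l
      rw [Set.mem_ofPred_eq, fm_apply, ipz_bs, Finset.mem_coe, Finsupp.mem_support_iff]
    rw [h3]
    exact Finset.finite_toSet _
  · intro k T
    have h3 : ∀ l, fm A (d k) (d l) = (bs ι G).repr (d k) l := fun l => hd _ _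
    simp only [h3]
    rw [hdk k]
    refine (hnmt _ _ T).trans ?_
    exact Finset.single_le_sum (f := fun i => nm (d (i, 1))) (fun i _ => hnn _)
      (Finset.mem_univ k.1)

end Pool.Agent.Y477
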