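import Mathlib

set_option autoImplicit false
set_option linter.unusedSectionVars false

/-! Positive definite integral lattices (of possibly infinite rank) generated by vectors of norm at
most two: the irreducible short vectors fall into mutually orthogonal classes, and two vectors of
one class have a common neighbour. -/

namespace Pool.Agent.Y477

section lat

variable {P : Type*} [AddCommGroup P] (B : P →+ P →+ ℤ)

/-- Irreducible vectors: those which are not the sum of two nonzero orthogonal vectors. -/
def Irr (x : P) : Prop := x ≠ 0 ∧ ∀ y z, x = y + z → B y z = 0 → y = 0 ∨ z = 0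

/-- Irreducible vectors of norm at most two. -/
def Sh (x : P) : Prop := Irr B x ∧ B x x ≤ 2

variable (hsym : ∀ x y, B x y = B y x) (hpos : ∀ x, x ≠ 0 → 0 < B x x)

theorem B_add_left (x y z : P) : B (x + y) z = B x z + B y z := by
  rw [map_add, AddMonoidHom.add_apply]

theorem B_sub_left (x y z : P) : B (x - y) z = B x z - B y z := by
  rw [map_sub, AddMonoidHom.sub_apply]

theorem B_neg_left (x z : P) : B (-x) z = -B x z := by
  rw [map_neg, AddMonoidHom.neg_apply]

theorem B_zsmul_left (n : ℤ) (x z : P) : B (n • x) z = n * B x z := by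
  rw [map_zsmul, AddMonoidHom.zsmul_apply, smul_eq_mul]

theorem B_zsmul_right (n : ℤ) (x z : P) : B x (n • z) = n * B x z := by
  rw [map_zsmul, smul_eq_mul]

include hpos in
theorem B_nonneg (x : P) : 0 ≤ B x x := by
  by_cases h : x = 0
  · subst h; simp
  · exact (hpos x h).le

include hpos in
theorem eq_zero_of_self (x : P) (h : B x x = 0) : x = 0 := by
  by_contra hx
  exact absurd h (hpos x hx).ne'

include hpos in
theorem one_le_self {x : P} (hx : x ≠ 0) : 1 ≤ B x x := hpos x hx

include hsym hpos in
theorem cs (x y : P) : B x y ^ 2 ≤ B x x * B y y := by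
  by_cases hy : y = 0
  · subst hy; simp
  · have hyy := hpos y hy
    have h := B_nonneg B hpos ((B y y) • x - (B x y) • y)
    simp only [map_sub, AddMonoidHom.sub_apply, map_zsmul, AddMonoidHom.zsmul_apply, smul_eq_mul,
      hsym y x] at h
    have h2 : B y y * (B y y * B x x) - B y y * (B x y * B x y)
        - (B x y * (B y y * B x y) - B x y * (B x y * B y y))
        = B y y * (B x x * B y y - B x y ^ 2) := by ring
    have h3 : 0 ≤ B y y * (B x x * B y y - B x y ^ 2) := by linarith
    have h4 := nonneg_of_mul_nonneg_right h3 hyy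
    linarith

include hsym hpos in
/-- vectors of norm one are irreducible -/
theorem irr_of_one {x : P} (h : B x x = 1) : Irr B x := by
  refine ⟨?_, ?_⟩
  · rintro rfl; simp at h
  · intro y z hyz h0
    by_contra hcon
    push Not at hcon
    have h1 := one_le_self B hpos hcon.1
    have h2 := one_le_self B hpos hcon.2
    rw [hyz, B_add_left, map_add, map_add, hsym z y, h0] at h
    linarith

include hsym hpos in
/-- A vector of norm one is orthogonal to the irreducible vectors of norm at most two, except to
itself and its negative. -/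
theorem one_orth {e x : P} (he : B e e = 1) (hx : Sh B x) (hne : B e x ≠ 0) : x = e ∨ x = -e := by
  obtain ⟨⟨hx0, hirr⟩, hx2⟩ := hx
  have hcs := cs B hsym hpos e x
  rw [he, one_mul] at hcs
  have habs : B e x = 1 ∨ B e x = -1 := by
    have h1 : B e x ≤ 1 := by nlinarith
    have h2 : -1 ≤ B e x := by nlinarith
    omega
  rcases habs with h | h
  · left
    rcases hirr (x - e) e (by abel) (by rw [B_sub_left, he, hsym x e, h]; ring) with h1 | h1
    · exact sub_eq_zero.1 h1
    · subst h1; simp at he
  · right
    rcases hirr (x + e) (-e) (by abel) (by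
      rw [map_neg, B_add_left, he, hsym x e, h]; ring) with h1 | h1
    · exact eq_neg_of_add_eq_zero_left h1
    · rw [neg_eq_zero] at h1; subst h1; simp at he

include hpos in
theorem sh_norm {x : P} (hx : Sh B x) : B x x = 1 ∨ B x x = 2 := by
  have h1 := hpos x hx.1.1
  have h2 := hx.2
  omega

include hsym hpos in
theorem sh_of_one {x : P} (h : B x x = 1) : Sh B x := ⟨irr_of_one B hsym hpos h, by omega⟩

theorem irr_neg {x : P} (h : Irr B x) : Irr B (-x) := by
  refine ⟨neg_ne_zero.2 h.1, ?_⟩
  intro y z hyz h0
  have := h.2 (-y) (-z) (by rw [← neg_add, ← hyz, neg_neg]) (by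
    rw [B_neg_left, map_neg, h0]; simp)
  simpa using this

theorem sh_neg {x : P} (h : Sh B x) : Sh B (-x) := by
  refine ⟨irr_neg B h.1, ?_⟩
  rw [B_neg_left, map_neg, neg_neg]
  exact h.2

include hsym hpos in
/-- The sum of two irreducible vectors of norm two with inner product `-1` is again one. -/
theorem sh_add {r s : P} (hr : Sh B r) (hs : Sh B s) (hr2 : B r r = 2) (hs2 : B s s = 2)
    (h : B r s = -1) : Sh B (r + s) ∧ B (r + s) (r + s) = 2 := by
  have hn : B (r + s) (r + s) = 2 := by
    rw [B_add_left, map_add, map_add, hsym s r, hr2, hs2, h]; ring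
  refine ⟨⟨⟨?_, ?_⟩, hn.le⟩, hn⟩
  · intro h0; rw [h0] at hn; simp at hn
  · intro a b hab h0
    by_contra hcon
    push Not at hcon
    have ha := one_le_self B hpos hcon.1
    have hb := one_le_self B hpos hcon.2
    have hab2 : B (a + b) (a + b) = 2 := by rw [← hab]; exact hn
    rw [B_add_left, map_add, map_add, hsym b a, h0] at hab2
    have ha1 : B a a = 1 := by linarith
    have har : B a r = 0 := by
      by_contra hne
      rcases one_orth B hsym hpos ha1 hr hne with h1 | h1
      · rw [h1, ha1] at hr2; omega
      · rw [h1, B_neg_left, map_neg, ha1] at hr2; omega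
    have has : B a s = 0 := by
      by_contra hne
      rcases one_orth B hsym hpos ha1 hs hne with h1 | h1
      · rw [h1, ha1] at hs2; omega
      · rw [h1, B_neg_left, map_neg, ha1] at hs2; omega
    have h3 : B a (r + s) = 0 := by rw [map_add, har, has]; ring
    rw [hab, map_add, ha1, h0] at h3
    omega

include hsym hpos in
theorem inner_two {b c : P} (hb : B b b = 2) (hc : B c c = 2) (hne : B b c ≠ 0)
    (h1 : c ≠ b) (h2 : c ≠ -b) : B b c = 1 ∨ B b c = -1 := by
  have hcs := cs B hsym hpos b c
  rw [hb, hc] at hcs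
  have h3 : B b c ≤ 2 := by nlinarith
  have h4 : -2 ≤ B b c := by nlinarith
  have h5 : B b c ≠ 2 := by
    intro h
    apply h1
    have : B (c - b) (c - b) = 0 := by
      rw [B_sub_left, map_sub, map_sub, hsym c b, hb, hc, h]; ring
    exact sub_eq_zero.1 (eq_zero_of_self B hpos _ this)
  have h6 : B b c ≠ -2 := by
    intro h
    apply h2
    have : B (c + b) (c + b) = 0 := by
      rw [B_add_left, map_add, map_add, hsym c b, hb, hc, h]; ring
    exact eq_neg_of_add_eq_zero_left (eq_zero_of_self B hpos _ this)
  omega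

include hsym hpos in
/-- A path of length three between irreducible short vectors can be shortened. -/
theorem shorten {a b c d : P} (hb : Sh B b) (hc : Sh B c)
    (hab : B a b ≠ 0) (hbc : B b c ≠ 0) (hcd : B c d ≠ 0) :
    ∃ t, Sh B t ∧ B a t ≠ 0 ∧ B t d ≠ 0 := by
  by_cases h1 : B a c ≠ 0
  · exact ⟨c, hc, h1, hcd⟩
  by_cases h2 : B b d ≠ 0
  · exact ⟨b, hb, hab, h2⟩
  push Not at h1 h2
  have hcb : c ≠ b := by rintro rfl; exact hab h1
  have hcb' : c ≠ -b := by
    rintro rfl
    apply hab
    rw [map_neg] at h1
    omega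
  have hb2 : B b b = 2 := by
    rcases sh_norm B hpos hb with h | h
    · rcases one_orth B hsym hpos h hc hbc with h' | h'
      · exact absurd h' hcb
      · exact absurd h' hcb'
    · exact h
  have hc2 : B c c = 2 := by
    rcases sh_norm B hpos hc with h | h
    · rcases one_orth B hsym hpos h hb (by rw [hsym]; exact hbc) with h' | h'
      · exact absurd h'.symm hcb
      · exact absurd (by rw [h', neg_neg]) hcb'
    · exact h
  rcases inner_two B hsym hpos hb2 hc2 hbc hcb hcb' with h | h
  · -- `b - c`
    have hc' := sh_neg B hc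
    have h3 := sh_add B hsym hpos hb hc' hb2 (by rw [B_neg_left, map_neg, hc2]; ring)
      (by rw [map_neg, h])
    refine ⟨b + -c, h3.1, ?_, ?_⟩
    · rw [map_add, map_neg, h1]; simpa using hab
    · rw [B_add_left, B_neg_left, h2]; simpa using hcd
  · have h3 := sh_add B hsym hpos hb hc hb2 hc2 h
    refine ⟨b + c, h3.1, ?_, ?_⟩
    · rw [map_add, h1]; simpa using hab
    · rw [B_add_left, h2]; simpa using hcd

/-- Two irreducible short vectors are linked if they have a common neighbour. -/
def Lk (x y : P) : Prop := ∃ z, Sh B z ∧ B x z ≠ 0 ∧ B z y ≠ 0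

include hpos in
theorem lk_of_ne {x y : P} (hx : Sh B x) (h : B x y ≠ 0) : Lk B x y :=
  ⟨x, hx, (hpos x hx.1.1).ne', h⟩

include hpos in
theorem lk_refl {x : P} (hx : Sh B x) : Lk B x x := lk_of_ne B hpos hx (hpos x hx.1.1).ne'

include hsym in
theorem lk_symm {x y : P} (h : Lk B x y) : Lk B y x := by
  obtain ⟨z, hz, h1, h2⟩ := h
  exact ⟨z, hz, by rwa [hsym], by rwa [hsym]⟩

include hsym hpos in
theorem lk_trans {x y w : P} (hy : Sh B y) (h : Lk B x y) (h' : Lk B y w) : Lk B x w := by
  obtain ⟨z, hz, h1, h2⟩ := h
  obtain ⟨v, hv, h3, h4⟩ := h'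
  obtain ⟨t, ht, h5, h6⟩ := shorten B hsym hpos hz hy h1 h2 h3
  exact shorten B hsym hpos ht hv h5 h6 h4

end lat

end Pool.Agent.Y477
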