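import Pool.Agent.Y477.GR

set_option autoImplicit false
set_option linter.unusedSectionVars false
set_option linter.style.haveILetI false

/-! Quadratic forms over the integral group ring of a torsion-free group which are dominated by a
positive definite form generated by short vectors are extended from the integers. -/

namespace Pool.Agent.Y477

open Matrix TH6.LF

variable {G : Type} [Group G] {ι : Type} [Fintype ι] [DecidableEq ι]

/-- augmentation -/
noncomputable def augm (G : Type) [Group G] : MonoidAlgebra ℤ G →+* ℤ :=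
  (MonoidAlgebra.lift ℤ ℤ G 1).toRingHom

theorem augm_single (g : G) (a : ℤ) : augm G (MonoidAlgebra.single g a) = a := by
  unfold augm
  change MonoidAlgebra.lift ℤ ℤ G 1 (MonoidAlgebra.single g a) = a
  rw [MonoidAlgebra.lift_single]
  simp

section span

variable (B : (ι → MonoidAlgebra ℤ G) →+ (ι → MonoidAlgebra ℤ G) →+ ℤ)
  (hsym : ∀ x y, B x y = B y x) (hpos : ∀ x, x ≠ 0 → 0 < B x x)
  (hinv : ∀ g x y, B (tr g x) (tr g y) = B x y)

include hinv in
theorem irr_tr (g : G) {x : ι → MonoidAlgebra ℤ G} (h : Irr B x) : Irr B (tr g x) := by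
  have h0 : tr g⁻¹ (0 : ι → MonoidAlgebra ℤ G) = 0 := by funext i; simp [tr]
  have h0' : tr g (0 : ι → MonoidAlgebra ℤ G) = 0 := by funext i; simp [tr]
  have hi : ∀ y : ι → MonoidAlgebra ℤ G, tr g⁻¹ (tr g y) = y := fun y => by
    rw [← tr_mul, inv_mul_cancel, tr_one]
  have hi' : ∀ y : ι → MonoidAlgebra ℤ G, tr g (tr g⁻¹ y) = y := fun y => by
    rw [← tr_mul, mul_inv_cancel, tr_one]
  refine ⟨?_, ?_⟩
  · intro h1
    apply h.1
    rw [← hi x, h1, h0]
  · intro y z hyz h1
    rcases h.2 (tr g⁻¹ y) (tr g⁻¹ z) (by rw [← tr_add, ← hyz, hi]) (by rw [hinv, h1]) with h2 | h2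
    · left; rw [← hi' y, h2, h0']
    · right; rw [← hi' z, h2, h0']

include hsym hpos hinv in
theorem span_sh (hgen : Submodule.span (MonoidAlgebra ℤ G) {x | B x x ≤ 2} = ⊤) :
    Submodule.span ℤ {x | Sh B x} = ⊤ := by
  -- short vectors are sums of irreducible short vectors
  have h1 : ∀ x, B x x ≤ 2 → x ∈ Submodule.span ℤ {x | Sh B x} := by
    intro x hx
    by_cases h0 : x = 0
    · subst h0; exact zero_mem _
    by_cases hirr : Irr B x
    · exact Submodule.subset_span ⟨hirr, hx⟩
    · have h2 : ∃ y z, x = y + z ∧ B y z = 0 ∧ y ≠ 0 ∧ z ≠ 0 := by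
        by_contra hcon
        push Not at hcon
        apply hirr
        refine ⟨h0, fun y z hyz h3 => ?_⟩
        by_cases hy : y = 0
        · exact Or.inl hy
        · exact Or.inr (hcon y z hyz h3 hy)
      obtain ⟨y, z, hyz, h3, hy, hz⟩ := h2
      have hy1 := one_le_self B hpos hy
      have hz1 := one_le_self B hpos hz
      rw [hyz, B_add_left, map_add, map_add, hsym z y, h3] at hx
      rw [hyz]
      exact add_mem (Submodule.subset_span (sh_of_one B hsym hpos (by linarith)))
        (Submodule.subset_span (sh_of_one B hsym hpos (by linarith)))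
  -- the span is invariant
  have h2 : ∀ (g : G) (x), x ∈ Submodule.span ℤ {x | Sh B x} →
      tr g x ∈ Submodule.span ℤ {x | Sh B x} := by
    intro g x hx
    induction hx using Submodule.span_induction with
    | mem y hy =>
      have hy' : Sh B y := hy
      exact Submodule.subset_span ⟨irr_tr B hinv g hy'.1, by rw [hinv]; exact hy'.2⟩
    | zero =>
      have : tr g (0 : ι → MonoidAlgebra ℤ G) = 0 := by funext i; simp [tr]
      rw [this]; exact zero_mem _
    | add x y _ _ h1 h2 => rw [tr_add]; exact add_mem h1 h2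
    | smul n x _ h1 =>
      have : tr g (n • x) = n • tr g x := map_zsmul (trHom ι G g) n x
      rw [this]
      exact zsmul_mem h1 n
  have h3 : ∀ (r : MonoidAlgebra ℤ G) (x), x ∈ Submodule.span ℤ {x | Sh B x} →
      r • x ∈ Submodule.span ℤ {x | Sh B x} := by
    intro r x hx
    induction r using MonoidAlgebra.induction_linear with
    | zero => rw [zero_smul]; exact zero_mem _
    | add r s hr hs => rw [add_smul]; exact add_mem hr hs
    | single g a =>
      have h4 : MonoidAlgebra.single g a • x = a • tr g x := by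
        funext i
        rw [Pi.smul_apply, Pi.smul_apply, smul_eq_mul]
        unfold tr
        rw [← smul_mul_assoc, MonoidAlgebra.smul_single, smul_eq_mul, mul_one]
      rw [h4]
      exact zsmul_mem (h2 g x hx) a
  rw [eq_top_iff]
  rintro x -
  have hx : x ∈ Submodule.span (MonoidAlgebra ℤ G) {x | B x x ≤ 2} := by rw [hgen]; trivial
  induction hx using Submodule.span_induction with
  | mem y hy => exact h1 y hy
  | zero => exact zero_mem _
  | add x y _ _ h1 h2 => exact add_mem h1 h2
  | smul r x _ hx => exact h3 r x hx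

end span

/-- From a fundamental sublattice to a basis. -/
theorem basis_of_fundamental
    (B : (ι → MonoidAlgebra ℤ G) →+ (ι → MonoidAlgebra ℤ G) →+ ℤ)
    (hpos : ∀ x, x ≠ 0 → 0 < B x x) (hinv : ∀ g x y, B (tr g x) (tr g y) = B x y)
    (M : Submodule ℤ (ι → MonoidAlgebra ℤ G)) (hfg : M.FG)
    (horth : ∀ x ∈ M, ∀ y ∈ M, ∀ g, g ≠ 1 → B x (tr g y) = 0)
    (hspan : Submodule.span ℤ {z | ∃ g, ∃ y ∈ M, z = tr g y} = ⊤) :
    ∃ (w : ι → (ι → MonoidAlgebra ℤ G)) (V : Matrix ι ι (MonoidAlgebra ℤ G)),
      (∀ i, w i ∈ M) ∧ (of w) * V = 1 ∧ V * (of w) = 1 := by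
  classical
  haveI : Module.Free ℤ (ι → MonoidAlgebra ℤ G) := Module.Free.of_basis (bs ι G)
  haveI : Module.Finite ℤ M := Module.Finite.iff_fg.2 hfg
  let bM := Module.finBasis ℤ M
  set m := Module.finrank ℤ M
  let w : Fin m → (ι → MonoidAlgebra ℤ G) := fun j => (bM j : ι → MonoidAlgebra ℤ G)
  have hwM : ∀ j, w j ∈ M := fun j => (bM j).2
  let U : Matrix (Fin m) ι (MonoidAlgebra ℤ G) := of w
  -- pairing with a translate of a vector of the sublattice
  have hinv' : ∀ (g h : G) (x y : ι → MonoidAlgebra ℤ G),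
      B (tr g x) (tr h y) = B x (tr (g⁻¹ * h) y) := by
    intro g h x y
    have h1 : tr h y = tr g (tr (g⁻¹ * h) y) := by rw [← tr_mul, mul_inv_cancel_left]
    rw [h1, hinv]
  have hpair : ∀ (r : MonoidAlgebra ℤ G) (h : G) (x), x ∈ M → ∀ y ∈ M,
      B (r • x) (tr h y) = r.coeff h * B x y := by
    intro r h x hx y hy
    induction r using MonoidAlgebra.induction_linear with
    | zero =>
      rw [zero_smul, map_zero, AddMonoidHom.zero_apply]
      simp
    | add r s hr hs =>
      rw [add_smul, B_add_left, hr, hs, MonoidAlgebra.coeff_add, Finsupp.add_apply, add_mul]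
    | single g a =>
      have h4 : MonoidAlgebra.single g a • x = a • tr g x := by
        funext i
        rw [Pi.smul_apply, Pi.smul_apply, smul_eq_mul]
        unfold tr
        rw [← smul_mul_assoc, MonoidAlgebra.smul_single, smul_eq_mul, mul_one]
      rw [h4, B_zsmul_left, hinv', MonoidAlgebra.coeff_single, Finsupp.single_apply]
      by_cases hgh : g = h
      · subst hgh
        rw [if_pos rfl, inv_mul_cancel, tr_one]
      · rw [if_neg hgh, horth x hx y hy _ (by
          intro h5
          apply hgh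
          exact inv_mul_eq_one.1 h5), mul_zero, zero_mul]
  have hvm : ∀ r : Fin m → MonoidAlgebra ℤ G, r ᵥ* U = ∑ j, r j • w j := by
    intro r
    funext i
    rw [Finset.sum_apply]
    simp only [Matrix.vecMul, dotProduct, Pi.smul_apply, smul_eq_mul]
    rfl
  have hpairU : ∀ (r : Fin m → MonoidAlgebra ℤ G) (h : G), ∀ y ∈ M,
      B (r ᵥ* U) (tr h y) = B (∑ j, (r j).coeff h • w j) y := by
    intro r h y hy
    rw [hvm, B_sum_left, B_sum_left]
    refine Finset.sum_congr rfl fun j _ => ?_
    rw [hpair _ _ _ (hwM j) y hy, B_zsmul_left]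
  have hinj : ∀ r : Fin m → MonoidAlgebra ℤ G, r ᵥ* U = 0 → r = 0 := by
    intro r hr
    have h1 : ∀ h : G, ∑ j, (r j).coeff h • w j = 0 := by
      intro h
      by_contra hne
      have h2 := hpairU r h (∑ j, (r j).coeff h • w j)
        (Submodule.sum_mem _ fun j _ => M.smul_mem _ (hwM j))
      rw [hr, map_zero, AddMonoidHom.zero_apply] at h2
      exact (hpos _ hne).ne h2
    funext j
    ext h
    have h2 : ∑ j, (r j).coeff h • bM j = 0 := by
      apply Subtype.ext
      have h3 := h1 h
      rw [ZeroMemClass.coe_zero, ← h3]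
      simp only [w]
      rw [AddSubmonoidClass.coe_finsetSum]
      rfl
    have h3 := Fintype.linearIndependent_iff.1 bM.linearIndependent (fun j => (r j).coeff h) h2 j
    exact h3
  have hsurj : ∀ z : ι → MonoidAlgebra ℤ G, ∃ r : Fin m → MonoidAlgebra ℤ G, r ᵥ* U = z := by
    intro z
    have hz : z ∈ Submodule.span ℤ {z | ∃ g, ∃ y ∈ M, z = tr g y} := by rw [hspan]; trivial
    induction hz using Submodule.span_induction with
    | mem z hz =>
      obtain ⟨g, y, hy, rfl⟩ := hz
      refine ⟨fun j => MonoidAlgebra.single g (bM.repr ⟨y, hy⟩ j), ?_⟩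
      rw [hvm]
      have h1 : y = ∑ j, bM.repr ⟨y, hy⟩ j • w j := by
        have h2 := congrArg Subtype.val (bM.sum_repr ⟨y, hy⟩)
        rw [AddSubmonoidClass.coe_finsetSum] at h2
        exact h2.symm
      conv_rhs => rw [h1]
      have h3 : tr g (∑ j, bM.repr ⟨y, hy⟩ j • w j) = ∑ j, tr g (bM.repr ⟨y, hy⟩ j • w j) :=
        map_sum (trHom ι G g) _ _
      rw [h3]
      refine Finset.sum_congr rfl fun j _ => ?_
      funext i
      simp only [Pi.smul_apply, smul_eq_mul, tr]
      rw [mul_smul_comm, ← smul_mul_assoc, MonoidAlgebra.smul_single, smul_eq_mul, mul_one]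
    | zero => exact ⟨0, Matrix.zero_vecMul _⟩
    | add x y _ _ h1 h2 =>
      obtain ⟨r, hr⟩ := h1
      obtain ⟨s, hs⟩ := h2
      exact ⟨r + s, by rw [Matrix.add_vecMul, hr, hs]⟩
    | smul n x _ h1 =>
      obtain ⟨r, hr⟩ := h1
      refine ⟨n • r, ?_⟩
      rw [Matrix.smul_vecMul, hr]
  choose V hV using fun i : ι => hsurj (Pi.single i 1)
  have hVU : of V * U = 1 := by
    ext1 i j
    have h1 : (of V * U) i = V i ᵥ* U := Matrix.mul_apply_eq_vecMul _ _ _
    rw [h1, hV, Matrix.one_apply, Pi.single_apply]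
    simp only [eq_comm]
  have hUV : U * of V = 1 := by
    refine Matrix.ext fun i j => ?_
    have h1 : ((U * of V) i - (1 : Matrix (Fin m) (Fin m) (MonoidAlgebra ℤ G)) i) ᵥ* U = 0 := by
      rw [Matrix.sub_vecMul, ← Matrix.mul_apply_eq_vecMul, ← Matrix.mul_apply_eq_vecMul,
        Matrix.mul_assoc, hVU, Matrix.mul_one, Matrix.one_mul, sub_self]
    exact congrFun (sub_eq_zero.1 (hinj _ h1)) j
  have hcard : Fintype.card (Fin m) = Fintype.card ι := by
    apply Matrix.square_of_invertible (R := ℤ) (U.map (augm G)) ((of V).map (augm G))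
    · rw [← Matrix.map_mul, hUV, Matrix.map_one _ (map_zero _) (map_one _)]
    · rw [← Matrix.map_mul, hVU, Matrix.map_one _ (map_zero _) (map_one _)]
  let e : Fin m ≃ ι := Fintype.equivOfCardEq hcard
  refine ⟨fun i => w (e.symm i), (of V).submatrix id e.symm, fun i => hwM _, ?_, ?_⟩
  · have h1 : (of fun i => w (e.symm i)) = U.submatrix e.symm id := rfl
    rw [h1, ← Matrix.submatrix_mul _ _ _ _ _ Function.bijective_id, hUV,
      Matrix.submatrix_one_equiv]
  · have h1 : (of fun i => w (e.symm i)) = U.submatrix e.symm id := rfl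
    rw [h1, Matrix.submatrix_mul_equiv, hVU]
    simp

end Pool.Agent.Y477
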