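import Pool.Agent.Y477.Dom

set_option autoImplicit false
set_option linter.unusedSectionVars false
set_option linter.style.haveILetI false

/-! Invertible operators which distort a positive definite lattice generated by short vectors by a
factor less than `√2` are isometries. -/

namespace Pool.Agent.Y477

section near

variable {P : Type*} [AddCommGroup P] (B : P →+ P →+ ℤ)
  (hsym : ∀ x y, B x y = B y x) (hpos : ∀ x, x ≠ 0 → 0 < B x x)
  (hgen : Submodule.span ℤ {x | Sh B x} = ⊤)

include hsym hpos hgen in
/-- vectors orthogonal to all vectors of norm one have even norm -/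
theorem even_of_orth' {v : P} (hv : ∀ e, B e e = 1 → B v e = 0) : Even (B v v) := by
  have hmem : v ∈ Submodule.span ℤ {x | Sh B x} := by rw [hgen]; trivial
  have hsub : {x | Sh B x} ⊆ {x | B x x = 1} ∪ {x | Sh B x ∧ B x x = 2} := by
    intro x hx
    rcases sh_norm B hpos hx with h | h
    · left; exact h
    · right; exact ⟨hx, h⟩
  have hmem2 := Submodule.span_mono (R := ℤ) hsub hmem
  rw [Submodule.span_union, Submodule.mem_sup] at hmem2
  obtain ⟨a, ha, b, hb, hab⟩ := hmem2
  have h1 : ∀ a ∈ Submodule.span ℤ {x | B x x = 1}, B v a = 0 := by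
    intro a ha
    induction ha using Submodule.span_induction with
    | mem x hx => exact hv x hx
    | zero => simp
    | add x y _ _ h1 h2 => rw [map_add, h1, h2, add_zero]
    | smul n x _ h1 => rw [map_zsmul, h1, smul_zero]
  have h2 : ∀ b ∈ Submodule.span ℤ {x | Sh B x ∧ B x x = 2},
      ∀ a ∈ Submodule.span ℤ {x | B x x = 1}, B b a = 0 := by
    intro b hb
    induction hb using Submodule.span_induction with
    | mem x hx =>
      intro a ha
      induction ha using Submodule.span_induction with
      | mem e he =>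
        by_contra hne
        rw [hsym] at hne
        have he' : B e e = 1 := he
        rcases one_orth B hsym hpos he hx.1 hne with h | h
        · have h3 := hx.2
          rw [h] at h3
          omega
        · have h3 := hx.2
          rw [h, B_neg_left, map_neg] at h3
          omega
      | zero => simp
      | add x y _ _ h1 h2 => rw [map_add, h1, h2, add_zero]
      | smul n x _ h1 => rw [map_zsmul, h1, smul_zero]
    | zero => intro a _; simp
    | add x y _ _ h1 h2 => intro a ha; rw [B_add_left, h1 a ha, h2 a ha, add_zero]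
    | smul n x _ h1 => intro a ha; rw [B_zsmul_left, h1 a ha, mul_zero]
  have h3 : B a a = 0 := by
    have h4 := h1 a ha
    rw [← hab, B_add_left, h2 b hb a ha, add_zero] at h4
    exact h4
  have ha0 := eq_zero_of_self B hpos a h3
  have hvb : v = b := by rw [← hab, ha0, zero_add]
  have h5 : ∀ b ∈ Submodule.span ℤ {x | Sh B x ∧ B x x = 2}, Even (B b b) := by
    intro b hb
    induction hb using Submodule.span_induction with
    | mem x hx => rw [hx.2]; exact even_two
    | zero => simp
    | add x y _ _ h1 h2 =>
      have : B (x + y) (x + y) = B x x + B y y + 2 * B x y := by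
        rw [B_add_left, map_add, map_add, hsym y x]; ring
      rw [this]
      exact (h1.add h2).add (even_two_mul _)
    | smul n x _ h1 =>
      rw [B_zsmul_left, B_zsmul_right]
      exact (h1.mul_left _).mul_left _
  rw [hvb]
  exact h5 b hb

variable (α β : P →+ P) (hα : ∀ x, x ≠ 0 → B (α x) (α x) < 2 * B x x)
  (hβ : ∀ x, x ≠ 0 → B (β x) (β x) < 2 * B x x) (hβα : ∀ x, β (α x) = x) (hαβ : ∀ x, α (β x) = x)

theorem near_ne (hβα : ∀ x, β (α x) = x) {x : P} (hx : x ≠ 0) : α x ≠ 0 := by
  intro h
  apply hx
  rw [← hβα x, h, map_zero]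

include hpos hα hβα in
theorem near_one {e : P} (he : B e e = 1) : B (α e) (α e) = 1 := by
  have h0 : e ≠ 0 := by rintro rfl; simp at he
  have h1 := hα e h0
  have h2 := hpos _ (near_ne α β hβα h0)
  omega

include hsym hpos hgen hα hβ hβα hαβ in
theorem near_two {x : P} (hx : Sh B x) (h : B x x = 2) : B (α x) (α x) = 2 := by
  have h1 := hα x hx.1.1
  have h2 := hpos _ (near_ne α β hβα hx.1.1)
  have h3 := hβ _ (near_ne α β hβα hx.1.1)
  rw [hβα] at h3
  by_contra hne
  have hn3 : B (α x) (α x) = 3 := by omega
  have hex : ∃ f, B f f = 1 ∧ B (α x) f ≠ 0 := by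
    by_contra hcon
    push Not at hcon
    have h4 := even_of_orth' B hsym hpos hgen hcon
    rw [hn3] at h4
    exact absurd h4 (by decide)
  obtain ⟨f, hf, hfx⟩ := hex
  -- sign
  have hex2 : ∃ f, B f f = 1 ∧ B (α x) f = 1 := by
    have hcs := cs B hsym hpos (α x) f
    rw [hn3, hf] at hcs
    have h5 : B (α x) f ≤ 1 := by nlinarith
    have h6 : -1 ≤ B (α x) f := by nlinarith
    have h7 : B (α x) f = 1 ∨ B (α x) f = -1 := by omega
    rcases h7 with h7 | h7
    · exact ⟨f, hf, h7⟩
    · exact ⟨-f, by rw [B_neg_left, map_neg, neg_neg, hf], by rw [map_neg, h7, neg_neg]⟩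
  obtain ⟨f, hf, hfx⟩ := hex2
  have he : B (β f) (β f) = 1 := near_one B hpos β α hβ hαβ hf
  have hex0 : B (β f) x = 0 := by
    by_contra hne
    rcases one_orth B hsym hpos he hx hne with h5 | h5
    · rw [h5, he] at h; omega
    · rw [h5, B_neg_left, map_neg, he] at h; omega
  have hn : B (x + β f) (x + β f) = 3 := by
    rw [B_add_left, map_add, map_add, hsym x (β f), hex0, he, h]; norm_num
  have h8 := hα (x + β f) (by
    intro h0
    rw [h0] at hn
    simp at hn)
  rw [hn, map_add, hαβ, B_add_left, map_add, map_add, hsym f (α x), hfx, hn3, hf] at h8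
  omega

include hsym hpos hgen hα hβ hβα hαβ in
theorem near_sh {x : P} (hx : Sh B x) : Sh B (α x) ∧ B (α x) (α x) = B x x := by
  rcases sh_norm B hpos hx with h | h
  · have h1 := near_one B hpos α β hα hβα h
    exact ⟨sh_of_one B hsym hpos h1, by rw [h1, h]⟩
  · have h3 := near_two B hsym hpos hgen α β hα hβ hβα hαβ hx h
    refine ⟨⟨⟨near_ne α β hβα hx.1.1, ?_⟩, h3.le⟩, by rw [h3, h]⟩
    intro a b hab h0
    by_contra hcon
    push Not at hcon
    have ha := one_le_self B hpos hcon.1
    have hb := one_le_self B hpos hcon.2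
    have h4 := h3
    rw [hab, B_add_left, map_add, map_add, hsym b a, h0] at h4
    have ha1 : B a a = 1 := by linarith
    have hb1 : B b b = 1 := by linarith
    have h5 := near_one B hpos β α hβ hαβ ha1
    have h6 := near_one B hpos β α hβ hαβ hb1
    have h7 : x = β a + β b := by rw [← map_add, ← hab, hβα]
    have h8 := h
    rw [h7, B_add_left, map_add, map_add, hsym (β b) (β a), h5, h6] at h8
    rcases hx.1.2 _ _ h7 (by omega) with h9 | h9
    · rw [h9] at h5; simp at h5
    · rw [h9] at h6; simp at h6

include hsym hpos hgen hα hβ hβα hαβ in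
theorem near_ip {x z : P} (hx : Sh B x) (hz : Sh B z) (h : B x z ≠ 0) :
    B (α x) (α z) = B x z := by
  have hTx := (near_sh B hsym hpos hgen α β hα hβ hβα hαβ hx).2
  have hTz := (near_sh B hsym hpos hgen α β hα hβ hβα hαβ hz).2
  by_cases h1 : z = x
  · subst h1; exact hTz
  by_cases h2 : z = -x
  · subst h2
    rw [map_neg, map_neg, map_neg, hTx]
  have hx2 : B x x = 2 := by
    rcases sh_norm B hpos hx with h3 | h3
    · rcases one_orth B hsym hpos h3 hz h with h' | h'
      · exact absurd h' h1
      · exact absurd h' h2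
    · exact h3
  have hz2 : B z z = 2 := by
    rcases sh_norm B hpos hz with h3 | h3
    · rcases one_orth B hsym hpos h3 hx (by rw [hsym]; exact h) with h' | h'
      · exact absurd h'.symm h1
      · exact absurd (by rw [h', neg_neg]) h2
    · exact h3
  rcases inner_two B hsym hpos hx2 hz2 h h1 h2 with h3 | h3
  · have h4 := sh_add B hsym hpos hx (sh_neg B hz) hx2
      (by rw [B_neg_left, map_neg, hz2]; ring) (by rw [map_neg, h3])
    have h5 := (near_sh B hsym hpos hgen α β hα hβ hβα hαβ h4.1).2
    rw [h4.2, map_add, map_neg, B_add_left, map_add, map_add, B_neg_left, B_neg_left, map_neg,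
      map_neg, hTx, hTz, hsym (α z) (α x), hx2, hz2] at h5
    omega
  · have h4 := sh_add B hsym hpos hx hz hx2 hz2 h3
    have h5 := (near_sh B hsym hpos hgen α β hα hβ hβα hαβ h4.1).2
    rw [h4.2, map_add, B_add_left, map_add, map_add, hTx, hTz, hsym (α z) (α x), hx2,
      hz2] at h5
    omega

include hsym hpos hgen hα hβ hβα hαβ in
/-- Near isometries are isometries. -/
theorem near_isom (x z : P) : B (α x) (α z) = B x z := by
  have h1 : ∀ x, Sh B x → ∀ z, Sh B z → B (α x) (α z) = B x z := by
    intro x hx z hz
    by_cases h : B x z = 0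
    · rw [h]
      by_contra hne
      have hx' := (near_sh B hsym hpos hgen α β hα hβ hβα hαβ hx).1
      have hz' := (near_sh B hsym hpos hgen α β hα hβ hβα hαβ hz).1
      have h2 := near_ip B hsym hpos hgen β α hβ hα hαβ hβα hx' hz' hne
      rw [hβα, hβα, h] at h2
      exact hne h2.symm
    · exact near_ip B hsym hpos hgen α β hα hβ hβα hαβ hx hz h
  have hx : x ∈ Submodule.span ℤ {x | Sh B x} := by rw [hgen]; trivial
  have hz : z ∈ Submodule.span ℤ {x | Sh B x} := by rw [hgen]; trivial
  induction hx using Submodule.span_induction with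
  | mem x hx =>
    induction hz using Submodule.span_induction with
    | mem z hz => exact h1 x hx z hz
    | zero => simp
    | add a b _ _ h2 h3 => rw [map_add, map_add, map_add, h2, h3]
    | smul n a _ h2 => rw [map_zsmul, map_zsmul, map_zsmul, h2]
  | zero => simp
  | add a b _ _ h2 h3 => rw [map_add, B_add_left, B_add_left, h2, h3]
  | smul n a _ h2 => rw [map_zsmul, B_zsmul_left, B_zsmul_left, h2]

end near

end Pool.Agent.Y477
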