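import Pool.Agent.Y477.Nis

set_option autoImplicit false
set_option linter.unusedSectionVars false
set_option linter.style.haveILetI false

/-! Near isometries of a positive definite integral lattice extended to the group ring. -/

namespace Pool.Agent.Y477

open Matrix TH6.LF

variable {G : Type} [Group G] {ι : Type} [Fintype ι] [DecidableEq ι]

/-- integral vectors over the group ring -/
noncomputable def em (G : Type) [Group G] {ι : Type} (x : ι → ℤ) : ι → MonoidAlgebra ℤ G :=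
  fun i => MonoidAlgebra.single 1 (x i)

/-- coefficients of a vector -/
noncomputable def cf (g : G) (z : ι → MonoidAlgebra ℤ G) : ι → ℤ := fun i => (z i).coeff g

/-- coefficients of a matrix -/
noncomputable def cm (g : G) (N : Matrix ι ι (MonoidAlgebra ℤ G)) : Matrix ι ι ℤ :=
  Matrix.of fun i j => (N i j).coeff g

variable [DecidableEq G]

theorem em_add (x y : ι → ℤ) : em G (x + y) = em G x + em G y := by
  funext i
  exact MonoidAlgebra.single_add _ _ _

theorem em_zero : em G (0 : ι → ℤ) = 0 := by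
  funext i
  exact MonoidAlgebra.single_zero _

theorem cf_add (g : G) (x y : ι → MonoidAlgebra ℤ G) : cf g (x + y) = cf g x + cf g y := by
  funext i
  exact coeff_add' _ _ _

theorem cf_zsmul (g : G) (n : ℤ) (x : ι → MonoidAlgebra ℤ G) : cf g (n • x) = n • cf g x := by
  funext i
  have := coeff_zsmul' n (x i) g
  simpa [cf] using this

theorem cf_tr (g h : G) (z : ι → MonoidAlgebra ℤ G) : cf g (tr h z) = cf (h⁻¹ * g) z := by
  funext i
  exact coeff_tr _ _ _ _

theorem cf_em (g : G) (x : ι → ℤ) : cf g (em G x) = if g = 1 then x else 0 := by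
  classical
  funext i
  unfold cf em
  rw [MonoidAlgebra.coeff_single, Finsupp.single_apply]
  by_cases h : g = 1
  · subst h; simp
  · rw [if_neg (Ne.symm h), if_neg h]; rfl

theorem cf_tr_em (g h : G) (x : ι → ℤ) : cf g (tr h (em G x)) = if g = h then x else 0 := by
  rw [cf_tr, cf_em]
  by_cases h1 : g = h
  · subst h1; simp
  · rw [if_neg h1, if_neg (by rw [inv_mul_eq_one]; exact fun h => h1 h.symm)]

theorem em_inj {x y : ι → ℤ} (h : em G x = em G y) : x = y := by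
  have h1 := congrArg (cf (1 : G)) h
  rwa [cf_em, cf_em, if_pos rfl, if_pos rfl] at h1

theorem em_vecMul (x : ι → ℤ) (A : Matrix ι ι ℤ) :
    em G x ᵥ* A.map (Int.cast : ℤ → MonoidAlgebra ℤ G) = em G (x ᵥ* A) := by
  funext j
  simp only [em, Matrix.vecMul, dotProduct, Matrix.map_apply]
  rw [show MonoidAlgebra.single (1 : G) (∑ i, x i * A i j)
    = ∑ i, MonoidAlgebra.single (1 : G) (x i * A i j) from
      map_sum (MonoidAlgebra.singleAddHom (R := ℤ) (1 : G)) _ _]
  refine Finset.sum_congr rfl fun i _ => ?_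
  rw [MonoidAlgebra.intCast_def, Int.cast_id, MonoidAlgebra.single_mul_single, one_mul]

theorem cf_em_vecMul (g : G) (x : ι → ℤ) (N : Matrix ι ι (MonoidAlgebra ℤ G)) :
    cf g (em G x ᵥ* N) = x ᵥ* cm g N := by
  funext j
  simp only [cf, em, Matrix.vecMul, dotProduct, cm, Matrix.of_apply]
  rw [MonoidAlgebra.coeff_sum, Finsupp.finsetSum_apply]
  refine Finset.sum_congr rfl fun i _ => ?_
  rw [MonoidAlgebra.coeff_single_mul_apply, inv_one, one_mul]

theorem ipz_tr_em (g : G) (x : ι → ℤ) (z : ι → MonoidAlgebra ℤ G) :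
    ipz (tr g (em G x)) z = x ⬝ᵥ cf g z := by
  unfold ipz cf em tr dotProduct
  rw [MonoidAlgebra.coeff_sum, Finsupp.finsetSum_apply]
  refine Finset.sum_congr rfl fun i _ => ?_
  rw [MonoidAlgebra.single_mul_single, one_mul, mul_one, MonoidAlgebra.coeff_single_mul_apply,
    coeff_bar]
  simp

theorem fm_tr_em (A : Matrix ι ι ℤ) (g : G) (x : ι → ℤ) (z : ι → MonoidAlgebra ℤ G) :
    fm (A.map (Int.cast : ℤ → MonoidAlgebra ℤ G)) (tr g (em G x)) z = (x ᵥ* A) ⬝ᵥ cf g z := by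
  rw [fm_apply, tr_vecMul, em_vecMul, ipz_tr_em]

theorem fm_tr_tr (A : Matrix ι ι ℤ) (g h : G) (x y : ι → ℤ) :
    fm (A.map (Int.cast : ℤ → MonoidAlgebra ℤ G)) (tr g (em G x)) (tr h (em G y))
      = if g = h then (x ᵥ* A) ⬝ᵥ y else 0 := by
  rw [fm_tr_em, cf_tr_em]
  split_ifs
  · rfl
  · simp

theorem fm_em_em (A : Matrix ι ι ℤ) (x y : ι → ℤ) :
    fm (A.map (Int.cast : ℤ → MonoidAlgebra ℤ G)) (em G x) (em G y) = (x ᵥ* A) ⬝ᵥ y := by
  have h := fm_tr_tr (G := G) A 1 1 x y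
  rwa [tr_one, tr_one, if_pos rfl] at h

theorem tr_ne_zero (g : G) {z : ι → MonoidAlgebra ℤ G} (hz : z ≠ 0) : tr g z ≠ 0 := by
  intro h
  apply hz
  have h1 : tr g⁻¹ (tr g z) = z := by rw [← tr_mul, inv_mul_cancel, tr_one]
  rw [← h1, h]
  funext i
  simp [tr]

/-- irreducible vectors lie in one translate -/
theorem irr_single (A : Matrix ι ι ℤ) {z : ι → MonoidAlgebra ℤ G}
    (hz : Irr (fm (A.map (Int.cast : ℤ → MonoidAlgebra ℤ G))) z) :
    ∃ g x, z = tr g (em G x) := by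
  have h1 : ∃ g, cf g z ≠ 0 := by
    by_contra hcon
    push Not at hcon
    apply hz.1
    funext i
    ext g
    have := congrFun (hcon g) i
    exact this
  obtain ⟨g, hg⟩ := h1
  refine ⟨g, cf g z, ?_⟩
  have h2 : cf g (z - tr g (em G (cf g z))) = 0 := by
    have h3 : cf g z = cf g (z - tr g (em G (cf g z))) + cf g (tr g (em G (cf g z))) := by
      rw [← cf_add, sub_add_cancel]
    rw [cf_tr_em, if_pos rfl] at h3
    exact left_eq_add.1 (by rw [add_comm]; exact h3)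
  rcases hz.2 (tr g (em G (cf g z))) (z - tr g (em G (cf g z))) (by abel)
    (by rw [fm_tr_em, h2]; simp) with h3 | h3
  · exfalso
    apply hg
    have h4 := congrArg (cf g) h3
    rw [cf_tr_em, if_pos rfl] at h4
    rw [h4]
    rfl
  · exact (sub_eq_zero.1 h3)

theorem sh_tr (B : (ι → MonoidAlgebra ℤ G) →+ (ι → MonoidAlgebra ℤ G) →+ ℤ)
    (hinv : ∀ g x y, B (tr g x) (tr g y) = B x y) (g : G) {x : ι → MonoidAlgebra ℤ G}
    (h : Sh B x) : Sh B (tr g x) :=
  ⟨irr_tr B hinv g h.1, by rw [hinv]; exact h.2⟩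

theorem sh_tr_iff (B : (ι → MonoidAlgebra ℤ G) →+ (ι → MonoidAlgebra ℤ G) →+ ℤ)
    (hinv : ∀ g x y, B (tr g x) (tr g y) = B x y) (g : G) {x : ι → MonoidAlgebra ℤ G}
    (h : Sh B (tr g x)) : Sh B x := by
  have h1 := sh_tr B hinv g⁻¹ h
  rwa [← tr_mul, inv_mul_cancel, tr_one] at h1

section main

variable (Λ : Matrix ι ι ℤ)

/-- the form over the group ring -/
noncomputable abbrev BB (G : Type) [Group G] :
    (ι → MonoidAlgebra ℤ G) →+ (ι → MonoidAlgebra ℤ G) →+ ℤ :=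
  fm (Λ.map (Int.cast : ℤ → MonoidAlgebra ℤ G))

/-- short irreducible integral vectors -/
def S0 (G : Type) [Group G] : Set (ι → ℤ) := {x | Sh (BB Λ G) (em G x)}

theorem adj_intMap (A : Matrix ι ι ℤ) : adj (A.map (Int.cast : ℤ → MonoidAlgebra ℤ G))
    = (Aᵀ).map (Int.cast : ℤ → MonoidAlgebra ℤ G) := by
  ext1 i j
  rw [adj_apply, Matrix.map_apply, Matrix.map_apply, Matrix.transpose_apply,
    MonoidAlgebra.intCast_def, Int.cast_id, bar_single, inv_one]

theorem dot_comm_of (A : Matrix ι ι ℤ) (x y : ι → ℤ) : (x ᵥ* A) ⬝ᵥ y = (y ᵥ* Aᵀ) ⬝ᵥ x := by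
  rw [Matrix.vecMul_transpose, dotProduct_comm (A *ᵥ y) x, Matrix.dotProduct_mulVec]

theorem BB_pos (hpos : ∀ x : ι → ℤ, x ≠ 0 → 0 < (x ᵥ* Λ) ⬝ᵥ x) (z : ι → MonoidAlgebra ℤ G)
    (hz : z ≠ 0) : 0 < BB Λ G z z := by
  classical
  -- the sum over the translates
  let s : Finset G := Finset.univ.biUnion fun i => (z i).coeff.support
  have hs : ∀ g, g ∉ s → cf g z = 0 := by
    intro g hg
    funext i
    simp only [s, Finset.mem_biUnion, not_exists, not_and] at hg
    exact Finsupp.notMem_support_iff.1 (hg i (Finset.mem_univ _))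
  have hz' : z = ∑ g ∈ s, tr g (em G (cf g z)) := by
    funext i
    ext h
    rw [Finset.sum_apply, MonoidAlgebra.coeff_sum, Finsupp.finsetSum_apply]
    have h1 : ∀ g ∈ s, (tr g (em G (cf g z)) i).coeff h = if g = h then (z i).coeff h else 0 := by
      intro g _
      have h2 := congrFun (cf_tr_em h g (cf g z)) i
      have h3 : (tr g (em G (cf g z)) i).coeff h = cf h (tr g (em G (cf g z))) i := rfl
      rw [h3, h2]
      by_cases h4 : g = h
      · subst h4; simp [cf]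
      · rw [if_neg h4, if_neg (Ne.symm h4)]; rfl
    rw [Finset.sum_congr rfl h1, Finset.sum_ite_eq']
    by_cases h2 : h ∈ s
    · rw [if_pos h2]
    · rw [if_neg h2]
      exact congrFun (hs h h2) i
  have h1 : BB Λ G z z = ∑ g ∈ s, (cf g z ᵥ* Λ) ⬝ᵥ cf g z := by
    nth_rewrite 1 [hz']
    rw [B_sum_left]
    exact Finset.sum_congr rfl fun g _ => fm_tr_em _ _ _ _
  rw [h1]
  have h2 : ∃ g ∈ s, cf g z ≠ 0 := by
    by_contra hcon
    push Not at hcon
    apply hz
    rw [hz']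
    refine Finset.sum_eq_zero fun g hg => ?_
    rw [hcon g hg, em_zero]
    funext i
    simp [tr]
  obtain ⟨g, hg, hgz⟩ := h2
  refine Finset.sum_pos' (fun g _ => ?_) ⟨g, hg, hpos _ hgz⟩
  by_cases h3 : cf g z = 0
  · rw [h3]; simp
  · exact (hpos _ h3).le

theorem BB_sym (hΛ : Λᵀ = Λ) (x y : ι → MonoidAlgebra ℤ G) : BB Λ G x y = BB Λ G y x :=
  fm_sym _ (by rw [adj_intMap, hΛ]) x y

theorem BB_gen (hΛ : Λᵀ = Λ) (hpos : ∀ x : ι → ℤ, x ≠ 0 → 0 < (x ᵥ* Λ) ⬝ᵥ x)
    (hgen : Submodule.span ℤ {x : ι → ℤ | (x ᵥ* Λ) ⬝ᵥ x ≤ 2} = ⊤) :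
    Submodule.span ℤ {z | Sh (BB Λ G) z} = ⊤ := by
  apply span_sh (BB Λ G) (BB_sym Λ hΛ) (BB_pos Λ hpos) (fm_inv _)
  rw [eq_top_iff]
  rintro z -
  have h1 : ∀ x : ι → ℤ, em G x ∈
      Submodule.span (MonoidAlgebra ℤ G) {x | BB Λ G x x ≤ 2} := by
    intro x
    have hx : x ∈ Submodule.span ℤ {x : ι → ℤ | (x ᵥ* Λ) ⬝ᵥ x ≤ 2} := by rw [hgen]; trivial
    induction hx using Submodule.span_induction with
    | mem x hx =>
      apply Submodule.subset_span
      change BB Λ G (em G x) (em G x) ≤ 2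
      rw [BB, fm_em_em]
      exact hx
    | zero => rw [em_zero]; exact zero_mem _
    | add a b _ _ h1 h2 => rw [em_add]; exact add_mem h1 h2
    | smul n a _ h1 =>
      have h2 : em G (n • a) = n • em G a := by
        funext i
        rw [Pi.smul_apply]
        unfold em
        rw [MonoidAlgebra.smul_single, Pi.smul_apply]
      rw [h2]
      exact zsmul_mem h1 n
  have h2 : z = ∑ i, z i • em G (Pi.single i (1 : ℤ)) := by
    funext j
    rw [Finset.sum_apply, Finset.sum_eq_single j]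
    · rw [Pi.smul_apply, smul_eq_mul, em, Pi.single_eq_same, ← MonoidAlgebra.one_def, mul_one]
    · intro i _ hij
      rw [Pi.smul_apply, smul_eq_mul, em, Pi.single_eq_of_ne (Ne.symm hij),
        MonoidAlgebra.single_zero, mul_zero]
    · intro h; exact absurd (Finset.mem_univ _) h
  rw [h2]
  exact Submodule.sum_mem _ fun i _ => Submodule.smul_mem _ _ (h1 _)

theorem S0_span (hΛ : Λᵀ = Λ) (hpos : ∀ x : ι → ℤ, x ≠ 0 → 0 < (x ᵥ* Λ) ⬝ᵥ x)
    (hgen : Submodule.span ℤ {x : ι → ℤ | (x ᵥ* Λ) ⬝ᵥ x ≤ 2} = ⊤) :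
    Submodule.span ℤ (S0 Λ G) = ⊤ := by
  rw [eq_top_iff]
  rintro x -
  have h1 : ∀ z ∈ Submodule.span ℤ {z | Sh (BB Λ G) z},
      cf (1 : G) z ∈ Submodule.span ℤ (S0 Λ G) := by
    intro z hz
    induction hz using Submodule.span_induction with
    | mem z hz =>
      have hz' : Sh (BB Λ G) z := hz
      obtain ⟨g, x, rfl⟩ := irr_single Λ hz'.1
      rw [cf_tr_em]
      split_ifs
      · exact Submodule.subset_span (sh_tr_iff _ (fm_inv _) g hz')
      · exact zero_mem _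
    | zero =>
      have : cf (1 : G) (0 : ι → MonoidAlgebra ℤ G) = 0 := rfl
      rw [this]; exact zero_mem _
    | add a b _ _ h1 h2 => rw [cf_add]; exact add_mem h1 h2
    | smul n a _ h1 => rw [cf_zsmul]; exact zsmul_mem h1 n
  have h2 := h1 (em G x) (by rw [BB_gen Λ hΛ hpos hgen]; trivial)
  rwa [cf_em, if_pos rfl] at h2

theorem mat_ext_S0 (hspan : Submodule.span ℤ (S0 Λ G) = ⊤) (A C : Matrix ι ι ℤ)
    (h : ∀ x ∈ S0 Λ G, x ᵥ* A = x ᵥ* C) : A = C := by
  have h1 : ∀ x : ι → ℤ, x ᵥ* A = x ᵥ* C := by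
    intro x
    have hx : x ∈ Submodule.span ℤ (S0 Λ G) := by rw [hspan]; trivial
    induction hx using Submodule.span_induction with
    | mem x hx => exact h x hx
    | zero => rw [Matrix.zero_vecMul, Matrix.zero_vecMul]
    | add a b _ _ h1 h2 => rw [Matrix.add_vecMul, Matrix.add_vecMul, h1, h2]
    | smul n a _ h1 => rw [Matrix.smul_vecMul, Matrix.smul_vecMul, h1]
  ext i j
  have h2 := congrFun (h1 (Pi.single i 1)) j
  rwa [Matrix.single_one_vecMul, Matrix.single_one_vecMul] at h2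

theorem form_ext_S0 (hspan : Submodule.span ℤ (S0 Λ G) = ⊤) (A C : Matrix ι ι ℤ)
    (h : ∀ x ∈ S0 Λ G, ∀ y ∈ S0 Λ G, (x ᵥ* A) ⬝ᵥ y = (x ᵥ* C) ⬝ᵥ y) : A = C := by
  apply mat_ext_S0 Λ hspan
  intro x hx
  have h1 : ∀ y : ι → ℤ, (x ᵥ* A) ⬝ᵥ y = (x ᵥ* C) ⬝ᵥ y := by
    intro y
    have hy : y ∈ Submodule.span ℤ (S0 Λ G) := by rw [hspan]; trivial
    induction hy using Submodule.span_induction with
    | mem y hy => exact h x hx y hy
    | zero => rw [dotProduct_zero, dotProduct_zero]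
    | add a b _ _ h1 h2 => rw [dotProduct_add, dotProduct_add, h1, h2]
    | smul n a _ h1 => rw [dotProduct_smul, dotProduct_smul, h1]
  funext j
  have h2 := h1 (Pi.single j 1)
  rwa [dotProduct_single_one, dotProduct_single_one] at h2

end main

end Pool.Agent.Y477
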