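import Pool.Agent.Y477.Nis2

set_option autoImplicit false
set_option linter.unusedSectionVars false
set_option linter.style.haveILetI false

/-! Near isometries which preserve an integral quadratic form are products of a diagonal
automorphism and an integral one. -/

namespace Pool.Agent.Y477

open Matrix TH6.LF

variable {G : Type} [Group G] {ι : Type} [Fintype ι] [DecidableEq ι]

theorem augm_em (x : ι → ℤ) (g : G) (i : ι) : augm G (tr g (em G x) i) = x i := by
  unfold tr em
  rw [MonoidAlgebra.single_mul_single, augm_single, one_mul]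

theorem vecMul_augm (z : ι → MonoidAlgebra ℤ G) (N : Matrix ι ι (MonoidAlgebra ℤ G)) :
    (fun i => augm G (z i)) ᵥ* N.map (augm G) = fun i => augm G ((z ᵥ* N) i) := by
  funext j
  simp only [Matrix.vecMul, dotProduct, Matrix.map_apply, map_sum, map_mul]

theorem near_main (Λ : Matrix ι ι ℤ) (hΛ : Λᵀ = Λ)
    (hpos : ∀ x : ι → ℤ, x ≠ 0 → 0 < (x ᵥ* Λ) ⬝ᵥ x)
    (hgen : Submodule.span ℤ {x : ι → ℤ | (x ᵥ* Λ) ⬝ᵥ x ≤ 2} = ⊤)
    (ε : ℤ) (hε : ε = 1 ∨ ε = -1) (Ψ : Matrix ι ι ℤ)
    (N : (Matrix ι ι (MonoidAlgebra ℤ G))ˣ) (Y : Matrix ι ι (MonoidAlgebra ℤ G))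
    (hN : N.val * Ψ.map (Int.cast : ℤ → MonoidAlgebra ℤ G) * adj N.val
      = Ψ.map (Int.cast : ℤ → MonoidAlgebra ℤ G) + (Y - ε • adj Y))
    (hb : ∀ x : ι → MonoidAlgebra ℤ G, x ≠ 0 →
      BB Λ G (x ᵥ* N.val) (x ᵥ* N.val) < 2 * BB Λ G x x ∧
      BB Λ G x x < 2 * BB Λ G (x ᵥ* N.val) (x ᵥ* N.val)) :
    ∃ (s : Finset G) (e : G → Matrix ι ι ℤ) (N₀ : (Matrix ι ι ℤ)ˣ) (X : Matrix ι ι ℤ),
      N.val = (∑ g ∈ s, (e g).map (MonoidAlgebra.single g))
        * N₀.val.map (Int.cast : ℤ → MonoidAlgebra ℤ G) ∧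
      (∑ g ∈ s, e g = 1) ∧ (∀ g, e g * e g = e g) ∧ (∀ g h, g ≠ h → e g * e h = 0) ∧
      (∀ g, e g * Λ = Λ * (e g)ᵀ) ∧
      (∀ g, e g * (Ψ + ε • Ψᵀ) = (Ψ + ε • Ψᵀ) * (e g)ᵀ) ∧
      N₀.val * Λ * N₀.valᵀ = Λ ∧
      N₀.val * Ψ * N₀.valᵀ = Ψ + (X - ε • Xᵀ) := by
  classical
  have hεε : ε * ε = 1 := by rcases hε with rfl | rfl <;> norm_num
  set B := BB Λ G with hB
  have hsym := BB_sym (G := G) Λ hΛ
  have hposB := BB_pos (G := G) Λ hpos
  have hgenB := BB_gen (G := G) Λ hΛ hpos hgen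
  have hinv := fm_inv (G := G) (Λ.map (Int.cast : ℤ → MonoidAlgebra ℤ G))
  have hspan := S0_span (G := G) Λ hΛ hpos hgen
  let α : (ι → MonoidAlgebra ℤ G) →+ (ι → MonoidAlgebra ℤ G) :=
    AddMonoidHom.mk' (fun x => x ᵥ* N.val) (fun x y => Matrix.add_vecMul _ _ _)
  let β : (ι → MonoidAlgebra ℤ G) →+ (ι → MonoidAlgebra ℤ G) :=
    AddMonoidHom.mk' (fun x => x ᵥ* (N⁻¹).val) (fun x y => Matrix.add_vecMul _ _ _)
  have hβα : ∀ x, β (α x) = x := by
    intro x
    change (x ᵥ* N.val) ᵥ* (N⁻¹).val = x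
    rw [Matrix.vecMul_vecMul, Units.mul_inv, Matrix.vecMul_one]
  have hαβ : ∀ x, α (β x) = x := by
    intro x
    change (x ᵥ* (N⁻¹).val) ᵥ* N.val = x
    rw [Matrix.vecMul_vecMul, Units.inv_mul, Matrix.vecMul_one]
  have hα : ∀ x, x ≠ 0 → B (α x) (α x) < 2 * B x x := fun x hx => (hb x hx).1
  have hβ : ∀ x, x ≠ 0 → B (β x) (β x) < 2 * B x x := by
    intro x hx
    have h1 := (hb (β x) (near_ne β α hαβ hx)).2
    change B (β x) (β x) < 2 * B (α (β x)) (α (β x)) at h1
    rwa [hαβ] at h1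
  have hαtr : ∀ g x, α (tr g x) = tr g (α x) := fun g x => tr_vecMul g x _
  have hβtr : ∀ g x, β (tr g x) = tr g (β x) := fun g x => tr_vecMul g x _
  have hiso := near_isom B hsym hposB hgenB α β hα hβ hβα hαβ
  have hisoβ := near_isom B hsym hposB hgenB β α hβ hα hαβ hβα
  -- images of short integral vectors
  have key : ∀ x ∈ S0 Λ G, ∃ k y, α (em G x) = tr k (em G y) ∧ β (em G y) = tr k⁻¹ (em G x) := by
    intro x hx
    have h1 := (near_sh B hsym hposB hgenB α β hα hβ hβα hαβ hx).1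
    obtain ⟨k, y, hky⟩ := irr_single Λ h1.1
    refine ⟨k, y, hky, ?_⟩
    have h2 : em G y = α (tr k⁻¹ (em G x)) := by
      rw [hαtr, hky, ← tr_mul, inv_mul_cancel, tr_one]
    rw [h2, hβα]
  -- the integral part
  let N₀ : (Matrix ι ι ℤ)ˣ := Units.map (augm G).mapMatrix.toMonoidHom N
  have hN₀ : N₀.val = N.val.map (augm G) := rfl
  have keyN : ∀ x k y, α (em G x) = tr k (em G y) → x ᵥ* N₀.val = y := by
    intro x k y h
    have h1 := vecMul_augm (em G x) N.val
    have h2 : (fun i => augm G (em G x i)) = x := by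
      funext i
      have := augm_em (G := G) x 1 i
      rwa [tr_one] at this
    rw [h2] at h1
    rw [hN₀, h1]
    funext i
    have h3 : (em G x ᵥ* N.val) i = tr k (em G y) i := congrFun h i
    rw [h3, augm_em]
  have keyI : ∀ x k y, α (em G x) = tr k (em G y) → y ᵥ* (N₀⁻¹).val = x := by
    intro x k y h
    rw [← keyN x k y h, Matrix.vecMul_vecMul, Units.mul_inv, Matrix.vecMul_one]
  let e : G → Matrix ι ι ℤ := fun g => cm g N.val * (N₀⁻¹).val
  have keyE : ∀ x k y, α (em G x) = tr k (em G y) → ∀ g, x ᵥ* e g = if g = k then x else 0 := by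
    intro x k y h g
    have h1 : x ᵥ* cm g N.val = cf g (tr k (em G y)) := by
      rw [← cf_em_vecMul]
      exact congrArg (cf g) h
    change x ᵥ* (cm g N.val * (N₀⁻¹).val) = _
    rw [← Matrix.vecMul_vecMul, h1, cf_tr_em]
    split_ifs
    · exact keyI x k y h
    · rw [Matrix.zero_vecMul]
  -- a form which is invariant
  have inv_form : ∀ C : Matrix ι ι ℤ,
      (∀ x y, fm (C.map (Int.cast : ℤ → MonoidAlgebra ℤ G)) (α x) (α y)
        = fm (C.map (Int.cast : ℤ → MonoidAlgebra ℤ G)) x y) →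
      (∀ g, e g * C = C * (e g)ᵀ) ∧ N₀.val * C * N₀.valᵀ = C := by
    intro C hC
    have hCβ : ∀ x y, fm (C.map (Int.cast : ℤ → MonoidAlgebra ℤ G)) (β x) (β y)
        = fm (C.map (Int.cast : ℤ → MonoidAlgebra ℤ G)) x y := by
      intro x y
      have := hC (β x) (β y)
      rw [hαβ, hαβ] at this
      exact this.symm
    have horth : ∀ x k y x' k' y', α (em G x) = tr k (em G y) → α (em G x') = tr k' (em G y') →
        (x ᵥ* C) ⬝ᵥ x' = if k = k' then (y ᵥ* C) ⬝ᵥ y' else 0 := by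
      intro x k y x' k' y' h h'
      rw [← fm_em_em (G := G), ← hC, h, h', fm_tr_tr]
    constructor
    · intro g
      apply form_ext_S0 Λ hspan
      intro x hx x' hx'
      obtain ⟨k, y, h, -⟩ := key x hx
      obtain ⟨k', y', h', -⟩ := key x' hx'
      have h1 : (x ᵥ* (e g * C)) ⬝ᵥ x' = if g = k then (x ᵥ* C) ⬝ᵥ x' else 0 := by
        rw [← Matrix.vecMul_vecMul, keyE x k y h]
        split_ifs
        · rfl
        · rw [Matrix.zero_vecMul, zero_dotProduct]
      have h2 : (x ᵥ* (C * (e g)ᵀ)) ⬝ᵥ x' = if g = k' then (x ᵥ* C) ⬝ᵥ x' else 0 := by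
        rw [← Matrix.vecMul_vecMul, Matrix.vecMul_transpose, dotProduct_comm,
          Matrix.dotProduct_mulVec, keyE x' k' y' h']
        split_ifs
        · exact dotProduct_comm _ _
        · rw [zero_dotProduct]
      rw [h1, h2]
      by_cases hk : k = k'
      · rw [hk]
      · have h3 := horth x k y x' k' y' h h'
        rw [if_neg hk] at h3
        rw [h3, ite_self, ite_self]
    · apply form_ext_S0 Λ hspan
      intro x hx x' hx'
      obtain ⟨k, y, h, hb1⟩ := key x hx
      obtain ⟨k', y', h', hb2⟩ := key x' hx'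
      have h1 : (x ᵥ* (N₀.val * C * N₀.valᵀ)) ⬝ᵥ x' = (y ᵥ* C) ⬝ᵥ y' := by
        rw [← Matrix.vecMul_vecMul, ← Matrix.vecMul_vecMul, Matrix.vecMul_transpose,
          dotProduct_comm, Matrix.dotProduct_mulVec, keyN x k y h, keyN x' k' y' h',
          dotProduct_comm]
      rw [h1, horth x k y x' k' y' h h']
      split_ifs with hk
      · rfl
      · rw [← fm_em_em (G := G), ← hCβ, hb1, hb2, fm_tr_tr, if_neg (fun h => hk (inv_injective h))]
  have hΛinv := inv_form Λ hiso
  -- the bilinear form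
  have hL : N.val * (Ψ + ε • Ψᵀ).map (Int.cast : ℤ → MonoidAlgebra ℤ G) * adj N.val
      = (Ψ + ε • Ψᵀ).map (Int.cast : ℤ → MonoidAlgebra ℤ G) := by
    have h1 : (Ψ + ε • Ψᵀ).map (Int.cast : ℤ → MonoidAlgebra ℤ G)
        = Ψ.map (Int.cast : ℤ → MonoidAlgebra ℤ G)
          + ε • adj (Ψ.map (Int.cast : ℤ → MonoidAlgebra ℤ G)) := by
      rw [adj_intMap]
      ext1 i j
      change ((Ψ i j + ε * Ψ j i : ℤ) : MonoidAlgebra ℤ G)
        = ((Ψ i j : ℤ) : MonoidAlgebra ℤ G) + ε • ((Ψ j i : ℤ) : MonoidAlgebra ℤ G)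
      rw [Int.cast_add, Int.cast_mul, zsmul_eq_mul]
    have h2 := congrArg adj hN
    rw [adj_mul, adj_mul, adj_adj, adj_add, adj_sub, adj_zsmul, adj_adj] at h2
    rw [h1, Matrix.mul_add, Matrix.add_mul, hN, Matrix.mul_smul, Matrix.smul_mul, Matrix.mul_assoc,
      h2, smul_add, smul_sub, smul_smul, hεε, one_smul]
    abel
  have hLinv := inv_form (Ψ + ε • Ψᵀ) (by
    intro x y
    rw [fm_apply, fm_apply]
    change ipz ((x ᵥ* N.val) ᵥ* _) (y ᵥ* N.val) = _
    rw [Matrix.vecMul_vecMul, ipz_comm, ipz_vecMul, ipz_comm, Matrix.vecMul_vecMul, hL])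
  -- the quadratic refinement
  have hquad : ∃ X : Matrix ι ι ℤ, N₀.val * Ψ * N₀.valᵀ = Ψ + (X - ε • Xᵀ) := by
    have hbil : N₀.val * Ψ * N₀.valᵀ + ε • (N₀.val * Ψ * N₀.valᵀ)ᵀ = Ψ + ε • Ψᵀ := by
      have h1 := hLinv.2
      rw [Matrix.mul_add, Matrix.add_mul, Matrix.mul_smul, Matrix.smul_mul] at h1
      rw [Matrix.transpose_mul, Matrix.transpose_mul, Matrix.transpose_transpose,
        ← Matrix.mul_assoc]
      exact h1
    set Q := N₀.val * Ψ * N₀.valᵀ - Ψ with hQ
    have hQQ : ∀ i j, Q i j + ε * Q j i = 0 := by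
      intro i j
      have h1 := congrFun (congrFun hbil i) j
      simp only [Matrix.add_apply, Matrix.smul_apply, Matrix.transpose_apply, smul_eq_mul] at h1
      rw [hQ, Matrix.sub_apply, Matrix.sub_apply]
      linear_combination h1
    -- parity
    have hpar : ∀ x : ι → ℤ, (1 - ε) ∣ (x ᵥ* Q) ⬝ᵥ x := by
      intro x
      have hx : x ∈ Submodule.span ℤ (S0 Λ G) := by rw [hspan]; trivial
      induction hx using Submodule.span_induction with
      | mem x hx =>
        obtain ⟨k, y, h, -⟩ := key x hx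
        have h1 : (x ᵥ* (N₀.val * Ψ * N₀.valᵀ)) ⬝ᵥ x = (y ᵥ* Ψ) ⬝ᵥ y := by
          rw [← Matrix.vecMul_vecMul, ← Matrix.vecMul_vecMul, Matrix.vecMul_transpose,
            dotProduct_comm, Matrix.dotProduct_mulVec, keyN x k y h, dotProduct_comm]
        have h2 : (y ᵥ* Ψ) ⬝ᵥ y
            = fm (Ψ.map (Int.cast : ℤ → MonoidAlgebra ℤ G)) (α (em G x)) (α (em G x)) := by
          rw [h, fm_tr_tr, if_pos rfl]
        have h3 : fm (Ψ.map (Int.cast : ℤ → MonoidAlgebra ℤ G)) (α (em G x)) (α (em G x))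
            = fm (Ψ.map (Int.cast : ℤ → MonoidAlgebra ℤ G) + (Y - ε • adj Y)) (em G x)
              (em G x) := by
          rw [← hN, fm_apply, fm_apply]
          change ipz ((em G x ᵥ* N.val) ᵥ* _) (em G x ᵥ* N.val) = _
          rw [Matrix.vecMul_vecMul, ipz_comm, ipz_vecMul, ipz_comm, Matrix.vecMul_vecMul]
        have h4 : fm (Ψ.map (Int.cast : ℤ → MonoidAlgebra ℤ G) + (Y - ε • adj Y)) (em G x)
            (em G x) = (x ᵥ* Ψ) ⬝ᵥ x + (1 - ε) * fm Y (em G x) (em G x) := by
          have h5 : ∀ A C : Matrix ι ι (MonoidAlgebra ℤ G), ∀ z w,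
              fm (A + C) z w = fm A z w + fm C z w := by
            intro A C z w
            rw [fm_apply, fm_apply, fm_apply, Matrix.vecMul_add, ipz_add_left]
          have h6 : fm (Y - ε • adj Y) (em G x) (em G x)
              = (1 - ε) * fm Y (em G x) (em G x) := by
            have h7 : Y - ε • adj Y = Y + (-ε) • adj Y := by rw [neg_smul, sub_eq_add_neg]
            have h8 : fm ((-ε) • adj Y) (em G x) (em G x) = -ε * fm Y (em G x) (em G x) := by
              rw [fm_apply, fm_apply, Matrix.vecMul_smul, ipz_zsmul_left]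
              congr 1
              rw [ipz_vecMul, adj_adj, ipz_comm]
            rw [h7, h5, h8]
            ring
          rw [h5, h6, fm_em_em]
        rw [hQ, Matrix.vecMul_sub, sub_dotProduct, h1, h2, h3, h4]
        exact ⟨fm Y (em G x) (em G x), by ring⟩
      | zero => simp
      | add a b _ _ h1 h2 =>
        have h3 : ((a + b) ᵥ* Q) ⬝ᵥ (a + b) = (a ᵥ* Q) ⬝ᵥ a + (b ᵥ* Q) ⬝ᵥ b
            + ((a ᵥ* Q) ⬝ᵥ b + (b ᵥ* Q) ⬝ᵥ a) := by
          rw [Matrix.add_vecMul, add_dotProduct, dotProduct_add, dotProduct_add]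
          ring
        have h4 : (b ᵥ* Q) ⬝ᵥ a = -ε * ((a ᵥ* Q) ⬝ᵥ b) := by
          rw [dot_comm_of Q b a]
          have h5 : Qᵀ = (-ε) • Q := by
            ext i j
            rw [Matrix.transpose_apply, Matrix.smul_apply, smul_eq_mul]
            have h6 := hQQ j i
            linear_combination h6
          rw [h5, Matrix.vecMul_smul, smul_dotProduct, smul_eq_mul]
        rw [h3, h4]
        refine dvd_add (dvd_add h1 h2) ⟨(a ᵥ* Q) ⬝ᵥ b, by ring⟩
      | smul n a _ h1 =>
        rw [Matrix.smul_vecMul, smul_dotProduct, dotProduct_smul, smul_eq_mul, smul_eq_mul]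
        exact (h1.mul_left _).mul_left _
    have hdiag : ∀ i, (1 - ε) ∣ Q i i := by
      intro i
      have h1 := hpar (Pi.single i 1)
      rw [Matrix.single_one_vecMul, dotProduct_single_one] at h1
      exact h1
    choose d hd using hdiag
    let X : Matrix ι ι ℤ := Matrix.of fun i j =>
      if i = j then d i else if WellOrderingRel i j then Q i j else 0
    refine ⟨X, ?_⟩
    have h1 : Q = X - ε • Xᵀ := by
      ext i j
      rw [Matrix.sub_apply, Matrix.smul_apply, Matrix.transpose_apply, smul_eq_mul]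
      simp only [X, Matrix.of_apply]
      by_cases hij : i = j
      · subst hij
        rw [if_pos rfl, hd i]
        ring
      · rw [if_neg hij, if_neg (Ne.symm hij)]
        rcases trichotomous_of WellOrderingRel i j with h2 | h2 | h2
        · have h3 : ¬ WellOrderingRel j i := fun h => asymm_of WellOrderingRel h h2
          rw [if_pos h2, if_neg h3]
          ring
        · exact absurd h2 hij
        · have h3 : ¬ WellOrderingRel i j := fun h => asymm_of WellOrderingRel h h2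
          rw [if_neg h3, if_pos h2]
          have h4 := hQQ i j
          linear_combination h4
    rw [← h1, hQ]
    abel
  obtain ⟨X, hX⟩ := hquad
  let s : Finset G := Finset.univ.biUnion fun i => Finset.univ.biUnion fun j =>
    (N.val i j).coeff.support
  have hs : ∀ g, g ∉ s → cm g N.val = 0 := by
    intro g hg
    ext i j
    simp only [s, Finset.mem_biUnion, not_exists, not_and] at hg
    exact Finsupp.notMem_support_iff.1 (hg i (Finset.mem_univ _) j (Finset.mem_univ _))
  have heN : ∀ g, e g * N₀.val = cm g N.val := by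
    intro g
    change cm g N.val * (N₀⁻¹).val * N₀.val = _
    rw [Matrix.mul_assoc, Units.inv_mul, Matrix.mul_one]
  refine ⟨s, e, N₀, X, ?_, ?_, ?_, ?_, hΛinv.1, hLinv.1, hΛinv.2, hX⟩
  · have h1 : ∀ g, (e g).map (MonoidAlgebra.single g)
        * N₀.val.map (Int.cast : ℤ → MonoidAlgebra ℤ G)
        = (cm g N.val).map (MonoidAlgebra.single g) := by
      intro g
      rw [← heN g]
      ext1 i j
      rw [Matrix.mul_apply, Matrix.map_apply, Matrix.mul_apply]
      rw [show MonoidAlgebra.single g (∑ k, e g i k * N₀.val k j)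
        = ∑ k, MonoidAlgebra.single g (e g i k * N₀.val k j) from
          map_sum (MonoidAlgebra.singleAddHom (R := ℤ) g) _ _]
      refine Finset.sum_congr rfl fun k _ => ?_
      rw [Matrix.map_apply, Matrix.map_apply, MonoidAlgebra.intCast_def, Int.cast_id,
        MonoidAlgebra.single_mul_single, mul_one]
    rw [Finset.sum_mul, Finset.sum_congr rfl fun g _ => h1 g]
    ext i j h
    rw [Matrix.sum_apply, MonoidAlgebra.coeff_sum, Finsupp.finsetSum_apply]
    have h2 : ∀ g ∈ s, (((cm g N.val).map (MonoidAlgebra.single g)) i j).coeff h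
        = if g = h then (N.val i j).coeff h else 0 := by
      intro g _
      rw [Matrix.map_apply, MonoidAlgebra.coeff_single, Finsupp.single_apply]
      by_cases h3 : g = h
      · subst h3; rfl
      · rw [if_neg h3, if_neg h3]
    rw [Finset.sum_congr rfl h2, Finset.sum_ite_eq']
    by_cases h3 : h ∈ s
    · rw [if_pos h3]
    · rw [if_neg h3]
      exact congrFun (congrFun (hs h h3) i) j
  · apply mat_ext_S0 Λ hspan
    intro x hx
    obtain ⟨k, y, h, -⟩ := key x hx
    have h1 : x ᵥ* (∑ g ∈ s, e g) = ∑ g ∈ s, x ᵥ* e g := by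
      induction s using Finset.induction_on with
      | empty => rw [Finset.sum_empty, Finset.sum_empty, Matrix.vecMul_zero]
      | insert a t ha ih => rw [Finset.sum_insert ha, Finset.sum_insert ha, Matrix.vecMul_add, ih]
    rw [h1, Finset.sum_congr rfl fun g _ => keyE x k y h g, Finset.sum_ite_eq', Matrix.vecMul_one]
    by_cases h3 : k ∈ s
    · rw [if_pos h3]
    · rw [if_neg h3]
      have h4 := keyE x k y h k
      rw [if_pos rfl] at h4
      rw [← h4]
      change 0 = x ᵥ* (cm k N.val * (N₀⁻¹).val)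
      rw [hs k h3, Matrix.zero_mul, Matrix.vecMul_zero]
  · intro g
    apply mat_ext_S0 Λ hspan
    intro x hx
    obtain ⟨k, y, h, -⟩ := key x hx
    rw [← Matrix.vecMul_vecMul, keyE x k y h]
    split_ifs with h1
    · rw [keyE x k y h, if_pos h1]
    · rw [Matrix.zero_vecMul]
  · intro g g' hgg
    apply mat_ext_S0 Λ hspan
    intro x hx
    obtain ⟨k, y, h, -⟩ := key x hx
    rw [← Matrix.vecMul_vecMul, keyE x k y h, Matrix.vecMul_zero]
    split_ifs with h1
    · rw [keyE x k y h, if_neg (fun h2 => hgg (h1.trans h2.symm))]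
    · rw [Matrix.zero_vecMul]

end Pool.Agent.Y477
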