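import Pool.Agent.Y477.Lat

set_option autoImplicit false
set_option linter.unusedSectionVars false
set_option linter.style.haveILetI false

/-! A torsion-free group acting freely on a positive definite lattice generated by short vectors,
and an equivariant (skew-)selfadjoint operator of norm less than `√2`: an invariant fundamental
sublattice. -/

namespace Pool.Agent.Y477

/-- The data: a positive definite lattice with a group action and a (skew-)selfadjoint
equivariant operator. -/
structure Dat (G P : Type*) [Group G] [AddCommGroup P] where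
  B : P →+ P →+ ℤ
  sym : ∀ x y, B x y = B y x
  pos : ∀ x, x ≠ 0 → 0 < B x x
  ρ : G →* AddMonoid.End P
  inv : ∀ g x y, B (ρ g x) (ρ g y) = B x y
  free : ∀ g x, x ≠ 0 → ρ g x = x → g = 1
  tf : ∀ g : G, ∀ n : ℕ, 0 < n → g ^ n = 1 → g = 1
  T : P →+ P
  ε : ℤ
  adj : ∀ x y, B (T x) y = ε * B x (T y)
  inj : ∀ x, x ≠ 0 → T x ≠ 0
  bd : ∀ x, x ≠ 0 → B (T x) (T x) < 2 * B x x
  com : ∀ g x, T (ρ g x) = ρ g (T x)
  lf : ∀ r, {x | Sh B x ∧ B r x ≠ 0}.Finite
  gen : Submodule.span ℤ {x | Sh B x} = ⊤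

namespace Dat

variable {G P : Type*} [Group G] [AddCommGroup P] (D : Dat G P)

theorem ρ_mul (g h : G) (x : P) : D.ρ (g * h) x = D.ρ g (D.ρ h x) := by
  rw [map_mul]; rfl

theorem ρ_one (x : P) : D.ρ 1 x = x := by rw [map_one]; rfl

theorem ρ_inv (g : G) (x : P) : D.ρ g⁻¹ (D.ρ g x) = x := by
  rw [← D.ρ_mul, inv_mul_cancel, D.ρ_one]

theorem ρ_inv' (g : G) (x : P) : D.ρ g (D.ρ g⁻¹ x) = x := by
  rw [← D.ρ_mul, mul_inv_cancel, D.ρ_one]

theorem ρ_ne (g : G) {x : P} (hx : x ≠ 0) : D.ρ g x ≠ 0 := by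
  intro h
  apply hx
  rw [← D.ρ_inv g x, h, map_zero]

theorem irr_act (g : G) {x : P} (h : Irr D.B x) : Irr D.B (D.ρ g x) := by
  refine ⟨D.ρ_ne g h.1, ?_⟩
  intro y z hyz h0
  have h1 := h.2 (D.ρ g⁻¹ y) (D.ρ g⁻¹ z) (by rw [← map_add, ← hyz, D.ρ_inv]) (by
    rw [D.inv]; exact h0)
  rcases h1 with h1 | h1
  · left; rw [← D.ρ_inv' g y, h1, map_zero]
  · right; rw [← D.ρ_inv' g z, h1, map_zero]

theorem sh_act (g : G) {x : P} (h : Sh D.B x) : Sh D.B (D.ρ g x) :=
  ⟨D.irr_act g h.1, by rw [D.inv]; exact h.2⟩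

theorem lk_act (g : G) {x y : P} (h : Lk D.B x y) : Lk D.B (D.ρ g x) (D.ρ g y) := by
  obtain ⟨z, hz, h1, h2⟩ := h
  exact ⟨D.ρ g z, D.sh_act g hz, by rwa [D.inv], by rwa [D.inv]⟩

theorem lkr {x : P} (h : Sh D.B x) : Lk D.B x x := lk_refl D.B D.pos h

theorem lks {x y : P} (h : Lk D.B x y) : Lk D.B y x := lk_symm D.B D.sym h

theorem lkt {x y z : P} (hy : Sh D.B y) (h : Lk D.B x y) (h' : Lk D.B y z) : Lk D.B x z :=
  lk_trans D.B D.sym D.pos hy h h'

theorem lkn {x y : P} (hx : Sh D.B x) (h : D.B x y ≠ 0) : Lk D.B x y := lk_of_ne D.B D.pos hx h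

/-- The class of a short vector is finite. -/
theorem cl_finite (x : P) : {y | Sh D.B y ∧ Lk D.B x y}.Finite := by
  have h : {y | Sh D.B y ∧ Lk D.B x y} ⊆
      ⋃ z ∈ {z | Sh D.B z ∧ D.B x z ≠ 0}, {y | Sh D.B y ∧ D.B z y ≠ 0} := by
    rintro y ⟨hy, z, hz, h1, h2⟩
    simp only [Set.mem_iUnion]
    exact ⟨z, ⟨hz, h1⟩, hy, h2⟩
  exact ((D.lf x).biUnion fun z _ => D.lf z).subset h

theorem lk_pow (g : G) {x : P} (hx : Sh D.B x) (h : Lk D.B (D.ρ g x) x) (k : ℕ) :
    Lk D.B (D.ρ (g ^ k) x) x := by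
  induction k with
  | zero => rw [pow_zero, D.ρ_one]; exact D.lkr hx
  | succ k ih =>
    rw [pow_succ', D.ρ_mul]
    exact D.lkt (D.sh_act g hx) (D.lk_act g ih) h

/-- The stabiliser of a class is trivial. -/
theorem stab_trivial {g : G} {x : P} (hx : Sh D.B x) (h : Lk D.B (D.ρ g x) x) : g = 1 := by
  have hmem : ∀ k : ℕ, D.ρ (g ^ k) x ∈ {y | Sh D.B y ∧ Lk D.B x y} := fun k =>
    ⟨D.sh_act _ hx, D.lks (D.lk_pow g hx h k)⟩
  have hni : ¬ Function.Injective (fun k : ℕ => D.ρ (g ^ k) x) := by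
    intro hinj
    exact (Set.infinite_of_injective_forall_mem hinj hmem) (D.cl_finite x)
  rw [Function.Injective] at hni
  push Not at hni
  obtain ⟨i, j, hij, hne⟩ := hni
  wlog hlt : i < j generalizing i j
  · exact this j i hij.symm hne.symm (lt_of_le_of_ne (not_lt.1 hlt) hne.symm)
  have h1 : D.ρ (g ^ (j - i)) x = x := by
    have h2 : g ^ j = g ^ i * g ^ (j - i) := by rw [← pow_add]; congr 1; omega
    rw [h2, D.ρ_mul] at hij
    have h3 := congrArg (D.ρ (g ^ i)⁻¹) hij
    rw [D.ρ_inv, D.ρ_inv] at h3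
    exact h3.symm
  exact D.tf g (j - i) (by omega) (D.free _ x hx.1.1 h1)

theorem T_one {e : P} (he : D.B e e = 1) : D.B (D.T e) (D.T e) = 1 := by
  have h0 : e ≠ 0 := by rintro rfl; simp at he
  have h1 := D.bd e h0
  have h2 := D.pos _ (D.inj e h0)
  omega

/-- vectors orthogonal to all vectors of norm one have even norm -/
theorem even_of_orth {v : P} (hv : ∀ e, D.B e e = 1 → D.B v e = 0) : Even (D.B v v) := by
  have hmem : v ∈ Submodule.span ℤ {x | Sh D.B x} := by rw [D.gen]; trivial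
  have hsub : {x | Sh D.B x} ⊆ {x | D.B x x = 1} ∪ {x | Sh D.B x ∧ D.B x x = 2} := by
    intro x hx
    rcases sh_norm D.B D.pos hx with h | h
    · left; exact h
    · right; exact ⟨hx, h⟩
  have hmem2 := Submodule.span_mono (R := ℤ) hsub hmem
  rw [Submodule.span_union, Submodule.mem_sup] at hmem2
  obtain ⟨a, ha, b, hb, hab⟩ := hmem2
  have h1 : ∀ a ∈ Submodule.span ℤ {x | D.B x x = 1}, D.B v a = 0 := by
    intro a ha
    induction ha using Submodule.span_induction with
    | mem x hx => exact hv x hx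
    | zero => simp
    | add x y _ _ h1 h2 => rw [map_add, h1, h2, add_zero]
    | smul n x _ h1 => rw [map_zsmul, h1, smul_zero]
  have h2 : ∀ b ∈ Submodule.span ℤ {x | Sh D.B x ∧ D.B x x = 2},
      ∀ a ∈ Submodule.span ℤ {x | D.B x x = 1}, D.B b a = 0 := by
    intro b hb
    induction hb using Submodule.span_induction with
    | mem x hx =>
      intro a ha
      induction ha using Submodule.span_induction with
      | mem e he =>
        by_contra hne
        rw [D.sym] at hne
        rcases one_orth D.B D.sym D.pos he hx.1 hne with h | h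
        · have h3 := hx.2
          rw [h] at h3
          have : D.B e e = 1 := he
          omega
        · have h3 := hx.2
          rw [h, B_neg_left, map_neg] at h3
          have : D.B e e = 1 := he
          omega
      | zero => simp
      | add x y _ _ h1 h2 => rw [map_add, h1, h2, add_zero]
      | smul n x _ h1 => rw [map_zsmul, h1, smul_zero]
    | zero => intro a _; simp
    | add x y _ _ h1 h2 => intro a ha; rw [B_add_left, h1 a ha, h2 a ha, add_zero]
    | smul n x _ h1 => intro a ha; rw [B_zsmul_left, h1 a ha, mul_zero]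
  have h3 : D.B a a = 0 := by
    have h4 := h1 a ha
    rw [← hab, B_add_left, h2 b hb a ha, add_zero] at h4
    exact h4
  have ha0 := eq_zero_of_self D.B D.pos a h3
  have hvb : v = b := by rw [← hab, ha0, zero_add]
  have h5 : ∀ b ∈ Submodule.span ℤ {x | Sh D.B x ∧ D.B x x = 2}, Even (D.B b b) := by
    intro b hb
    induction hb using Submodule.span_induction with
    | mem x hx => rw [hx.2]; exact even_two
    | zero => simp
    | add x y _ _ h1 h2 =>
      have : D.B (x + y) (x + y) = D.B x x + D.B y y + 2 * D.B x y := by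
        rw [B_add_left, map_add, map_add, D.sym y x]; ring
      rw [this]
      exact (h1.add h2).add (even_two_mul _)
    | smul n x _ h1 =>
      rw [B_zsmul_left, B_zsmul_right]
      exact (h1.mul_left _).mul_left _
  rw [hvb]
  exact h5 b hb

theorem T_sh {x : P} (hx : Sh D.B x) : Sh D.B (D.T x) ∧ D.B (D.T x) (D.T x) = D.B x x := by
  rcases sh_norm D.B D.pos hx with h | h
  · have h1 := D.T_one h
    exact ⟨sh_of_one D.B D.sym D.pos h1, by rw [h1, h]⟩
  · -- the image is orthogonal to the vectors of norm one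
    have horth : ∀ e, D.B e e = 1 → D.B (D.T x) e = 0 := by
      intro e he
      rw [D.adj]
      have h1 := D.T_one he
      have h2 : D.B x (D.T e) = 0 := by
        by_contra hne
        rw [D.sym] at hne
        rcases one_orth D.B D.sym D.pos h1 hx hne with h3 | h3
        · rw [h3, h1] at h; omega
        · rw [h3, B_neg_left, map_neg, h1] at h; omega
      rw [h2, mul_zero]
    have heven := D.even_of_orth horth
    have h1 := D.bd x hx.1.1
    have h2 := D.pos _ (D.inj x hx.1.1)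
    have h3 : D.B (D.T x) (D.T x) = 2 := by
      rw [h] at h1
      obtain ⟨k, hk⟩ := heven
      omega
    refine ⟨⟨⟨D.inj x hx.1.1, ?_⟩, h3.le⟩, by rw [h3, h]⟩
    intro a b hab h0
    by_contra hcon
    push Not at hcon
    have ha := one_le_self D.B D.pos hcon.1
    have hb := one_le_self D.B D.pos hcon.2
    have h4 := h3
    rw [hab, B_add_left, map_add, map_add, D.sym b a, h0] at h4
    have ha1 : D.B a a = 1 := by linarith
    have h5 := horth a ha1
    rw [hab, B_add_left, ha1, D.sym b a, h0] at h5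
    omega

theorem T_ne {x z : P} (hx : Sh D.B x) (hz : Sh D.B z) (h : D.B x z ≠ 0) :
    D.B (D.T x) (D.T z) ≠ 0 := by
  by_cases h1 : z = x
  · subst h1; exact (D.pos _ (D.inj z hz.1.1)).ne'
  by_cases h2 : z = -x
  · subst h2
    rw [map_neg, map_neg, neg_ne_zero]
    exact (D.pos _ (D.inj x hx.1.1)).ne'
  have hx2 : D.B x x = 2 := by
    rcases sh_norm D.B D.pos hx with h3 | h3
    · rcases one_orth D.B D.sym D.pos h3 hz h with h' | h'
      · exact absurd h' h1
      · exact absurd h' h2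
    · exact h3
  have hz2 : D.B z z = 2 := by
    rcases sh_norm D.B D.pos hz with h3 | h3
    · rcases one_orth D.B D.sym D.pos h3 hx (by rw [D.sym]; exact h) with h' | h'
      · exact absurd h'.symm h1
      · exact absurd (by rw [h', neg_neg]) h2
    · exact h3
  have hTx := (D.T_sh hx).2
  have hTz := (D.T_sh hz).2
  rcases inner_two D.B D.sym D.pos hx2 hz2 h h1 h2 with h3 | h3
  · have h4 := sh_add D.B D.sym D.pos hx (sh_neg D.B hz) hx2
      (by rw [B_neg_left, map_neg, hz2]; ring) (by rw [map_neg, h3])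
    have h5 := (D.T_sh h4.1).2
    rw [h4.2, map_add, map_neg, B_add_left, map_add, map_add, B_neg_left, B_neg_left, map_neg,
      map_neg, hTx, hTz, D.sym (D.T z) (D.T x), hx2, hz2] at h5
    omega
  · have h4 := sh_add D.B D.sym D.pos hx hz hx2 hz2 h3
    have h5 := (D.T_sh h4.1).2
    rw [h4.2, map_add, B_add_left, map_add, map_add, hTx, hTz, D.sym (D.T z) (D.T x), hx2,
      hz2] at h5
    omega

theorem T_lk {x y : P} (hx : Sh D.B x) (hy : Sh D.B y) (h : Lk D.B x y) :
    Lk D.B (D.T x) (D.T y) := by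
  obtain ⟨z, hz, h1, h2⟩ := h
  exact ⟨D.T z, (D.T_sh hz).1, D.T_ne hx hz h1, D.T_ne hz hy h2⟩

/-- `T (T x)` is in the class of `x`. -/
theorem TT_lk (hε : D.ε ≠ 0) {x : P} (hx : Sh D.B x) : Lk D.B (D.T (D.T x)) x := by
  have h1 := D.T_sh hx
  have h2 := D.T_sh h1.1
  apply D.lkn h2.1
  rw [D.adj]
  exact mul_ne_zero hε (D.pos _ (D.inj x hx.1.1)).ne'

/-- The relation generated by the classes, the group and the operator. -/
def Rel (x y : P) : Prop := ∃ g, Lk D.B (D.ρ g x) y ∨ Lk D.B (D.ρ g (D.T x)) y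

theorem rel_refl {x : P} (hx : Sh D.B x) : D.Rel x x := ⟨1, Or.inl (by rw [D.ρ_one]; exact D.lkr hx)⟩

theorem lk_TT (hε : D.ε ≠ 0) {x y : P} (g : G) (hx : Sh D.B x) (hy : Sh D.B y)
    (h : Lk D.B (D.ρ g (D.T x)) y) : Lk D.B (D.ρ g x) (D.T y) := by
  have h1 := D.T_lk (D.sh_act g (D.T_sh hx).1) hy h
  rw [D.com] at h1
  exact D.lkt (D.sh_act g (D.T_sh (D.T_sh hx).1).1) (D.lks (D.lk_act g (D.TT_lk hε hx))) h1

theorem rel_symm (hε : D.ε ≠ 0) {x y : P} (hx : Sh D.B x) (hy : Sh D.B y) (h : D.Rel x y) :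
    D.Rel y x := by
  obtain ⟨g, h | h⟩ := h
  · refine ⟨g⁻¹, Or.inl ?_⟩
    have h1 := D.lk_act g⁻¹ h
    rw [D.ρ_inv] at h1
    exact D.lks h1
  · refine ⟨g⁻¹, Or.inr ?_⟩
    have h1 := D.lk_act g⁻¹ (D.lk_TT hε g hx hy h)
    rw [D.ρ_inv] at h1
    exact D.lks h1

theorem rel_trans (hε : D.ε ≠ 0) {x y w : P} (hx : Sh D.B x) (hy : Sh D.B y)
    (h : D.Rel x y) (h' : D.Rel y w) : D.Rel x w := by
  obtain ⟨g, h | h⟩ := h <;> obtain ⟨k, h' | h'⟩ := h'
  · refine ⟨k * g, Or.inl ?_⟩
    rw [D.ρ_mul]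
    exact D.lkt (D.sh_act k hy) (D.lk_act k h) h'
  · refine ⟨k * g, Or.inr ?_⟩
    rw [D.ρ_mul]
    have h1 := D.T_lk (D.sh_act g hx) hy h
    rw [D.com] at h1
    exact D.lkt (D.sh_act k (D.T_sh hy).1) (D.lk_act k h1) h'
  · refine ⟨k * g, Or.inr ?_⟩
    rw [D.ρ_mul]
    exact D.lkt (D.sh_act k hy) (D.lk_act k h) h'
  · refine ⟨k * g, Or.inl ?_⟩
    rw [D.ρ_mul]
    exact D.lkt (D.sh_act k (D.T_sh hy).1) (D.lk_act k (D.lk_TT hε g hx hy h)) h'

/-- The setoid on the short vectors. -/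
def std (hε : D.ε ≠ 0) : Setoid {x : P // Sh D.B x} where
  r x y := D.Rel x.1 y.1
  iseqv := ⟨fun x => D.rel_refl x.2, fun {x y} h => D.rel_symm hε x.2 y.2 h,
    fun {x y _} h h' => D.rel_trans hε x.2 y.2 h h'⟩

/-- The main theorem on the lattice: a finitely generated fundamental sublattice, invariant under
the operator. -/
theorem fundamental (hε : D.ε ≠ 0) (F : Set P) (hF : F.Finite)
    (hspan : Submodule.span ℤ {z | ∃ g, ∃ f ∈ F, z = D.ρ g f} = ⊤) :
    ∃ M : Submodule ℤ P, M.FG ∧ (∀ x ∈ M, D.T x ∈ M) ∧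
      (∀ x ∈ M, ∀ y ∈ M, ∀ g, g ≠ 1 → D.B x (D.ρ g y) = 0) ∧
      Submodule.span ℤ {z | ∃ g, ∃ y ∈ M, z = D.ρ g y} = ⊤ := by
  classical
  -- finitely many short vectors whose translates generate
  have hE : ∃ E : Set P, E.Finite ∧ (∀ e ∈ E, Sh D.B e) ∧
      Submodule.span ℤ {z | ∃ g, ∃ e ∈ E, z = D.ρ g e} = ⊤ := by
    have h1 : ∀ f : P, ∃ S : Set P, S.Finite ∧ (∀ e ∈ S, Sh D.B e) ∧ f ∈ Submodule.span ℤ S := by
      intro f
      have hmem : f ∈ Submodule.span ℤ {x | Sh D.B x} := by rw [D.gen]; trivial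
      obtain ⟨S, hS, hfS⟩ := Submodule.mem_span_finite_of_mem_span hmem
      exact ⟨S, S.finite_toSet, fun e he => hS he, hfS⟩
    choose S hSf hSs hSm using h1
    refine ⟨⋃ f ∈ F, S f, hF.biUnion fun f _ => hSf f, ?_, ?_⟩
    · intro e he
      simp only [Set.mem_iUnion] at he
      obtain ⟨f, _, he⟩ := he
      exact hSs f e he
    · rw [eq_top_iff, ← hspan, Submodule.span_le]
      rintro z ⟨g, f, hf, rfl⟩
      have h2 : ∀ f' ∈ Submodule.span ℤ (S f), D.ρ g f' ∈
          Submodule.span ℤ {z | ∃ g, ∃ e ∈ ⋃ f ∈ F, S f, z = D.ρ g e} := by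
        intro f' hf'
        induction hf' using Submodule.span_induction with
        | mem e he =>
          apply Submodule.subset_span
          refine ⟨g, e, ?_, rfl⟩
          simp only [Set.mem_iUnion]
          exact ⟨f, hf, he⟩
        | zero => rw [map_zero]; exact zero_mem _
        | add x y _ _ h1 h2 => rw [map_add]; exact add_mem h1 h2
        | smul n x _ h1 => rw [map_zsmul]; exact zsmul_mem h1 n
      exact h2 f (hSm f)
  obtain ⟨E, hEf, hEs, hEspan⟩ := hE
  letI st := D.std hε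
  let rep : Quotient st → P := fun q => (Quotient.out q).1
  have hrep : ∀ q, Sh D.B (rep q) := fun q => (Quotient.out q).2
  -- every short vector is related to its representative
  have hrel : ∀ x (hx : Sh D.B x), D.Rel (rep (Quotient.mk st ⟨x, hx⟩)) x := by
    intro x hx
    have h1 : Quotient.mk st (Quotient.out (Quotient.mk st ⟨x, hx⟩)) = Quotient.mk st ⟨x, hx⟩ :=
      Quotient.out_eq _
    exact Quotient.exact h1
  -- related representatives are equal
  have huniq : ∀ q q', D.Rel (rep q) (rep q') → q = q' := by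
    intro q q' h
    have h1 : Quotient.mk st (Quotient.out q) = Quotient.mk st (Quotient.out q') :=
      Quotient.sound h
    rwa [Quotient.out_eq, Quotient.out_eq] at h1
  -- finitely many representatives
  have hQ : Finite (Quotient st) := by
    have h1 : ∀ x, Sh D.B x → ∃ e ∈ E, ∃ g, D.B x (D.ρ g e) ≠ 0 := by
      intro x hx
      by_contra hcon
      push Not at hcon
      have h2 : ∀ z ∈ Submodule.span ℤ {z | ∃ g, ∃ e ∈ E, z = D.ρ g e}, D.B x z = 0 := by
        intro z hz
        induction hz using Submodule.span_induction with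
        | mem z hz =>
          obtain ⟨g, e, he, rfl⟩ := hz
          exact hcon e he g
        | zero => simp
        | add x y _ _ h1 h2 => rw [map_add, h1, h2, add_zero]
        | smul n x _ h1 => rw [map_zsmul, h1, smul_zero]
      have h3 := h2 x (by rw [hEspan]; trivial)
      exact (D.pos x hx.1.1).ne' h3
    haveI := hEf.to_subtype
    let f : E → Quotient st := fun e => Quotient.mk st ⟨e.1, hEs e.1 e.2⟩
    apply Finite.of_surjective f
    intro q
    induction q using Quotient.inductionOn with | h x => ?_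
    obtain ⟨e, he, g, hne⟩ := h1 x.1 x.2
    refine ⟨⟨e, he⟩, Quotient.sound ?_⟩
    exact ⟨g, Or.inl (D.lks (D.lkn x.2 hne))⟩
  -- the generators of the fundamental sublattice
  let W : Set P := ⋃ q, ({y | Sh D.B y ∧ Lk D.B (rep q) y} ∪ {y | Sh D.B y ∧ Lk D.B (D.T (rep q)) y})
  have hWf : W.Finite := Set.finite_iUnion fun q => (D.cl_finite _).union (D.cl_finite _)
  have hWs : ∀ y ∈ W, Sh D.B y ∧ ∃ q, Lk D.B (rep q) y ∨ Lk D.B (D.T (rep q)) y := by
    intro y hy
    simp only [W, Set.mem_iUnion] at hy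
    obtain ⟨q, hy | hy⟩ := hy
    · exact ⟨hy.1, q, Or.inl hy.2⟩
    · exact ⟨hy.1, q, Or.inr hy.2⟩
  have hWi : ∀ y q, Sh D.B y → (Lk D.B (rep q) y ∨ Lk D.B (D.T (rep q)) y) → y ∈ W := by
    intro y q hy h
    simp only [W, Set.mem_iUnion]
    refine ⟨q, ?_⟩
    rcases h with h | h
    · exact Or.inl ⟨hy, h⟩
    · exact Or.inr ⟨hy, h⟩
  -- orthogonality
  have horth : ∀ y ∈ W, ∀ z ∈ W, ∀ g, g ≠ 1 → D.B y (D.ρ g z) = 0 := by
    intro y hy z hz g hg
    by_contra hne
    apply hg
    obtain ⟨hys, q, hq⟩ := hWs y hy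
    obtain ⟨hzs, q', hq'⟩ := hWs z hz
    have hyz : Lk D.B y (D.ρ g z) := D.lkn hys hne
    have hgz := D.sh_act g hzs
    set x := rep q with hxd
    set x' := rep q' with hxd'
    have hxs : Sh D.B x := hrep q
    have hxs' : Sh D.B x' := hrep q'
    have hTx := (D.T_sh hxs).1
    have hTx' := (D.T_sh hxs').1
    -- the square of an element which exchanges the classes of `x` and `T x`
    have hsq : Lk D.B x (D.ρ g (D.T x)) → g = 1 := by
      intro h
      have h1 := D.T_lk hxs (D.sh_act g hTx) h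
      rw [D.com] at h1
      have h2 : Lk D.B (D.T x) (D.ρ g x) :=
        D.lkt (D.sh_act g (D.T_sh hTx).1) h1 (D.lk_act g (D.TT_lk hε hxs))
      have h3 := D.lk_act g h2
      rw [← D.ρ_mul] at h3
      have h4 := D.lkt (D.sh_act g hTx) h h3
      have h5 := D.stab_trivial hxs (D.lks h4)
      exact D.tf g 2 two_pos (by rw [sq]; exact h5)
    have hqq : q = q' := by
      apply huniq
      rcases hq with hq | hq <;> rcases hq' with hq' | hq'
      · refine ⟨g⁻¹, Or.inl ?_⟩
        have h1 := D.lkt hys hq hyz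
        have h2 := D.lk_act g⁻¹ h1
        rw [D.ρ_inv] at h2
        exact D.lkt hzs h2 (D.lks hq')
      · have h1 := D.lkt hys hq hyz
        have h2 := D.lk_act g⁻¹ h1
        rw [D.ρ_inv] at h2
        have h3 := D.lkt hzs h2 (D.lks hq')
        exact D.rel_symm hε hxs' hxs ⟨g, Or.inr (by
          have h4 := D.lk_act g h3
          rw [D.ρ_inv'] at h4
          exact D.lks h4)⟩
      · refine ⟨g⁻¹, Or.inr ?_⟩
        have h1 := D.lkt hys hq hyz
        have h2 := D.lk_act g⁻¹ h1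
        rw [D.ρ_inv] at h2
        exact D.lkt hzs h2 (D.lks hq')
      · have h1 := D.lkt hys hq hyz
        have h2 := D.lk_act g⁻¹ h1
        rw [D.ρ_inv] at h2
        have h3 : Lk D.B (D.ρ g⁻¹ (D.T x)) (D.T x') := D.lkt hzs h2 (D.lks hq')
        have h4 := D.lk_TT hε g⁻¹ hxs hTx' h3
        exact ⟨g⁻¹, Or.inl (D.lkt (D.T_sh hTx').1 h4 (D.TT_lk hε hxs'))⟩
    subst hqq
    rcases hq with hq | hq <;> rcases hq' with hq' | hq'
    · -- `x ~ y ~ g z ~ g x`
      have h1 := D.lkt hgz (D.lkt hys hq hyz) (D.lks (D.lk_act g hq'))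
      exact D.stab_trivial hxs (D.lks h1)
    · have h1 := D.lkt hgz (D.lkt hys hq hyz) (D.lks (D.lk_act g hq'))
      exact hsq h1
    · have h1 := D.lkt hgz (D.lkt hys hq hyz) (D.lks (D.lk_act g hq'))
      -- `T x ~ g x`
      have h2 := D.T_lk hTx (D.sh_act g hxs) h1
      rw [D.com] at h2
      exact hsq (D.lkt (D.T_sh hTx).1 (D.lks (D.TT_lk hε hxs)) h2)
    · have h1 := D.lkt hgz (D.lkt hys hq hyz) (D.lks (D.lk_act g hq'))
      exact D.stab_trivial hTx (D.lks h1)
  refine ⟨Submodule.span ℤ W, Submodule.fg_span hWf, ?_, ?_, ?_⟩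
  · intro x hx
    induction hx using Submodule.span_induction with
    | mem y hy =>
      apply Submodule.subset_span
      obtain ⟨hys, q, hq⟩ := hWs y hy
      refine hWi _ q (D.T_sh hys).1 ?_
      rcases hq with hq | hq
      · right; exact D.T_lk (hrep q) hys hq
      · left
        have h1 := D.T_lk (D.T_sh (hrep q)).1 hys hq
        exact D.lkt (D.T_sh (D.T_sh (hrep q)).1).1 (D.lks (D.TT_lk hε (hrep q))) h1
    | zero => rw [map_zero]; exact zero_mem _
    | add x y _ _ h1 h2 => rw [map_add]; exact add_mem h1 h2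
    | smul n x _ h1 => rw [map_zsmul]; exact zsmul_mem h1 n
  · intro x hx y hy g hg
    induction hx using Submodule.span_induction with
    | mem x hx =>
      induction hy using Submodule.span_induction with
      | mem y hy => exact horth x hx y hy g hg
      | zero => simp
      | add a b _ _ h1 h2 => rw [map_add, map_add, h1, h2, add_zero]
      | smul n a _ h1 => rw [map_zsmul, map_zsmul, h1, smul_zero]
    | zero => simp
    | add a b _ _ h1 h2 => rw [B_add_left, h1, h2, add_zero]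
    | smul n a _ h1 => rw [B_zsmul_left, h1, mul_zero]
  · rw [eq_top_iff, ← D.gen, Submodule.span_le]
    intro x hx
    have hx' : Sh D.B x := hx
    obtain ⟨g, hg⟩ := hrel x hx'
    apply Submodule.subset_span
    refine ⟨g, D.ρ g⁻¹ x, Submodule.subset_span (hWi _ (Quotient.mk st ⟨x, hx'⟩)
      (D.sh_act g⁻¹ hx') ?_), (D.ρ_inv' g x).symm⟩
    rcases hg with hg | hg
    · left
      have h1 := D.lk_act g⁻¹ hg
      rwa [D.ρ_inv] at h1
    · right
      have h1 := D.lk_act g⁻¹ hg
      rwa [D.ρ_inv] at h1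

end Dat

end Pool.Agent.Y477
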