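import Pool.Agent.TH6.LF.Blk

set_option autoImplicit false
set_option linter.unusedSectionVars false
set_option linter.style.haveILetI false

/-! Quadratic forms over the integral group ring of a torsion-free group whose block pattern is
carried by a graph of small norm. -/

namespace Pool.Agent.Y477

open Matrix TH57.Thr TH6.LF

variable {G : Type} [Group G] {ι κ : Type}

/-- A quadratic form whose adjoint has block pattern `ρ`, `u`, `C` is a sum of induced forms. -/
theorem forms_of_structure [Fintype ι] [DecidableEq ι]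
    (htf : ∀ g : G, ∀ n : ℕ, 0 < n → g ^ n = 1 → g = 1) (ε : ℤ) (hε : ε = 1 ∨ ε = -1)
    (ψ : Matrix ι ι (MonoidAlgebra ℤ G)) (ρ : ι → ι) (u : ι → G) (C : ι → Subgroup G)
    (hstr : ∀ i j h, ((ψ + ε • adj ψ) i j).coeff h ≠ 0 →
      ρ i = ρ j ∧ u i * h * (u j)⁻¹ ∈ C (ρ i)) :
    ∃ (θ : ∀ a, Matrix {i // ρ i = a} {i // ρ i = a} (MonoidAlgebra ℤ (C a)))
      (χ : Matrix ι ι (MonoidAlgebra ℤ G)),
      Dm u * ψ * adj (Dm u) = indSum ρ C θ + (χ - ε • adj χ) ∧
      (IsUnit (ψ + ε • adj ψ) → ∀ a, IsUnit (θ a + ε • adj (θ a))) := by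
  classical
  have hεε : ε * ε = 1 := by rcases hε with rfl | rfl <;> norm_num
  have hε0 : ε ≠ 0 := by rcases hε with rfl | rfl <;> norm_num
  have hA : ∀ i j g, ((ψ + ε • adj ψ) i j).coeff g
      = (ψ i j).coeff g + ε * (ψ j i).coeff g⁻¹ := by
    intro i j g
    rw [Matrix.add_apply, coeff_add', Matrix.smul_apply, coeff_zsmul', coeff_adj]
  set φ := Dm u * ψ * adj (Dm u) with hφ
  have hφc : ∀ i j g, (φ i j).coeff g = (ψ i j).coeff ((u i)⁻¹ * g * u j) := Dm_mul u ψ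
  have hB : ∀ i j g, (φ i j).coeff g + ε * (φ j i).coeff g⁻¹ ≠ 0 → ρ i = ρ j ∧ g ∈ C (ρ i) := by
    intro i j g hne
    have h1 := hstr i j ((u i)⁻¹ * g * u j) (by
      rw [hA]
      rw [hφc, hφc] at hne
      have h2 : (u j)⁻¹ * g⁻¹ * u i = ((u i)⁻¹ * g * u j)⁻¹ := by group
      rwa [h2] at hne)
    have h3 : u i * ((u i)⁻¹ * g * u j) * (u j)⁻¹ = g := by group
    rwa [h3] at h1
  let θ : ∀ a, Matrix {i // ρ i = a} {i // ρ i = a} (MonoidAlgebra ℤ (C a)) := fun a i j =>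
    MonoidAlgebra.comapDomain (C a).subtype (C a).subtype_injective (φ i.1 j.1)
  have hS : ∀ i j g, ((indSum ρ C θ) i j).coeff g
      = if ρ j = ρ i ∧ g ∈ C (ρ i) then (φ i j).coeff g else 0 := by
    intro i j g
    unfold indSum
    by_cases h : ρ j = ρ i
    · rw [dif_pos h]
      change (MonoidAlgebra.mapDomain (C (ρ i)).subtype (MonoidAlgebra.comapDomain
        (C (ρ i)).subtype (C (ρ i)).subtype_injective (φ i j))).coeff g = _
      rw [coeff_map_comap]
      by_cases h2 : g ∈ C (ρ i)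
      · rw [if_pos h2, if_pos ⟨h, h2⟩]
      · rw [if_neg h2, if_neg (fun h3 => h2 h3.2)]
    · rw [dif_neg h, if_neg (fun h3 => h h3.1)]
      rfl
  have hsymm : ∀ i j g, (ρ j = ρ i ∧ g ∈ C (ρ i)) ↔ (ρ i = ρ j ∧ g⁻¹ ∈ C (ρ j)) := by
    intro i j g
    constructor
    · rintro ⟨h1, h2⟩
      exact ⟨h1.symm, by rw [h1]; exact inv_mem h2⟩
    · rintro ⟨h1, h2⟩
      refine ⟨h1.symm, ?_⟩
      rw [h1]
      have := inv_mem h2
      rwa [inv_inv] at this
  obtain ⟨χ, hχ⟩ := exists_alt (fun g hg => htf g 2 two_pos (by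
      rw [sq]; nth_rewrite 2 [hg]; exact mul_inv_cancel g)) ε (φ - indSum ρ C θ)
    (fun i j g => by
      rw [Matrix.sub_apply, Matrix.sub_apply, coeff_sub', coeff_sub', hS, hS]
      by_cases h : ρ j = ρ i ∧ g ∈ C (ρ i)
      · rw [if_pos h, if_pos ((hsymm i j g).1 h)]
        ring
      · rw [if_neg h, if_neg (fun h' => h ((hsymm i j g).2 h'))]
        by_contra hcon
        have h3 := hB i j g (by simpa using hcon)
        exact h ⟨h3.1.symm, h3.2⟩)
    (fun i => by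
      rw [Matrix.sub_apply, coeff_sub', hS, if_pos ⟨rfl, one_mem _⟩, sub_self])
  refine ⟨θ, χ, ?_, ?_⟩
  · rw [← hχ]
    abel
  · intro hunit a
    -- the matrix of the adjoint of `φ`
    set B := φ + ε • adj φ with hBd
    have hBA : B = Dm u * (ψ + ε • adj ψ) * adj (Dm u) := by
      rw [hBd, hφ, adj_mul, adj_mul, adj_adj, Matrix.mul_add, Matrix.add_mul,
        Matrix.mul_smul, Matrix.smul_mul, Matrix.mul_assoc (Dm u) (adj ψ)]
    have hDu := Dm_mul_inv u
    obtain ⟨v, hv⟩ := hunit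
    have hBN : B * (Dm u * (↑v⁻¹ : Matrix ι ι (MonoidAlgebra ℤ G)) * adj (Dm u)) = 1 := by
      rw [hBA, ← hv]
      calc Dm u * (v : Matrix ι ι (MonoidAlgebra ℤ G)) * adj (Dm u)
            * (Dm u * (↑v⁻¹ : Matrix ι ι (MonoidAlgebra ℤ G)) * adj (Dm u))
          = Dm u * ((v : Matrix ι ι (MonoidAlgebra ℤ G)) * ((adj (Dm u) * Dm u)
            * (↑v⁻¹ : Matrix ι ι (MonoidAlgebra ℤ G)))) * adj (Dm u) := by
              simp only [Matrix.mul_assoc]
        _ = 1 := by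
              rw [hDu.2, Matrix.one_mul, Units.mul_inv, Matrix.mul_one, hDu.1]
    have hNB : (Dm u * (↑v⁻¹ : Matrix ι ι (MonoidAlgebra ℤ G)) * adj (Dm u)) * B = 1 := by
      rw [hBA, ← hv]
      calc (Dm u * (↑v⁻¹ : Matrix ι ι (MonoidAlgebra ℤ G)) * adj (Dm u))
            * (Dm u * (v : Matrix ι ι (MonoidAlgebra ℤ G)) * adj (Dm u))
          = Dm u * ((↑v⁻¹ : Matrix ι ι (MonoidAlgebra ℤ G)) * ((adj (Dm u) * Dm u)
            * (v : Matrix ι ι (MonoidAlgebra ℤ G)))) * adj (Dm u) := by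
              simp only [Matrix.mul_assoc]
        _ = 1 := by
              rw [hDu.2, Matrix.one_mul, Units.inv_mul, Matrix.mul_one, hDu.1]
    have hBc : ∀ i j g, (B i j).coeff g = (φ i j).coeff g + ε * (φ j i).coeff g⁻¹ := by
      intro i j g
      rw [hBd, Matrix.add_apply, coeff_add', Matrix.smul_apply, coeff_zsmul', coeff_adj]
    have hBρ : ∀ i j, B i j ≠ 0 → ρ i = ρ j := by
      intro i j hne
      by_contra hcon
      apply hne
      ext g
      by_contra h0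
      rw [MonoidAlgebra.coeff_zero, Finsupp.coe_zero, Pi.zero_apply, hBc] at h0
      exact hcon (hB i j g h0).1
    have hblk : mpm (MonoidAlgebra.mapDomainRingHom ℤ (C a).subtype) (θ a + ε • adj (θ a))
        = B.submatrix Subtype.val Subtype.val := by
      ext i j g
      change (MonoidAlgebra.mapDomain (C a).subtype ((θ a + ε • adj (θ a)) i j)).coeff g
        = (B i.1 j.1).coeff g
      have e1 : (θ a + ε • adj (θ a)) i j = MonoidAlgebra.comapDomain (C a).subtype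
          (C a).subtype_injective (B i.1 j.1) := by
        ext k
        rw [Matrix.add_apply, coeff_add', Matrix.smul_apply, coeff_zsmul', coeff_adj]
        simp only [θ, MonoidAlgebra.coeff_comapDomain, Finsupp.comapDomain_apply]
        rw [hBc]
        rfl
      rw [e1, coeff_map_comap]
      split_ifs with h
      · rfl
      · by_contra h0
        apply h
        have h0' : (B i.1 j.1).coeff g ≠ 0 := fun h' => h0 h'.symm
        rw [hBc] at h0'
        have := (hB i.1 j.1 g h0').2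
        rwa [i.2] at this
    apply isUnit_of_isUnit_map
    rw [hblk]
    exact ⟨⟨_, _, mul_block ρ a B _ hBρ hBN, mul_block' ρ a B _ hBρ hNB⟩, rfl⟩

/-- The structure of a block pattern which is carried by a matrix of norm less than `3 / √2`. -/
theorem pattern_structure [Fintype ι] [DecidableEq ι] [Fintype κ] [DecidableEq κ]
    (htf : ∀ g : G, ∀ n : ℕ, 0 < n → g ^ n = 1 → g = 1)
    (c : ℝ) (hc0 : 0 < c) (hc : c ^ 2 < 9 / 2)
    (p : ι → κ) (Q : Matrix κ κ (MonoidAlgebra ℤ G))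
    (hQs : ∀ a b h, (Q a b).coeff h ≠ 0 → (Q b a).coeff h⁻¹ ≠ 0) (hQ : NormLE Q c) :
    ∃ (ρ : ι → ι) (u : ι → G) (C : ι → Subgroup G), (∀ b, IsCyclic (C b)) ∧
      ∀ i j h, ((p i = p j ∧ h = 1) ∨ (Q (p i) (p j)).coeff h ≠ 0) →
        ρ i = ρ j ∧ u i * h * (u j)⁻¹ ∈ C (ρ i) := by
  classical
  obtain ⟨ρ', u', C', hC', hstr'⟩ := sym_structure htf Q hQs c hc0 hc hQ
  let s : ∀ a : κ, (∃ i, ρ' (p i) = a) → ι := fun a h => h.choose
  have hs : ∀ a h, ρ' (p (s a h)) = a := fun a h => h.choose_spec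
  have hss : ∀ a b ha hb, a = b → s a ha = s b hb := by
    intro a b ha hb hab
    subst hab
    rfl
  let ρ : ι → ι := fun i => s (ρ' (p i)) ⟨i, rfl⟩
  have hρ : ∀ i, ρ' (p (ρ i)) = ρ' (p i) := fun i => hs _ _
  refine ⟨ρ, fun i => u' (p i), fun b => C' (ρ' (p b)), fun b => hC' _, ?_⟩
  intro i j h hor
  have h1 : ρ' (p i) = ρ' (p j) ∧ u' (p i) * h * (u' (p j))⁻¹ ∈ C' (ρ' (p i)) := by
    rcases hor with ⟨h1, rfl⟩ | h1
    · rw [← h1]
      refine ⟨rfl, ?_⟩
      rw [mul_one, mul_inv_cancel]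
      exact one_mem _
    · exact hstr' _ _ _ h1
  refine ⟨hss _ _ _ _ h1.1, ?_⟩
  change u' (p i) * h * (u' (p j))⁻¹ ∈ C' (ρ' (p (ρ i)))
  rw [hρ]
  exact h1.2

end Pool.Agent.Y477
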