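import Pool.Agent.TH6.PF.PK
import Pool.Agent.TH6.PF.SBar

set_option autoImplicit false
set_option linter.unusedSectionVars false
set_option linter.style.haveILetI false

/-! Every quadratic form over the group ring `RG` of any ring with involution is, after adding a
hyperbolic form, isometric to a form whose symmetrised support pattern has operator norm close to
`3 / √2`. -/

namespace Y477.RForm

open Matrix TH57.Thr TH6.LF TH6.PF

variable {R : Type} [Ring R] [StarRing R] {G : Type} [Group G] (w : G →* ℤˣ)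

section gen

variable {ι : Type} [Fintype ι] [DecidableEq ι]

theorem form_thin [Nontrivial R] (ψ : Matrix ι ι (MonoidAlgebra R G)) (c : ℝ)
    (hc : 9 / 2 < c ^ 2) :
    ∃ (q : Type) (_ : Fintype q) (_ : DecidableEq q)
      (P : (Matrix (ι ⊕ (q ⊕ q)) (ι ⊕ (q ⊕ q)) (MonoidAlgebra R G))ˣ),
      P ∈ commutator (Matrix (ι ⊕ (q ⊕ q)) (ι ⊕ (q ⊕ q)) (MonoidAlgebra R G))ˣ ∧
      NormLE (symPat (P.val * addHyp q ψ * sadj w P.val)) c := by
  have hr0 : 0 < Real.sqrt 2 := Real.sqrt_pos.2 two_pos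
  have hr : Real.sqrt 2 ^ 2 = 2 := Real.sq_sqrt two_pos.le
  set r := Real.sqrt 2 with hrd
  have hc0 : 0 < |c| := by
    rw [abs_pos]; rintro rfl; norm_num at hc
  have hγ : 3 < |c| * r := by
    have h1 : 3 ^ 2 < (|c| * r) ^ 2 := by
      rw [mul_pow, sq_abs, hr]; linarith
    exact lt_of_pow_lt_pow_left₀ 2 (by positivity) h1
  obtain ⟨q, i1, i2, X, Y, Z, W, hZ, hZW, hWZ, hB, hcard, hN⟩ := TH6.PF.mod_all hr0 hr hγ ψ
  refine ⟨q, i1, i2, ?_⟩
  set Q : Matrix (ι ⊕ (q ⊕ q)) (ι ⊕ (q ⊕ q)) (MonoidAlgebra R G) :=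
    fromBlocks 1 (fromCols X (sadj w (W * Y))) 0 (fromBlocks Z 0 0 1) with hQ
  have hcard3 : 3 ≤ Fintype.card (ι ⊕ (q ⊕ q)) := by
    rw [Fintype.card_sum, Fintype.card_sum]; omega
  have hQE : Q ∈ El (R := MonoidAlgebra R G) (ι ⊕ (q ⊕ q)) := by
    have e : Q = fromBlocks (1 : Matrix ι ι (MonoidAlgebra R G)) 0 0 (fromBlocks Z 0 0 1)
        * (1 + fromBlocks 0 (fromCols X (sadj w (W * Y))) 0 0) := by
      rw [hQ, ← Matrix.fromBlocks_one, Matrix.fromBlocks_add, Matrix.fromBlocks_multiply]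
      simp
    rw [e]
    refine mul_mem (el_ext2 _ (el_ext Z hZ))
      (el_unip (Finset.univ.filter fun v : ι ⊕ (q ⊕ q) => v.isLeft) _ ?_)
    rintro (i | i) (j | j) h <;> simp at h ⊢
  obtain ⟨P, hP1, hP2⟩ := comm_of_El hcard3 Q hQE
  refine ⟨P, hP2, ?_⟩
  rw [hP1]
  set F : Matrix (ι ⊕ (q ⊕ q)) (ι ⊕ (q ⊕ q)) (MonoidAlgebra R G) :=
    fromBlocks 0 (fromCols 0 X) (fromRows Y 0) (fromBlocks 0 Z 0 0) with hF
  have hform : Q * addHyp q ψ * sadj w Q = F := by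
    rw [hQ, hF, addHyp, sadj_fromBlocks, sadj_fromBlocks, sadj_fromCols, sadj_sadj, sadj_one,
      sadj_zero, sadj_zero, sadj_one, Matrix.fromBlocks_multiply, Matrix.fromBlocks_multiply]
    have e1 : (fromCols X (sadj w (W * Y)) : Matrix ι (q ⊕ q) (MonoidAlgebra R G))
        * (fromBlocks (0 : Matrix q q (MonoidAlgebra R G)) (1 : Matrix q q (MonoidAlgebra R G))
          (0 : Matrix q q (MonoidAlgebra R G)) (0 : Matrix q q (MonoidAlgebra R G))) =
        fromCols 0 X := by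
      rw [Matrix.fromCols_mul_fromBlocks]; simp
    have e2 : fromBlocks Z (0 : Matrix q q (MonoidAlgebra R G))
        (0 : Matrix q q (MonoidAlgebra R G)) (1 : Matrix q q (MonoidAlgebra R G))
        * fromBlocks (0 : Matrix q q (MonoidAlgebra R G)) (1 : Matrix q q (MonoidAlgebra R G))
          (0 : Matrix q q (MonoidAlgebra R G)) (0 : Matrix q q (MonoidAlgebra R G))
        = fromBlocks 0 Z 0 0 := by
      rw [Matrix.fromBlocks_multiply]; simp
    simp only [Matrix.one_mul, Matrix.mul_zero, Matrix.zero_mul, add_zero, zero_add, e1, e2,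
      Matrix.mul_one]
    have e3 : fromCols (0 : Matrix ι q (MonoidAlgebra R G)) X
        * fromRows (sadj w X) (W * Y) = X * W * Y := by
      rw [Matrix.fromCols_mul_fromRows]; simp [Matrix.mul_assoc]
    have e4 : fromCols (0 : Matrix ι q (MonoidAlgebra R G)) X
        * fromBlocks (sadj w Z) (0 : Matrix q q (MonoidAlgebra R G))
          (0 : Matrix q q (MonoidAlgebra R G)) (1 : Matrix q q (MonoidAlgebra R G))
        = fromCols 0 X := by
      rw [Matrix.fromCols_mul_fromBlocks]; simp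
    have e5 : fromBlocks (0 : Matrix q q (MonoidAlgebra R G)) Z
        (0 : Matrix q q (MonoidAlgebra R G)) (0 : Matrix q q (MonoidAlgebra R G))
        * fromRows (sadj w X) (W * Y) = fromRows Y 0 := by
      rw [Matrix.fromBlocks_mul_fromRows]
      simp only [Matrix.zero_mul, zero_add, ← Matrix.mul_assoc, hZW, Matrix.one_mul]
    have e6 : fromBlocks (0 : Matrix q q (MonoidAlgebra R G)) Z
        (0 : Matrix q q (MonoidAlgebra R G)) (0 : Matrix q q (MonoidAlgebra R G))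
        * fromBlocks (sadj w Z) (0 : Matrix q q (MonoidAlgebra R G))
        (0 : Matrix q q (MonoidAlgebra R G)) (1 : Matrix q q (MonoidAlgebra R G))
        = fromBlocks 0 Z 0 0 := by
      rw [Matrix.fromBlocks_multiply]; simp
    rw [e3, e4, e5, e6, ← hB]
    simp
  rw [hform]
  have hNc : NormLE (symPat F) |c| := by
    refine normLE_of_ip _ |c| hc0 fun v v' => ?_
    have key : ∀ v v' : ι ⊕ (q ⊕ q) → MonoidAlgebra ℝ G,
        ip (v ᵥ* tp F) v' = ip ((v ∘ Sum.inl) ᵥ* tp X) (v' ∘ Sum.inr ∘ Sum.inr)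
          + ip ((v ∘ Sum.inr ∘ Sum.inl) ᵥ* tp Z) (v' ∘ Sum.inr ∘ Sum.inr)
          + ip ((v ∘ Sum.inr ∘ Sum.inl) ᵥ* tp Y) (v' ∘ Sum.inl) := by
      intro v v'
      have h1 : v ᵥ* tp F = Sum.elim ((v ∘ Sum.inr ∘ Sum.inl) ᵥ* tp Y)
          (Sum.elim 0 ((v ∘ Sum.inl) ᵥ* tp X + (v ∘ Sum.inr ∘ Sum.inl) ᵥ* tp Z)) := by
        funext j
        rcases j with j | j | j
        · simp [Matrix.vecMul, dotProduct, tp, hF, Fintype.sum_sum_type]
        · simp [Matrix.vecMul, dotProduct, tp, hF, Fintype.sum_sum_type]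
        · simp [Matrix.vecMul, dotProduct, tp, hF, Fintype.sum_sum_type]
      rw [h1, ip_elim, ip_elim (Sum.elim _ _ ∘ Sum.inr)]
      have h2 : (Sum.elim ((v ∘ Sum.inr ∘ Sum.inl) ᵥ* tp Y)
          (Sum.elim (0 : q → MonoidAlgebra ℝ G)
            ((v ∘ Sum.inl) ᵥ* tp X + (v ∘ Sum.inr ∘ Sum.inl) ᵥ* tp Z)))
          ∘ Sum.inl = (v ∘ Sum.inr ∘ Sum.inl) ᵥ* tp Y := rfl
      have h3 : ((Sum.elim ((v ∘ Sum.inr ∘ Sum.inl) ᵥ* tp Y)
          (Sum.elim (0 : q → MonoidAlgebra ℝ G)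
            ((v ∘ Sum.inl) ᵥ* tp X + (v ∘ Sum.inr ∘ Sum.inl) ᵥ* tp Z)))
          ∘ Sum.inr) ∘ Sum.inl = 0 := rfl
      have h4 : ((Sum.elim ((v ∘ Sum.inr ∘ Sum.inl) ᵥ* tp Y)
          (Sum.elim (0 : q → MonoidAlgebra ℝ G)
            ((v ∘ Sum.inl) ᵥ* tp X + (v ∘ Sum.inr ∘ Sum.inl) ᵥ* tp Z)))
          ∘ Sum.inr) ∘ Sum.inr
          = (v ∘ Sum.inl) ᵥ* tp X + (v ∘ Sum.inr ∘ Sum.inl) ᵥ* tp Z := rfl
      rw [h2, h3, h4, ip_zero_left, ip_add_left]
      have h5 : (v' ∘ Sum.inr) ∘ Sum.inr = v' ∘ Sum.inr ∘ Sum.inr := rfl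
      rw [h5]
      ring
    have nsq : ∀ v : ι ⊕ (q ⊕ q) → MonoidAlgebra ℝ G,
        normSq v = normSq (v ∘ Sum.inl) + (normSq (v ∘ Sum.inr ∘ Sum.inl)
          + normSq (v ∘ Sum.inr ∘ Sum.inr)) := by
      intro v
      rw [normSq_sum v, normSq_sum (v ∘ Sum.inr)]
      rfl
    have h3 : |ip (v ᵥ* toReal (symPat F)) v'|
        ≤ |ip (v ᵥ* tp F) v'| + |ip (v' ᵥ* tp F) v| := by
      rw [symPat_ip]
      exact abs_add_le _ _
    have h4 := hN (v ∘ Sum.inl) (v' ∘ Sum.inl) (v' ∘ Sum.inr ∘ Sum.inr) (v ∘ Sum.inr ∘ Sum.inl)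
    have h5 := hN (v' ∘ Sum.inl) (v ∘ Sum.inl) (v ∘ Sum.inr ∘ Sum.inr) (v' ∘ Sum.inr ∘ Sum.inl)
    rw [← key] at h4 h5
    have n1 := normSq_nonneg (v ∘ Sum.inl)
    have n2 := normSq_nonneg (v' ∘ Sum.inl)
    have h6 : r * (2 * |ip (v ᵥ* toReal (symPat F)) v'|)
        ≤ r * (|c| * (normSq v + normSq v')) := by
      rw [nsq v, nsq v']
      have h7 := mul_le_mul_of_nonneg_left h3 (show 0 ≤ r * 2 by positivity)
      nlinarith
    exact le_of_mul_le_mul_left h6 hr0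
  intro v
  have := hNc v
  rwa [sq_abs] at this

end gen

theorem form_thin_fin (n : ℕ) (ψ : Matrix (Fin n) (Fin n) (MonoidAlgebra R G)) (c : ℝ)
    (hc : 9 / 2 < c ^ 2) :
    ∃ (m : ℕ) (P : (Matrix (Fin n ⊕ (Fin m ⊕ Fin m)) (Fin n ⊕ (Fin m ⊕ Fin m))
        (MonoidAlgebra R G))ˣ),
      P ∈ commutator (Matrix (Fin n ⊕ (Fin m ⊕ Fin m)) (Fin n ⊕ (Fin m ⊕ Fin m))
        (MonoidAlgebra R G))ˣ ∧
      NormLE (symPat (P.val * addHyp (Fin m) ψ * sadj w P.val)) c := by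
  rcases subsingleton_or_nontrivial R with hR | hR
  · refine ⟨0, 1, one_mem _, ?_⟩
    have h0 : ∀ M : Matrix (Fin n ⊕ (Fin 0 ⊕ Fin 0)) (Fin n ⊕ (Fin 0 ⊕ Fin 0))
        (MonoidAlgebra R G), symPat M = 0 := by
      intro M
      have : M = 0 := by ext i j g; exact Subsingleton.elim _ _
      rw [this, symPat, pat_zero, adj_zero, add_zero]
    rw [h0]
    intro x
    rw [toReal_zero, Matrix.vecMul_zero]
    have h9 : normSq (0 : Fin n ⊕ (Fin 0 ⊕ Fin 0) → MonoidAlgebra ℝ G) = 0 := by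
      rw [normSq_eq]
      exact Finset.sum_eq_zero fun i _ => n1_zero
    rw [h9]
    exact mul_nonneg (sq_nonneg _) (normSq_nonneg _)
  obtain ⟨q, iq1, iq2, P, hP, hN⟩ := form_thin w ψ c hc
  let e : Fin (Fintype.card q) ≃ q := (Fintype.equivFin q).symm
  let e' : Fin n ⊕ (Fin (Fintype.card q) ⊕ Fin (Fintype.card q)) ≃ Fin n ⊕ (q ⊕ q) :=
    Equiv.sumCongr (Equiv.refl _) (Equiv.sumCongr e e)
  refine ⟨Fintype.card q, Units.map (re e') P, comm_re e' P hP, ?_⟩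
  have h1 := NormLE_re e' _ c hN
  have h2 : (Units.map (re e') P).val = P.val.submatrix e' e' := rfl
  have h3 : addHyp (Fin (Fintype.card q)) ψ = (addHyp q ψ).submatrix e' e' := by
    ext1 i j
    rcases i with i | i | i <;> rcases j with j | j | j <;> simp [addHyp, e', Matrix.one_apply]
  have h4 : (Units.map (re e') P).val * addHyp (Fin (Fintype.card q)) ψ
      * sadj w (Units.map (re e') P).val = (P.val * addHyp q ψ * sadj w P.val).submatrix e' e' := by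
    rw [h2, h3, sadj_submatrix, Matrix.submatrix_mul_equiv, Matrix.submatrix_mul_equiv]
  rw [h4]
  exact h1

end Y477.RForm
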