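import Pool.Agent.Y477.RForm
import Pool.Agent.TH6.PF.LBelow

set_option autoImplicit false
set_option linter.unusedSectionVars false
set_option linter.style.haveILetI false

/-! Quadratic forms over `RG` near the hyperbolic form. -/

namespace Y477.RForm

open Matrix TH57.Thr TH6.LF TH6.PF

variable {R : Type} [Ring R] [StarRing R] {G : Type} [Group G] (w : G →* ℤˣ)

section dist

variable {ι : Type} [Fintype ι] [DecidableEq ι]

theorem form_conj {q : Type} [Fintype q] [DecidableEq q] (ψ : Matrix ι ι (MonoidAlgebra R G))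
    (X : Matrix ι q (MonoidAlgebra R G)) (Y : Matrix q ι (MonoidAlgebra R G))
    (Z W : Matrix q q (MonoidAlgebra R G)) (hZW : Z * W = 1) :
    (fromBlocks 1 (fromCols X (sadj w (W * Y))) 0 (fromBlocks Z 0 0 1) :
        Matrix (ι ⊕ (q ⊕ q)) (ι ⊕ (q ⊕ q)) (MonoidAlgebra R G)) * addHyp q ψ *
      sadj w (fromBlocks 1 (fromCols X (sadj w (W * Y))) 0 (fromBlocks Z 0 0 1) :
        Matrix (ι ⊕ (q ⊕ q)) (ι ⊕ (q ⊕ q)) (MonoidAlgebra R G))
      = fromBlocks (ψ + X * W * Y) (fromCols 0 X) (fromRows Y 0) (fromBlocks 0 Z 0 0) := by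
  rw [addHyp, sadj_fromBlocks, sadj_fromBlocks, sadj_fromCols, sadj_sadj, sadj_one, sadj_zero,
    sadj_zero, sadj_one, Matrix.fromBlocks_multiply, Matrix.fromBlocks_multiply]
  have e1 : (fromCols X (sadj w (W * Y)) : Matrix ι (q ⊕ q) (MonoidAlgebra R G))
      * (fromBlocks (0 : Matrix q q (MonoidAlgebra R G)) (1 : Matrix q q (MonoidAlgebra R G))
        (0 : Matrix q q (MonoidAlgebra R G)) (0 : Matrix q q (MonoidAlgebra R G))) =
      fromCols 0 X := by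
    rw [Matrix.fromCols_mul_fromBlocks]; simp
  have e2 : fromBlocks Z (0 : Matrix q q (MonoidAlgebra R G))
      (0 : Matrix q q (MonoidAlgebra R G)) (1 : Matrix q q (MonoidAlgebra R G))
      * fromBlocks (0 : Matrix q q (MonoidAlgebra R G)) (1 : Matrix q q (MonoidAlgebra R G))
        (0 : Matrix q q (MonoidAlgebra R G)) (0 : Matrix q q (MonoidAlgebra R G))
      = fromBlocks 0 Z 0 0 := by
    rw [Matrix.fromBlocks_multiply]; simp
  simp only [Matrix.one_mul, Matrix.mul_zero, Matrix.zero_mul, add_zero, zero_add, e1, e2,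
    Matrix.mul_one]
  have e3 : fromCols (0 : Matrix ι q (MonoidAlgebra R G)) X
      * fromRows (sadj w X) (W * Y) = X * W * Y := by
    rw [Matrix.fromCols_mul_fromRows]; simp [Matrix.mul_assoc]
  have e4 : fromCols (0 : Matrix ι q (MonoidAlgebra R G)) X
      * fromBlocks (sadj w Z) (0 : Matrix q q (MonoidAlgebra R G))
        (0 : Matrix q q (MonoidAlgebra R G)) (1 : Matrix q q (MonoidAlgebra R G))
      = fromCols 0 X := by
    rw [Matrix.fromCols_mul_fromBlocks]; simp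
  have e5 : fromBlocks (0 : Matrix q q (MonoidAlgebra R G)) Z
      (0 : Matrix q q (MonoidAlgebra R G)) (0 : Matrix q q (MonoidAlgebra R G))
      * fromRows (sadj w X) (W * Y) = fromRows Y 0 := by
    rw [Matrix.fromBlocks_mul_fromRows]
    simp only [Matrix.zero_mul, zero_add, ← Matrix.mul_assoc, hZW, Matrix.one_mul]
  have e6 : fromBlocks (0 : Matrix q q (MonoidAlgebra R G)) Z
      (0 : Matrix q q (MonoidAlgebra R G)) (0 : Matrix q q (MonoidAlgebra R G))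
      * fromBlocks (sadj w Z) (0 : Matrix q q (MonoidAlgebra R G))
      (0 : Matrix q q (MonoidAlgebra R G)) (1 : Matrix q q (MonoidAlgebra R G))
      = fromBlocks 0 Z 0 0 := by
    rw [Matrix.fromBlocks_multiply]; simp
  rw [e3, e4, e5, e6]

theorem el_model {q : Type} [Fintype q] [DecidableEq q] (X : Matrix ι q (MonoidAlgebra R G))
    (X' : Matrix ι q (MonoidAlgebra R G)) (Z : Matrix q q (MonoidAlgebra R G))
    (hZ : Z ∈ El (R := MonoidAlgebra R G) q) :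
    (fromBlocks 1 (fromCols X X') 0 (fromBlocks Z 0 0 1) :
      Matrix (ι ⊕ (q ⊕ q)) (ι ⊕ (q ⊕ q)) (MonoidAlgebra R G)) ∈
      El (R := MonoidAlgebra R G) (ι ⊕ (q ⊕ q)) := by
  have e : (fromBlocks 1 (fromCols X X') 0 (fromBlocks Z 0 0 1) :
      Matrix (ι ⊕ (q ⊕ q)) (ι ⊕ (q ⊕ q)) (MonoidAlgebra R G))
      = fromBlocks (1 : Matrix ι ι (MonoidAlgebra R G)) 0 0
      (fromBlocks Z 0 0 1) * (1 + fromBlocks 0 (fromCols X X') 0 0) := by
    rw [← Matrix.fromBlocks_one, Matrix.fromBlocks_add, Matrix.fromBlocks_multiply]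
    simp
  rw [e]
  refine mul_mem (el_ext2 _ (el_ext Z hZ))
    (el_unip (Finset.univ.filter fun v : ι ⊕ (q ⊕ q) => v.isLeft) _ ?_)
  rintro (i | i) (j | j) h <;> simp at h ⊢

theorem ip_model {q : Type} [Fintype q] [DecidableEq q]
    (X : Matrix ι q (MonoidAlgebra R G)) (Y : Matrix q ι (MonoidAlgebra R G))
    (Z : Matrix q q (MonoidAlgebra R G)) (v v' : ι ⊕ (q ⊕ q) → MonoidAlgebra ℝ G) :
    ip (v ᵥ* tp (fromBlocks 0 (fromCols 0 X) (fromRows Y 0) (fromBlocks 0 Z 0 0) :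
        Matrix (ι ⊕ (q ⊕ q)) (ι ⊕ (q ⊕ q)) (MonoidAlgebra R G))) v'
      = ip ((v ∘ Sum.inl) ᵥ* tp X) (v' ∘ Sum.inr ∘ Sum.inr)
        + ip ((v ∘ Sum.inr ∘ Sum.inl) ᵥ* tp Z) (v' ∘ Sum.inr ∘ Sum.inr)
        + ip ((v ∘ Sum.inr ∘ Sum.inl) ᵥ* tp Y) (v' ∘ Sum.inl) := by
  have h1 : v ᵥ* tp (fromBlocks 0 (fromCols 0 X) (fromRows Y 0) (fromBlocks 0 Z 0 0) :
        Matrix (ι ⊕ (q ⊕ q)) (ι ⊕ (q ⊕ q)) (MonoidAlgebra R G))
      = Sum.elim ((v ∘ Sum.inr ∘ Sum.inl) ᵥ* tp Y)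
      (Sum.elim 0 ((v ∘ Sum.inl) ᵥ* tp X + (v ∘ Sum.inr ∘ Sum.inl) ᵥ* tp Z)) := by
    funext j
    rcases j with j | j | j
    · simp [Matrix.vecMul, dotProduct, tp, Fintype.sum_sum_type]
    · simp [Matrix.vecMul, dotProduct, tp, Fintype.sum_sum_type]
    · simp [Matrix.vecMul, dotProduct, tp, Fintype.sum_sum_type]
  rw [h1, ip_elim, ip_elim (Sum.elim _ _ ∘ Sum.inr)]
  have h2 : (Sum.elim ((v ∘ Sum.inr ∘ Sum.inl) ᵥ* tp Y)
      (Sum.elim (0 : q → MonoidAlgebra ℝ G)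
        ((v ∘ Sum.inl) ᵥ* tp X + (v ∘ Sum.inr ∘ Sum.inl) ᵥ* tp Z)))
      ∘ Sum.inl = (v ∘ Sum.inr ∘ Sum.inl) ᵥ* tp Y := rfl
  have h3 : ((Sum.elim ((v ∘ Sum.inr ∘ Sum.inl) ᵥ* tp Y)
      (Sum.elim (0 : q → MonoidAlgebra ℝ G)
        ((v ∘ Sum.inl) ᵥ* tp X + (v ∘ Sum.inr ∘ Sum.inl) ᵥ* tp Z)))
      ∘ Sum.inr) ∘ Sum.inl = 0 := rfl
  have h4 : ((Sum.elim ((v ∘ Sum.inr ∘ Sum.inl) ᵥ* tp Y)
      (Sum.elim (0 : q → MonoidAlgebra ℝ G)
        ((v ∘ Sum.inl) ᵥ* tp X + (v ∘ Sum.inr ∘ Sum.inl) ᵥ* tp Z)))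
      ∘ Sum.inr) ∘ Sum.inr
      = (v ∘ Sum.inl) ᵥ* tp X + (v ∘ Sum.inr ∘ Sum.inl) ᵥ* tp Z := rfl
  rw [h2, h3, h4, ip_zero_left, ip_add_left]
  have h5 : (v' ∘ Sum.inr) ∘ Sum.inr = v' ∘ Sum.inr ∘ Sum.inr := rfl
  rw [h5]
  ring

end dist

section final

variable {κ : Type} [Fintype κ] [DecidableEq κ]

/-- Every form of even rank is stably at pattern distance at most `√2` from the hyperbolic form. -/
theorem dist_form [Nontrivial R] (ψ : Matrix (κ ⊕ κ) (κ ⊕ κ) (MonoidAlgebra R G)) :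
    ∃ (q : Type) (_ : Fintype q) (_ : DecidableEq q)
      (P : (Matrix ((κ ⊕ κ) ⊕ (q ⊕ q)) ((κ ⊕ κ) ⊕ (q ⊕ q)) (MonoidAlgebra R G))ˣ),
      P ∈ commutator (Matrix ((κ ⊕ κ) ⊕ (q ⊕ q)) ((κ ⊕ κ) ⊕ (q ⊕ q)) (MonoidAlgebra R G))ˣ ∧
      NormLE (symPat (P.val * addHyp q ψ * sadj w P.val
        - addHyp q (hyp (MonoidAlgebra R G) κ))) (Real.sqrt 2) := by
  obtain ⟨q, i1, i2, X, Y, Z, W, hZ, hZW, hWZ, hB, hcard, hN⟩ :=
    TH6.PF.modD_all (ψ - hyp (MonoidAlgebra R G) κ)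
  refine ⟨q, i1, i2, ?_⟩
  set Q : Matrix ((κ ⊕ κ) ⊕ (q ⊕ q)) ((κ ⊕ κ) ⊕ (q ⊕ q)) (MonoidAlgebra R G) :=
    fromBlocks 1 (fromCols X (sadj w (W * Y))) 0 (fromBlocks (1 + Z) 0 0 1) with hQ
  have hcard3 : 3 ≤ Fintype.card ((κ ⊕ κ) ⊕ (q ⊕ q)) := by
    simp only [Fintype.card_sum]; omega
  have hQE : Q ∈ El (R := MonoidAlgebra R G) ((κ ⊕ κ) ⊕ (q ⊕ q)) := el_model _ _ (1 + Z) hZ
  obtain ⟨P, hP1, hP2⟩ := comm_of_El hcard3 Q hQE
  refine ⟨P, hP2, ?_⟩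
  rw [hP1]
  set F : Matrix ((κ ⊕ κ) ⊕ (q ⊕ q)) ((κ ⊕ κ) ⊕ (q ⊕ q)) (MonoidAlgebra R G) :=
    fromBlocks 0 (fromCols 0 X) (fromRows Y 0) (fromBlocks 0 Z 0 0) with hF
  have hform : Q * addHyp q ψ * sadj w Q - addHyp q (hyp (MonoidAlgebra R G) κ) = F := by
    rw [hQ, form_conj w ψ X Y (1 + Z) W hZW, hF, addHyp, sub_eq_iff_eq_add,
      Matrix.fromBlocks_add, Matrix.fromBlocks_add]
    have h1 : ψ + X * W * Y = hyp (MonoidAlgebra R G) κ := by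
      have h2 : X * W * Y = -(ψ - hyp (MonoidAlgebra R G) κ) := by rw [← hB, neg_neg]
      rw [h2]; abel
    rw [h1]
    simp [add_comm]
  rw [hform]
  refine normLE_of_ip _ (Real.sqrt 2) sqrt2_pos fun v v' => ?_
  have nsq : ∀ v : (κ ⊕ κ) ⊕ (q ⊕ q) → MonoidAlgebra ℝ G,
      normSq v = normSq (v ∘ Sum.inl) + (normSq (v ∘ Sum.inr ∘ Sum.inl)
        + normSq (v ∘ Sum.inr ∘ Sum.inr)) := by
    intro v
    rw [normSq_sum v, normSq_sum (v ∘ Sum.inr)]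
    rfl
  have h3 : |ip (v ᵥ* toReal (symPat F)) v'|
      ≤ |ip (v ᵥ* tp F) v'| + |ip (v' ᵥ* tp F) v| := by
    rw [symPat_ip]
    exact abs_add_le _ _
  have h4 := hN (v ∘ Sum.inl) (v' ∘ Sum.inl) (v ∘ Sum.inr ∘ Sum.inl) (v' ∘ Sum.inr ∘ Sum.inr)
  have h5 := hN (v' ∘ Sum.inl) (v ∘ Sum.inl) (v' ∘ Sum.inr ∘ Sum.inl) (v ∘ Sum.inr ∘ Sum.inr)
  rw [← ip_model] at h4 h5
  rw [← hF] at h4 h5
  have h6 : Real.sqrt 2 * (2 * |ip (v ᵥ* toReal (symPat F)) v'|)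
      ≤ Real.sqrt 2 * (Real.sqrt 2 * (normSq v + normSq v')) := by
    rw [← mul_assoc (Real.sqrt 2) (Real.sqrt 2), Real.mul_self_sqrt two_pos.le, nsq v, nsq v']
    have h7 := mul_le_mul_of_nonneg_left h3 (show 0 ≤ Real.sqrt 2 * 2 by positivity)
    linarith
  exact le_of_mul_le_mul_left h6 sqrt2_pos

theorem dist_form_fin (k : ℕ) (ψ : Matrix (Fin k ⊕ Fin k) (Fin k ⊕ Fin k) (MonoidAlgebra R G)) :
    ∃ (m : ℕ) (P : (Matrix ((Fin k ⊕ Fin k) ⊕ (Fin m ⊕ Fin m)) ((Fin k ⊕ Fin k) ⊕ (Fin m ⊕ Fin m))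
        (MonoidAlgebra R G))ˣ),
      P ∈ commutator (Matrix ((Fin k ⊕ Fin k) ⊕ (Fin m ⊕ Fin m))
        ((Fin k ⊕ Fin k) ⊕ (Fin m ⊕ Fin m)) (MonoidAlgebra R G))ˣ ∧
      NormLE (symPat (P.val * addHyp (Fin m) ψ * sadj w P.val
        - addHyp (Fin m) (hyp (MonoidAlgebra R G) (Fin k)))) (Real.sqrt 2) := by
  rcases subsingleton_or_nontrivial R with hR | hR
  · refine ⟨0, 1, one_mem _, ?_⟩
    have h0 : ∀ M : Matrix ((Fin k ⊕ Fin k) ⊕ (Fin 0 ⊕ Fin 0)) ((Fin k ⊕ Fin k) ⊕ (Fin 0 ⊕ Fin 0))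
        (MonoidAlgebra R G), symPat M = 0 := by
      intro M
      have : M = 0 := by ext i j g; exact Subsingleton.elim _ _
      rw [this, symPat, pat_zero, adj_zero, add_zero]
    rw [h0]
    intro x
    rw [toReal_zero, Matrix.vecMul_zero]
    have h9 : normSq (0 : (Fin k ⊕ Fin k) ⊕ (Fin 0 ⊕ Fin 0) → MonoidAlgebra ℝ G) = 0 := by
      rw [normSq_eq]
      exact Finset.sum_eq_zero fun i _ => n1_zero
    rw [h9]
    exact mul_nonneg (sq_nonneg _) (normSq_nonneg _)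
  obtain ⟨q, iq1, iq2, P, hP, hN⟩ := dist_form w ψ
  let e : Fin (Fintype.card q) ≃ q := (Fintype.equivFin q).symm
  let e' : (Fin k ⊕ Fin k) ⊕ (Fin (Fintype.card q) ⊕ Fin (Fintype.card q))
      ≃ (Fin k ⊕ Fin k) ⊕ (q ⊕ q) :=
    Equiv.sumCongr (Equiv.refl _) (Equiv.sumCongr e e)
  refine ⟨Fintype.card q, Units.map (re e') P, comm_re e' P hP, ?_⟩
  have h1 := NormLE_re e' _ _ hN
  have h2 : (Units.map (re e') P).val = P.val.submatrix e' e' := rfl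
  have h3 : ∀ φ : Matrix (Fin k ⊕ Fin k) (Fin k ⊕ Fin k) (MonoidAlgebra R G),
      addHyp (Fin (Fintype.card q)) φ = (addHyp q φ).submatrix e' e' := by
    intro φ
    ext1 i j
    rcases i with i | i | i <;> rcases j with j | j | j <;> simp [addHyp, e', Matrix.one_apply]
  have h4 : (Units.map (re e') P).val * addHyp (Fin (Fintype.card q)) ψ
      * sadj w (Units.map (re e') P).val = (P.val * addHyp q ψ * sadj w P.val).submatrix e' e' := by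
    rw [h2, h3, sadj_submatrix, Matrix.submatrix_mul_equiv, Matrix.submatrix_mul_equiv]
  rw [h4, h3]
  exact h1

end final

end Y477.RForm
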