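import Pool.Agent.Y477.RForm2
import Pool.Agent.TH57.Thr.Dist2

set_option autoImplicit false
set_option linter.unusedSectionVars false
set_option linter.style.haveILetI false

/-! A Schur test for matrices over integral group rings, and forms over `RG` near the hyperbolic
form. -/

namespace Y477.RForm

open Matrix TH57.Thr TH6.LF TH6.PF

section schur

variable {G : Type} [Group G]

/-- the sum of the absolute values of the coefficients -/
noncomputable def L1 (x : MonoidAlgebra ℤ G) : ℝ :=
  ∑ g ∈ x.coeff.support, |((x.coeff g : ℤ) : ℝ)|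

theorem L1_nonneg (x : MonoidAlgebra ℤ G) : 0 ≤ L1 x := Finset.sum_nonneg fun _ _ => abs_nonneg _

theorem L1_eq (x : MonoidAlgebra ℤ G) (T : Finset G) (h : x.coeff.support ⊆ T) :
    L1 x = ∑ g ∈ T, |((x.coeff g : ℤ) : ℝ)| := by
  refine Finset.sum_subset h fun g _ hg => ?_
  rw [Finsupp.notMem_support_iff.1 hg]
  simp

theorem L1_zero : L1 (0 : MonoidAlgebra ℤ G) = 0 := by simp [L1]

theorem L1_single (g : G) (z : ℤ) (hz : z ≠ 0) :
    L1 (MonoidAlgebra.single g z) = |(z : ℝ)| := by
  classical
  rw [L1_eq _ {g} (by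
    rw [MonoidAlgebra.coeff_single]
    exact Finsupp.support_single_subset)]
  simp

theorem L1_le (x y z : MonoidAlgebra ℤ G)
    (h : ∀ g, |x.coeff g| ≤ |y.coeff g| + |z.coeff g|) : L1 x ≤ L1 y + L1 z := by
  classical
  set T := x.coeff.support ∪ (y.coeff.support ∪ z.coeff.support) with hT
  rw [L1_eq x T Finset.subset_union_left,
    L1_eq y T (Finset.subset_union_left.trans Finset.subset_union_right),
    L1_eq z T (Finset.subset_union_right.trans Finset.subset_union_right),
    ← Finset.sum_add_distrib]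
  refine Finset.sum_le_sum fun g _ => ?_
  have := h g
  exact_mod_cast this

theorem L1_bar (x : MonoidAlgebra ℤ G) : L1 (bar x) = L1 x := by
  classical
  unfold L1
  refine Finset.sum_bij (fun g _ => g⁻¹) ?_ ?_ ?_ ?_
  · intro g hg
    rw [Finsupp.mem_support_iff, coeff_bar] at hg
    exact Finsupp.mem_support_iff.2 hg
  · intro a _ b _ h
    exact inv_injective h
  · intro g hg
    refine ⟨g⁻¹, ?_, inv_inv g⟩
    rw [Finsupp.mem_support_iff, coeff_bar, inv_inv]
    exact Finsupp.mem_support_iff.1 hg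
  · intro g _
    rw [coeff_bar]

/-- one matrix coefficient -/
theorem coeff_term (m : MonoidAlgebra ℤ G) (a b : MonoidAlgebra ℝ G) :
    2 * |(a * MonoidAlgebra.mapRingHom G (Int.castRingHom ℝ) m * bar b).coeff 1|
      ≤ L1 m * (n1 a + n1 b) := by
  classical
  have h1 : MonoidAlgebra.mapRingHom G (Int.castRingHom ℝ) m
      = ∑ g ∈ m.coeff.support, ((m.coeff g : ℤ) : ℝ) • MonoidAlgebra.single g (1 : ℝ) := by
    ext h
    rw [MonoidAlgebra.coeff_mapRingHom, MonoidAlgebra.coeff_sum, Finsupp.finsetSum_apply]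
    simp only [MonoidAlgebra.coeff_smul, Finsupp.smul_apply, MonoidAlgebra.coeff_single,
      Finsupp.single_apply, smul_eq_mul, mul_ite, mul_one, mul_zero, Finset.sum_ite_eq',
      Finsupp.mapRange_apply]
    by_cases hh : h ∈ m.coeff.support
    · rw [if_pos hh]; simp
    · rw [if_neg hh, Finsupp.notMem_support_iff.1 hh]; simp
  have h2 : (a * MonoidAlgebra.mapRingHom G (Int.castRingHom ℝ) m * bar b).coeff 1
      = ∑ g ∈ m.coeff.support, ((m.coeff g : ℤ) : ℝ) *
        (a * MonoidAlgebra.single g (1 : ℝ) * bar b).coeff 1 := by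
    rw [h1, Finset.mul_sum, Finset.sum_mul, MonoidAlgebra.coeff_sum, Finsupp.finsetSum_apply]
    refine Finset.sum_congr rfl fun g _ => ?_
    rw [mul_smul_comm, smul_mul_assoc, MonoidAlgebra.coeff_smul, Finsupp.smul_apply, smul_eq_mul]
  have h3 : ∀ g : G, 2 * |(a * MonoidAlgebra.single g (1 : ℝ) * bar b).coeff 1|
      ≤ n1 a + n1 b := by
    intro g
    have h4 := two_ip_le (ι := Unit) (fun _ => a * MonoidAlgebra.single g (1 : ℝ)) (fun _ => b) 1
      one_pos
    have h5 : ip (ι := Unit) (fun _ => a * MonoidAlgebra.single g (1 : ℝ)) (fun _ => b)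
        = (a * MonoidAlgebra.single g (1 : ℝ) * bar b).coeff 1 := by
      simp [ip]
    rw [h5, normSq_eq, normSq_eq] at h4
    simp only [Finset.univ_unique, Finset.sum_singleton, n1_mul_single, one_mul, inv_one] at h4
    exact h4
  rw [h2]
  calc 2 * |∑ g ∈ m.coeff.support, ((m.coeff g : ℤ) : ℝ) *
        (a * MonoidAlgebra.single g (1 : ℝ) * bar b).coeff 1|
      ≤ 2 * ∑ g ∈ m.coeff.support, |((m.coeff g : ℤ) : ℝ) *
        (a * MonoidAlgebra.single g (1 : ℝ) * bar b).coeff 1| :=
        mul_le_mul_of_nonneg_left (Finset.abs_sum_le_sum_abs _ _) (by norm_num)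
    _ = ∑ g ∈ m.coeff.support, |((m.coeff g : ℤ) : ℝ)| *
        (2 * |(a * MonoidAlgebra.single g (1 : ℝ) * bar b).coeff 1|) := by
        rw [Finset.mul_sum]
        refine Finset.sum_congr rfl fun g _ => ?_
        rw [abs_mul]; ring
    _ ≤ ∑ g ∈ m.coeff.support, |((m.coeff g : ℤ) : ℝ)| * (n1 a + n1 b) :=
        Finset.sum_le_sum fun g _ => mul_le_mul_of_nonneg_left (h3 g) (abs_nonneg _)
    _ = L1 m * (n1 a + n1 b) := by rw [← Finset.sum_mul]; rfl

/-- **Schur test.** -/
theorem schur {ι : Type} [Fintype ι] (M : Matrix ι ι (MonoidAlgebra ℤ G)) (r : ℝ) (hr : 0 < r)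
    (hrow : ∀ i, ∑ j, L1 (M i j) ≤ r) (hcol : ∀ j, ∑ i, L1 (M i j) ≤ r) : NormLE M r := by
  classical
  refine normLE_of_ip M r hr fun v v' => ?_
  have h1 : ip (v ᵥ* toReal M) v' = ∑ j, ∑ i,
      (v i * MonoidAlgebra.mapRingHom G (Int.castRingHom ℝ) (M i j) * bar (v' j)).coeff 1 := by
    unfold ip
    rw [MonoidAlgebra.coeff_sum, Finsupp.finsetSum_apply]
    refine Finset.sum_congr rfl fun j _ => ?_
    simp only [Matrix.vecMul, dotProduct]
    rw [Finset.sum_mul, MonoidAlgebra.coeff_sum, Finsupp.finsetSum_apply]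
    rfl
  rw [h1]
  calc 2 * |∑ j, ∑ i, (v i * MonoidAlgebra.mapRingHom G (Int.castRingHom ℝ) (M i j)
        * bar (v' j)).coeff 1|
      ≤ ∑ j, ∑ i, 2 * |(v i * MonoidAlgebra.mapRingHom G (Int.castRingHom ℝ) (M i j)
        * bar (v' j)).coeff 1| := by
        have h2 := Finset.abs_sum_le_sum_abs (fun j => ∑ i,
          (v i * MonoidAlgebra.mapRingHom G (Int.castRingHom ℝ) (M i j)
            * bar (v' j)).coeff 1) Finset.univ
        have h3 : ∑ j, |∑ i, (v i * MonoidAlgebra.mapRingHom G (Int.castRingHom ℝ) (M i j)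
            * bar (v' j)).coeff 1| ≤ ∑ j, ∑ i, |(v i * MonoidAlgebra.mapRingHom G
              (Int.castRingHom ℝ) (M i j) * bar (v' j)).coeff 1| :=
          Finset.sum_le_sum fun j _ => Finset.abs_sum_le_sum_abs _ _
        have h4 : ∑ j, ∑ i, 2 * |(v i * MonoidAlgebra.mapRingHom G (Int.castRingHom ℝ) (M i j)
            * bar (v' j)).coeff 1| = 2 * ∑ j, ∑ i, |(v i * MonoidAlgebra.mapRingHom G
              (Int.castRingHom ℝ) (M i j) * bar (v' j)).coeff 1| := by
          rw [Finset.mul_sum]
          exact Finset.sum_congr rfl fun j _ => (Finset.mul_sum _ _ _).symm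
        rw [h4]
        linarith
    _ ≤ ∑ j, ∑ i, L1 (M i j) * (n1 (v i) + n1 (v' j)) :=
        Finset.sum_le_sum fun j _ => Finset.sum_le_sum fun i _ => coeff_term _ _ _
    _ = ∑ i, (∑ j, L1 (M i j)) * n1 (v i) + ∑ j, (∑ i, L1 (M i j)) * n1 (v' j) := by
        simp only [mul_add, Finset.sum_add_distrib, Finset.sum_mul]
        rw [Finset.sum_comm]
    _ ≤ ∑ i, r * n1 (v i) + ∑ j, r * n1 (v' j) :=
        add_le_add (Finset.sum_le_sum fun i _ => mul_le_mul_of_nonneg_right (hrow i) (n1_nonneg _))
          (Finset.sum_le_sum fun j _ => mul_le_mul_of_nonneg_right (hcol j) (n1_nonneg _))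
    _ = r * (normSq v + normSq v') := by
        rw [normSq_eq, normSq_eq, ← Finset.mul_sum, ← Finset.mul_sum, mul_add]

end schur

section near

variable {R : Type} [Ring R] [StarRing R] {G : Type} [Group G] {κ : Type} [Fintype κ]
  [DecidableEq κ]

theorem ind_cases (r : R) : ind r = 0 ∨ ind r = 1 := by
  by_cases h : r = 0
  · rw [h]; exact Or.inl ind_zero
  · exact Or.inr (ind_of_ne h)

theorem ind_add_le (r s : R) : ind (r + s) ≤ ind r + ind s := by
  by_cases hr : r = 0
  · rw [hr, zero_add, ind_zero, zero_add]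
  · by_cases hs : s = 0
    · rw [hs, add_zero, ind_zero, add_zero]
    · rw [ind_of_ne hr, ind_of_ne hs]
      rcases ind_cases (r + s) with h | h <;> rw [h] <;> norm_num

theorem symPat_bar {ι : Type} (ψ : Matrix ι ι (MonoidAlgebra R G)) (i j : ι) :
    bar (symPat ψ i j) = symPat ψ j i := by
  ext g
  rw [coeff_bar, coeff_symPat, coeff_symPat, inv_inv, add_comm]

/-- the rows of the symmetrised pattern of the hyperbolic form -/
theorem symPat_hyp_row (i : κ ⊕ κ) :
    ∑ j, L1 (symPat (hyp (MonoidAlgebra R G) κ) i j) ≤ 1 := by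
  classical
  have hone : ∀ g : G, ind ((1 : MonoidAlgebra R G).coeff g) ≤ if g = 1 then 1 else 0 := by
    intro g
    by_cases hg : g = 1
    · rw [if_pos hg]
      rcases ind_cases ((1 : MonoidAlgebra R G).coeff g) with h | h <;> rw [h]; norm_num
    · rw [if_neg hg, MonoidAlgebra.one_def, MonoidAlgebra.coeff_single, Finsupp.single_apply,
        if_neg (fun h => hg h.symm), ind_zero]
  have hnn : ∀ r : R, 0 ≤ ind r := fun r => by
    rcases ind_cases r with h | h <;> rw [h]; norm_num
  have key : ∀ j, L1 (symPat (hyp (MonoidAlgebra R G) κ) i j)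
      ≤ if j = i.swap then 1 else 0 := by
    intro j
    have hc : ∀ g, |(symPat (hyp (MonoidAlgebra R G) κ) i j).coeff g|
        ≤ |(if j = i.swap then (MonoidAlgebra.single (1 : G) (1 : ℤ)) else 0).coeff g|
          + |(0 : MonoidAlgebra ℤ G).coeff g| := by
      intro g
      rw [coeff_symPat]
      have h0 : ind ((0 : MonoidAlgebra R G).coeff g) = 0 := by
        rw [MonoidAlgebra.coeff_zero, Finsupp.coe_zero, Pi.zero_apply, ind_zero]
      have h0' : ind ((0 : MonoidAlgebra R G).coeff g⁻¹) = 0 := by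
        rw [MonoidAlgebra.coeff_zero, Finsupp.coe_zero, Pi.zero_apply, ind_zero]
      rcases i with i | i <;> rcases j with j | j
      · simp [hyp, ind_zero]
      · by_cases hij : j = i
        · subst hij
          simp only [hyp, Matrix.fromBlocks_apply₁₂, Matrix.fromBlocks_apply₂₁,
            Matrix.one_apply_eq, Matrix.zero_apply, h0', add_zero, Sum.swap_inl, if_true]
          have h1 := hone g
          have h2 := hnn ((1 : MonoidAlgebra R G).coeff g)
          rw [abs_of_nonneg h2]
          by_cases hg : g = 1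
          · subst hg
            rw [if_pos rfl] at h1
            simpa using h1
          · rw [if_neg hg] at h1
            exact h1.trans (by positivity)
        · have hij' : ¬ i = j := fun h => hij h.symm
          simp [hyp, hij', hij, Matrix.one_apply, ind_zero]
      · by_cases hij : j = i
        · subst hij
          simp only [hyp, Matrix.fromBlocks_apply₁₂, Matrix.fromBlocks_apply₂₁,
            Matrix.one_apply_eq, Matrix.zero_apply, h0, zero_add, Sum.swap_inr, if_true]
          have h1 := hone g⁻¹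
          have h2 := hnn ((1 : MonoidAlgebra R G).coeff g⁻¹)
          rw [abs_of_nonneg h2]
          by_cases hg : g = 1
          · subst hg
            rw [inv_one] at h1 ⊢
            rw [if_pos rfl] at h1
            simpa using h1
          · rw [if_neg (fun h => hg (inv_eq_one.1 h))] at h1
            exact h1.trans (by positivity)
        · have hij' : ¬ i = j := fun h => hij h.symm
          simp [hyp, hij, Matrix.one_apply, ind_zero]
      · simp [hyp, ind_zero]
    have h2 := L1_le _ _ _ hc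
    rw [L1_zero, add_zero] at h2
    refine h2.trans ?_
    split_ifs
    · rw [L1_single _ _ one_ne_zero]; simp
    · rw [L1_zero]
  calc _ ≤ ∑ j, (if j = i.swap then (1 : ℝ) else 0) := Finset.sum_le_sum fun j _ => key j
    _ = 1 := by simp

/-- Forms close to the hyperbolic form have a pattern of norm at most two. -/
theorem near_pattern (ψ : Matrix (κ ⊕ κ) (κ ⊕ κ) (MonoidAlgebra R G)) (c : ℝ) (hc : c ^ 2 < 2)
    (h : NormLE (symPat (ψ - hyp (MonoidAlgebra R G) κ)) c) : NormLE (symPat ψ) 2 := by
  classical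
  set y := ψ - hyp (MonoidAlgebra R G) κ with hy
  have hr := rowOne_of_norm (symPat y) c hc h
  have hrow : ∀ i, ∑ j, L1 (symPat ψ i j) ≤ 2 := by
    intro i
    have h1 : ∀ j, L1 (symPat ψ i j)
        ≤ L1 (symPat (hyp (MonoidAlgebra R G) κ) i j) + L1 (symPat y i j) := by
      intro j
      refine L1_le _ _ _ fun g => ?_
      have hnn : ∀ (M : Matrix (κ ⊕ κ) (κ ⊕ κ) (MonoidAlgebra R G)) (i j : κ ⊕ κ) (g : G),
          0 ≤ (symPat M i j).coeff g := by
        intro M i j g
        rw [coeff_symPat]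
        rcases ind_cases ((M i j).coeff g) with h | h <;>
          rcases ind_cases ((M j i).coeff g⁻¹) with h' | h' <;> rw [h, h'] <;> norm_num
      rw [abs_of_nonneg (hnn _ _ _ _), abs_of_nonneg (hnn _ _ _ _), abs_of_nonneg (hnn _ _ _ _),
        coeff_symPat, coeff_symPat, coeff_symPat]
      have e1 : ∀ (i j : κ ⊕ κ) (g : G), (ψ i j).coeff g
          = (hyp (MonoidAlgebra R G) κ i j).coeff g + (y i j).coeff g := by
        intro i j g
        rw [hy, Matrix.sub_apply, MonoidAlgebra.coeff_sub, Finsupp.sub_apply]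
        abel
      rw [e1 i j g, e1 j i g⁻¹]
      have h2 := ind_add_le ((hyp (MonoidAlgebra R G) κ i j).coeff g) ((y i j).coeff g)
      have h3 := ind_add_le ((hyp (MonoidAlgebra R G) κ j i).coeff g⁻¹) ((y j i).coeff g⁻¹)
      linarith
    have h2 : ∑ j, L1 (symPat y i j) ≤ 1 := by
      rcases hr i with h4 | ⟨j, g, ε', hε', hj, hk⟩
      · rw [Finset.sum_eq_zero fun j _ => by rw [h4 j, L1_zero]]
        norm_num
      · rw [Finset.sum_eq_single j (fun k _ hkj => by rw [hk k hkj, L1_zero])
          (fun h => absurd (Finset.mem_univ _) h), hj]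
        rcases hε' with rfl | rfl
        · rw [L1_single _ _ one_ne_zero]; simp
        · rw [L1_single _ _ (by norm_num)]; simp
    have h3 := symPat_hyp_row (R := R) (G := G) i
    calc _ ≤ ∑ j, (L1 (symPat (hyp (MonoidAlgebra R G) κ) i j) + L1 (symPat y i j)) :=
          Finset.sum_le_sum fun j _ => h1 j
      _ ≤ 2 := by rw [Finset.sum_add_distrib]; linarith
  refine schur (symPat ψ) 2 two_pos hrow fun j => ?_
  have h4 : ∀ i, L1 (symPat ψ i j) = L1 (symPat ψ j i) := by
    intro i
    rw [← symPat_bar ψ i j, L1_bar]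
  rw [Finset.sum_congr rfl fun i _ => h4 i]
  exact hrow j

end near

end Y477.RForm
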